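import Pool.Agent.H40SY.Gal

/-! The number of the primes of degree one above a prime, and class functions of the roots. -/

set_option autoImplicit false

namespace Pool.Agent.H40SY

open NumberField IsDedekindDomain Polynomial Finset
open Pool.Agent.W401.Cheb (GK IsFrob)
open Pool.Agent.W401.Frob (smul_alg coe_smul)
open Pool.Agent.W353.NF (oi oi_coe smul_oi oi_alg act fixn act_apply absNorm_ker exists_emb)
open Pool.Agent.W353.TP (exists_rho)

section
variable {K F : Type} [Field K] [NumberField K] [Field F] [NumberField F] [Algebra K F]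

/-- the count (a copy of `Pool.Agent.W353.NF.card_ext` with a weaker hypothesis) -/
theorem card_ext' (v : HeightOneSpectrum (𝓞 K))
    (he : ∀ Q : Ideal (𝓞 (AlgebraicClosure K)), Q.IsMaximal →
      Q.comap (algebraMap (𝓞 K) (𝓞 (AlgebraicClosure K))) = v.asIdeal →
      ∀ i j : F →ₐ[K] AlgebraicClosure K, (∀ a : 𝓞 F, oi i a - oi j a ∈ Q) → i = j)
    (σ : GK K) (hσ : IsFrob v σ) {p : ℕ} [Fact p.Prime]
    (φ : 𝓞 K →+* ZMod p) (hφ : RingHom.ker φ = v.asIdeal) :
    Nat.card {i : F →ₐ[K] AlgebraicClosure K //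
      (σ : AlgebraicClosure K →ₐ[K] AlgebraicClosure K).comp i = i} =
    Nat.card {ψ : 𝓞 F →+* ZMod p // ψ.comp (algebraMap (𝓞 K) (𝓞 F)) = φ} := by
  classical
  obtain ⟨Q, hQm, hQv, hQ⟩ := hσ
  rw [absNorm_ker φ hφ] at hQ
  let _ : Field (𝓞 (AlgebraicClosure K) ⧸ Q) := Ideal.Quotient.field Q
  have hpv : (p : 𝓞 K) ∈ v.asIdeal := by
    rw [← hφ, RingHom.mem_ker, map_natCast]
    exact ZMod.natCast_self _
  have hpQ : (p : 𝓞 (AlgebraicClosure K)) ∈ Q := by
    rw [← hQv, Ideal.mem_comap, map_natCast] at hpv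
    exact hpv
  have hpk : ((p : ℕ) : 𝓞 (AlgebraicClosure K) ⧸ Q) = 0 := by
    have := Ideal.Quotient.eq_zero_iff_mem.2 hpQ
    simpa using this
  have hchar : CharP (𝓞 (AlgebraicClosure K) ⧸ Q) p := by
    obtain ⟨c, hc⟩ := CharP.exists (𝓞 (AlgebraicClosure K) ⧸ Q)
    have h1 : c ∣ p := (CharP.cast_eq_zero_iff (𝓞 (AlgebraicClosure K) ⧸ Q) c p).1 hpk
    rcases (Nat.dvd_prime (Fact.out : p.Prime)).1 h1 with h2 | h2
    · subst h2
      exact absurd rfl (CharP.char_ne_one (𝓞 (AlgebraicClosure K) ⧸ Q) 1)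
    · rwa [h2] at hc
  set ι : ZMod p →+* (𝓞 (AlgebraicClosure K) ⧸ Q) :=
    ZMod.castHom (m := p) dvd_rfl (𝓞 (AlgebraicClosure K) ⧸ Q) with hι
  have hmem : ∀ x : 𝓞 (AlgebraicClosure K) ⧸ Q, x ^ p = x → ∃ y, ι y = x := by
    intro x hx
    have h1 := (Subfield.mem_bot_iff_pow_eq_self (𝓞 (AlgebraicClosure K) ⧸ Q) p).2 hx
    rw [← ZMod.fieldRange_castHom_eq_bot p] at h1
    exact h1
  have hinj : Function.Injective ι := ι.injective
  let red : (F →ₐ[K] AlgebraicClosure K) → 𝓞 F →+* (𝓞 (AlgebraicClosure K) ⧸ Q) := fun i =>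
    (Ideal.Quotient.mk Q).comp (oi i)
  have hred : ∀ i a, red i a = Ideal.Quotient.mk Q (oi i a) := fun i a => rfl
  have hredinj : ∀ i j, (∀ a, red i a = red j a) → i = j := by
    intro i j h
    refine he Q hQm hQv i j fun a => ?_
    rw [← Ideal.Quotient.mk_eq_mk_iff_sub_mem]
    exact h a
  have hfrob : ∀ i a, (red i a) ^ p =
      red ((σ : AlgebraicClosure K →ₐ[K] AlgebraicClosure K).comp i) a := by
    intro i a
    rw [hred, hred, ← map_pow, Ideal.Quotient.mk_eq_mk_iff_sub_mem, ← smul_oi]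
    have := Q.neg_mem (hQ (oi i a))
    rwa [neg_sub] at this
  have hK : ∀ i (a : 𝓞 K), red i (algebraMap (𝓞 K) (𝓞 F) a) = ι (φ a) := by
    intro i a
    obtain ⟨n, hn⟩ := ZMod.intCast_surjective (φ a)
    have h1 : a - (n : 𝓞 K) ∈ v.asIdeal := by
      rw [← hφ, RingHom.mem_ker, map_sub, map_intCast, hn, sub_self]
    rw [← hQv, Ideal.mem_comap] at h1
    rw [hred, oi_alg, ← hn, map_intCast, ← map_intCast (Ideal.Quotient.mk Q),
      Ideal.Quotient.mk_eq_mk_iff_sub_mem]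
    rwa [map_sub, map_intCast] at h1
  have hex : ∀ i : {i : F →ₐ[K] AlgebraicClosure K //
      (σ : AlgebraicClosure K →ₐ[K] AlgebraicClosure K).comp i = i},
      ∃ ψ : 𝓞 F →+* ZMod p, ∀ a, ι (ψ a) = red i.1 a := by
    rintro ⟨i, hi⟩
    have h1 : ∀ a, (red i a) ^ p = red i a := fun a => by rw [hfrob, hi]
    choose f hf using fun a => hmem _ (h1 a)
    refine ⟨{ toFun := f, map_one' := ?_, map_mul' := ?_, map_zero' := ?_, map_add' := ?_ }, hf⟩
    · apply hinj
      rw [hf, map_one, map_one]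
    · intro a b
      apply hinj
      rw [hf, map_mul, map_mul, hf, hf]
    · apply hinj
      rw [hf, map_zero, map_zero]
    · intro a b
      apply hinj
      rw [hf, map_add, map_add, hf, hf]
  choose T hT using hex
  refine Nat.card_eq_of_bijective (fun i => ⟨T i, ?_⟩) ⟨?_, ?_⟩
  · ext a
    apply hinj
    rw [RingHom.comp_apply, hT, hK]
  · rintro i j hij
    apply Subtype.ext
    refine hredinj _ _ fun a => ?_
    rw [← hT, ← hT]
    have h1 : T i = T j := congrArg Subtype.val hij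
    rw [h1]
  · rintro ⟨ψ, hψ⟩
    obtain ⟨i, hi⟩ := exists_emb hQm hQv hφ ψ hψ
    have hred2 : ∀ a, red i a = ι (ψ a) := by
      intro a
      obtain ⟨n, hn⟩ := ZMod.intCast_surjective (ψ a)
      have h1 : oi i (a - (n : 𝓞 F)) ∈ Q := by
        rw [hi, map_sub, map_intCast, hn, sub_self]
      have h2 : red i (a - (n : 𝓞 F)) = 0 := Ideal.Quotient.eq_zero_iff_mem.2 h1
      rw [map_sub, map_intCast, sub_eq_zero] at h2
      rw [h2, ← hn, map_intCast]
    have hfix : (σ : AlgebraicClosure K →ₐ[K] AlgebraicClosure K).comp i = i := by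
      refine hredinj _ _ fun a => ?_
      rw [← hfrob, hred2, ← map_pow, ZMod.pow_card]
    refine ⟨⟨i, hfix⟩, ?_⟩
    apply Subtype.ext
    ext a
    apply hinj
    change ι (T ⟨i, hfix⟩ a) = ι (ψ a)
    rw [hT, ← hred2]

end

section
variable {K : Type} [Field K] [NumberField K] {n : ℕ} {a : Fin n → 𝓞 K}
  {θ : Fin n → 𝓞 (AlgebraicClosure K)}

/-- all permutations of the roots are induced by automorphisms -/
def Sym (θ : Fin n → 𝓞 (AlgebraicClosure K)) : Prop :=
  ∀ π : Equiv.Perm (Fin n), ∃ g : GK K, ∀ i, g • θ i = θ (π i)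

section
variable {M : Type} [Field M] [NumberField M] [Algebra K M]

theorem Inside.fixn_eq (hM : Inside θ M) {g g' : GK K} (hg : ∀ i, g • θ i = g' • θ i) :
    fixn K M g = fixn K M g' := by
  unfold fixn
  refine Nat.card_congr (Equiv.subtypeEquivRight fun ι => ?_)
  rw [act_apply, act_apply, hM.comp_eq hg ι]

/-- the number of the fixed embeddings as a function of the permutation of the roots -/
noncomputable def eta (hs : Sym θ) (M : Type) [Field M] [NumberField M] [Algebra K M]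
    (π : Equiv.Perm (Fin n)) : ℕ := fixn K M (hs π).choose

theorem eta_eq (hs : Sym θ) (hM : Inside θ M) (g : GK K) (π : Equiv.Perm (Fin n))
    (hg : ∀ i, g • θ i = θ (π i)) : fixn K M g = eta hs M π :=
  hM.fixn_eq fun i => by rw [hg, (hs π).choose_spec]

theorem eta_conj (hs : Sym θ) (hM : Inside θ M) (π u : Equiv.Perm (Fin n)) :
    eta hs M (u * π * u⁻¹) = eta hs M π := by
  obtain ⟨g, hg⟩ := hs π
  obtain ⟨k, hk⟩ := hs u
  rw [← eta_eq hs hM g π hg, ← eta_eq hs hM (k * g * k⁻¹) (u * π * u⁻¹) (fun i => ?_),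
    Pool.Agent.W353.NF.fixn_conj]
  rw [mul_smul, mul_smul]
  have h1 : k⁻¹ • θ i = θ (u⁻¹ i) := by
    rw [inv_smul_eq_iff, hk]
    congr 1
    exact (u.apply_symm_apply i).symm
  rw [h1, hg, hk]
  rfl

/-- the mean value of `eta` is one -/
theorem eta_mean (h : Roots a θ) (hinj : Function.Injective θ) (hs : Sym θ) (hM : Inside θ M) :
    ∑ π : Equiv.Perm (Fin n), eta hs M π = n.factorial := by
  classical
  let ι₀ : M →ₐ[K] AlgebraicClosure K := IsAlgClosed.lift
  let g : Equiv.Perm (Fin n) → GK K := fun π => (hs π).choose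
  have hg : ∀ π i, g π • θ i = θ (π i) := fun π => (hs π).choose_spec
  let c : GK K → (M →ₐ[K] AlgebraicClosure K) → (M →ₐ[K] AlgebraicClosure K) := fun s ι =>
    (s : AlgebraicClosure K →ₐ[K] AlgebraicClosure K).comp ι
  have hmul : ∀ π ρ ι, c (g (π * ρ)) ι = c (g π) (c (g ρ) ι) := by
    intro π ρ ι
    have h1 := hM.comp_eq (g := g (π * ρ)) (g' := g π * g ρ) (fun i => by
      rw [hg, mul_smul, hg, hg]; rfl) ι
    exact h1
  have h1 : ∀ π, eta hs M π = ∑ ι : M →ₐ[K] AlgebraicClosure K, if c (g π) ι = ι then 1 else 0 := by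
    intro π
    show fixn K M (g π) = _
    unfold fixn
    rw [Nat.card_eq_fintype_card, Fintype.card_subtype, Finset.card_filter]
    rfl
  have h2 : ∀ ι : M →ₐ[K] AlgebraicClosure K,
      (∑ π : Equiv.Perm (Fin n), if c (g π) ι = ι then 1 else 0) =
      ∑ π : Equiv.Perm (Fin n), if c (g π) ι₀ = ι then 1 else 0 := by
    intro ι
    obtain ⟨ρ, hρ⟩ := exists_rho ι₀ ι
    obtain ⟨π₀, hπ₀⟩ := h.perm hinj (ρ : GK K)
    have h3 : c (g π₀) ι₀ = ι := by
      have h4 := hM.comp_eq (g := g π₀) (g' := (ρ : GK K)) (fun i => by rw [hg, hπ₀]) ι₀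
      rw [show c (g π₀) ι₀ = _ from h4]
      exact AlgHom.ext hρ
    have h5 := Equiv.sum_comp (Equiv.mulRight π₀)
      (fun π : Equiv.Perm (Fin n) => if c (g π) ι₀ = ι then 1 else 0)
    rw [← h5]
    refine Finset.sum_congr rfl fun π _ => ?_
    rw [Equiv.coe_mulRight, hmul, h3]
  rw [Finset.sum_congr rfl fun π _ => h1 π, Finset.sum_comm, Finset.sum_congr rfl fun ι _ => h2 ι,
    Finset.sum_comm, Finset.sum_congr rfl (g := fun _ => 1)]
  · rw [Finset.sum_const, card_univ, Fintype.card_perm, Fintype.card_fin, smul_eq_mul, mul_one]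
  · intro π _
    rw [Finset.sum_ite_eq univ (c (g π) ι₀) (fun _ => 1), if_pos (mem_univ _)]

theorem eta_le (hs : Sym θ) (hM : Inside θ M) (h : Roots a θ) (hinj : Function.Injective θ)
    (π : Equiv.Perm (Fin n)) : eta hs M π ≤ n.factorial := by
  rw [← eta_mean h hinj hs hM]
  exact Finset.single_le_sum (f := fun π => eta hs M π) (fun _ _ => Nat.zero_le _) (mem_univ π)

end

/-- the roots are different modulo the primes above `v` -/
theorem roots_mod (h : Roots a θ) {v : HeightOneSpectrum (𝓞 K)} {p : ℕ} [Fact p.Prime]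
    (φ : 𝓞 K →+* ZMod p) (hφ : RingHom.ker φ = v.asIdeal)
    (hsep : (mp (fun i => φ (a i))).Separable) (Q : Ideal (𝓞 (AlgebraicClosure K)))
    (hQm : Q.IsMaximal)
    (hQv : Q.comap (algebraMap (𝓞 K) (𝓞 (AlgebraicClosure K))) = v.asIdeal) :
    ∃ ι : ZMod p →+* (𝓞 (AlgebraicClosure K) ⧸ Q),
      (mp (fun i => φ (a i))).map ι = ∏ i, (X - C (Ideal.Quotient.mk Q (θ i))) ∧
      Function.Injective fun i => Ideal.Quotient.mk Q (θ i) := by
  classical
  let _ : Field (𝓞 (AlgebraicClosure K) ⧸ Q) := Ideal.Quotient.field Q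
  have hpv : (p : 𝓞 K) ∈ v.asIdeal := by
    rw [← hφ, RingHom.mem_ker, map_natCast]
    exact ZMod.natCast_self _
  have hpQ : (p : 𝓞 (AlgebraicClosure K)) ∈ Q := by
    rw [← hQv, Ideal.mem_comap, map_natCast] at hpv
    exact hpv
  have hpk : ((p : ℕ) : 𝓞 (AlgebraicClosure K) ⧸ Q) = 0 := by
    have := Ideal.Quotient.eq_zero_iff_mem.2 hpQ
    simpa using this
  have hchar : CharP (𝓞 (AlgebraicClosure K) ⧸ Q) p := by
    obtain ⟨c, hc⟩ := CharP.exists (𝓞 (AlgebraicClosure K) ⧸ Q)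
    have h1 : c ∣ p := (CharP.cast_eq_zero_iff (𝓞 (AlgebraicClosure K) ⧸ Q) c p).1 hpk
    rcases (Nat.dvd_prime (Fact.out : p.Prime)).1 h1 with h2 | h2
    · subst h2
      exact absurd rfl (CharP.char_ne_one (𝓞 (AlgebraicClosure K) ⧸ Q) 1)
    · rwa [h2] at hc
  set ι : ZMod p →+* (𝓞 (AlgebraicClosure K) ⧸ Q) :=
    ZMod.castHom (m := p) dvd_rfl (𝓞 (AlgebraicClosure K) ⧸ Q) with hι
  have hK : ι.comp φ = (Ideal.Quotient.mk Q).comp (algebraMap (𝓞 K) (𝓞 (AlgebraicClosure K))) := by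
    refine RingHom.ext fun x => ?_
    obtain ⟨m, hm⟩ := ZMod.intCast_surjective (φ x)
    have h1 : x - (m : 𝓞 K) ∈ v.asIdeal := by
      rw [← hφ, RingHom.mem_ker, map_sub, map_intCast, hm, sub_self]
    rw [← hQv, Ideal.mem_comap] at h1
    rw [RingHom.comp_apply, RingHom.comp_apply, ← hm, map_intCast, ← map_intCast (Ideal.Quotient.mk Q),
      eq_comm, Ideal.Quotient.mk_eq_mk_iff_sub_mem]
    rwa [map_sub, map_intCast] at h1
  have h1 : (mp (fun i => φ (a i))).map ι = ∏ i, (X - C (Ideal.Quotient.mk Q (θ i))) := by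
    rw [← mp_map, Polynomial.map_map, hK, ← Polynomial.map_map]
    unfold Roots at h
    rw [h, Polynomial.map_prod]
    refine Finset.prod_congr rfl fun i _ => ?_
    rw [Polynomial.map_sub, map_X, map_C]
  refine ⟨ι, h1, ?_⟩
  rw [← separable_prod_X_sub_C_iff, ← h1]
  exact hsep.map

/-- **The Frobenius elements at a prime modulo which the polynomial is separable.** -/
theorem frob_data (h : Roots a θ) (hinj : Function.Injective θ) {v : HeightOneSpectrum (𝓞 K)} {p : ℕ}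
    [Fact p.Prime] (φ : 𝓞 K →+* ZMod p) (hφ : RingHom.ker φ = v.asIdeal)
    (hsep : (mp (fun i => φ (a i))).Separable) (hs : Sym θ) :
    ∃ π : Equiv.Perm (Fin n), (∀ (r : ℕ) (lam : Fin r → ℕ), ∑ b, lam b = n →
      G lam (fun i => φ (a i)) = Z lam π) ∧
      ∀ (M : Type) [Field M] [NumberField M] [Algebra K M], Inside θ M →
        Nat.card {ψ : 𝓞 M →+* ZMod p // ψ.comp (algebraMap (𝓞 K) (𝓞 M)) = φ} = eta hs M π := by
  obtain ⟨σ, hσ⟩ := Pool.Agent.W401.Frob.exists_frob v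
  obtain ⟨Q, hQm, hQv, hQ⟩ := id hσ
  obtain ⟨π, hπ⟩ := h.perm hinj σ
  refine ⟨π, fun r lam hl => ?_, fun M _ _ _ hM => ?_⟩
  · obtain ⟨ι, h1, h2⟩ := roots_mod h φ hφ hsep Q hQm hQv
    let _ : Field (𝓞 (AlgebraicClosure K) ⧸ Q) := Ideal.Quotient.field Q
    refine G_eq_Z ι (fun i => φ (a i)) (fun i => Ideal.Quotient.mk Q (θ i)) h2 h1 π (fun i => ?_) lam hl
    have h3 := hQ (θ i)
    rw [absNorm_ker φ hφ, hπ] at h3
    have h4 := (Ideal.Quotient.mk_eq_mk_iff_sub_mem _ _).2 h3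
    rw [h4, map_pow]
  · rw [← eta_eq hs hM σ π hπ]
    refine (card_ext' v (fun Q hQm hQv i j hij => ?_) σ hσ φ hφ).symm
    refine sep h hinj hM Q hQm.isPrime (fun i j hij => ?_) i j hij
    obtain ⟨ι, h1, h2⟩ := roots_mod h φ hφ hsep Q hQm hQv
    exact h2 ((Ideal.Quotient.mk_eq_mk_iff_sub_mem _ _).2 hij)

end

end Pool.Agent.H40SY
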