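import Pool.Agent.N842.HS.Prm
import Pool.Agent.H40SY.Gal2

/-! Sums over the primes of degree one. -/

set_option autoImplicit false

namespace Pool.Agent.H40SY

open NumberField IsDedekindDomain Finset
open Pool.Agent.N842.HS (hv absNorm_hv hv_inj hv_surj VT mem_VT hom_finite card_high prime_above)

section
variable {K : Type} [Field K] [NumberField K]

/-- the primes up to `T` -/
def PP (T : ℕ) : Finset ℕ := (range (T + 1)).filter Nat.Prime

theorem mem_PP {T p : ℕ} : p ∈ PP T ↔ p ≤ T ∧ p.Prime := by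
  unfold PP
  rw [mem_filter, mem_range, Nat.lt_succ_iff]

open Classical in
/-- the sum over the homomorphisms to the field with `p` elements -/
noncomputable def SP (f : ∀ (p : ℕ) [Fact p.Prime], (𝓞 K →+* ZMod p) → ℝ) (p : ℕ) : ℝ :=
  if h : p.Prime then
    haveI : Fact p.Prime := ⟨h⟩
    ∑ᶠ φ : 𝓞 K →+* ZMod p, f p φ
  else 0

/-- the sum over the primes of degree one -/
noncomputable def SS (T : ℕ) (f : ∀ (p : ℕ) [Fact p.Prime], (𝓞 K →+* ZMod p) → ℝ) : ℝ :=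
  ∑ p ∈ PP T, SP f p

theorem SP_eq (f : ∀ (p : ℕ) [Fact p.Prime], (𝓞 K →+* ZMod p) → ℝ) (p : ℕ) [hp : Fact p.Prime]
    [Fintype (𝓞 K →+* ZMod p)] : SP f p = ∑ φ : 𝓞 K →+* ZMod p, f p φ := by
  unfold SP
  rw [dif_pos hp.out, finsum_eq_sum_of_fintype]

theorem SS_congr (T : ℕ) {f g : ∀ (p : ℕ) [Fact p.Prime], (𝓞 K →+* ZMod p) → ℝ}
    (h : ∀ (p : ℕ) [Fact p.Prime] (φ : 𝓞 K →+* ZMod p), p ≤ T → f p φ = g p φ) : SS T f = SS T g := by
  unfold SS
  refine sum_congr rfl fun p hp => ?_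
  have : Fact p.Prime := ⟨(mem_PP.1 hp).2⟩
  have : Finite (𝓞 K →+* ZMod p) := hom_finite (𝓞 K) p
  let _ : Fintype (𝓞 K →+* ZMod p) := Fintype.ofFinite _
  rw [SP_eq, SP_eq]
  exact sum_congr rfl fun φ _ => h p φ (mem_PP.1 hp).1

theorem SS_add (T : ℕ) (f g : ∀ (p : ℕ) [Fact p.Prime], (𝓞 K →+* ZMod p) → ℝ) :
    SS T (fun p _ φ => f p φ + g p φ) = SS T f + SS T g := by
  unfold SS
  rw [← sum_add_distrib]
  refine sum_congr rfl fun p hp => ?_
  have : Fact p.Prime := ⟨(mem_PP.1 hp).2⟩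
  have : Finite (𝓞 K →+* ZMod p) := hom_finite (𝓞 K) p
  let _ : Fintype (𝓞 K →+* ZMod p) := Fintype.ofFinite _
  rw [SP_eq, SP_eq, SP_eq, ← sum_add_distrib]

theorem SS_smul (T : ℕ) (c : ℝ) (f : ∀ (p : ℕ) [Fact p.Prime], (𝓞 K →+* ZMod p) → ℝ) :
    SS T (fun p _ φ => c * f p φ) = c * SS T f := by
  unfold SS
  rw [mul_sum]
  refine sum_congr rfl fun p hp => ?_
  have : Fact p.Prime := ⟨(mem_PP.1 hp).2⟩
  have : Finite (𝓞 K →+* ZMod p) := hom_finite (𝓞 K) p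
  let _ : Fintype (𝓞 K →+* ZMod p) := Fintype.ofFinite _
  rw [SP_eq, SP_eq, mul_sum]

theorem SS_sum (T : ℕ) {ι : Type} (s : Finset ι)
    (f : ι → ∀ (p : ℕ) [Fact p.Prime], (𝓞 K →+* ZMod p) → ℝ) :
    SS T (fun p _ φ => ∑ c ∈ s, f c p φ) = ∑ c ∈ s, SS T (f c) := by
  unfold SS
  rw [sum_comm]
  refine sum_congr rfl fun p hp => ?_
  have : Fact p.Prime := ⟨(mem_PP.1 hp).2⟩
  have : Finite (𝓞 K →+* ZMod p) := hom_finite (𝓞 K) p
  let _ : Fintype (𝓞 K →+* ZMod p) := Fintype.ofFinite _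
  rw [SP_eq, sum_comm]
  refine sum_congr rfl fun c _ => ?_
  rw [SP_eq]

theorem SS_mono (T : ℕ) {f g : ∀ (p : ℕ) [Fact p.Prime], (𝓞 K →+* ZMod p) → ℝ}
    (h : ∀ (p : ℕ) [Fact p.Prime] (φ : 𝓞 K →+* ZMod p), p ≤ T → f p φ ≤ g p φ) : SS T f ≤ SS T g := by
  unfold SS
  refine sum_le_sum fun p hp => ?_
  have : Fact p.Prime := ⟨(mem_PP.1 hp).2⟩
  have : Finite (𝓞 K →+* ZMod p) := hom_finite (𝓞 K) p
  let _ : Fintype (𝓞 K →+* ZMod p) := Fintype.ofFinite _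
  rw [SP_eq, SP_eq]
  exact sum_le_sum fun φ _ => h p φ (mem_PP.1 hp).1

theorem SS_abs (T : ℕ) {f g : ∀ (p : ℕ) [Fact p.Prime], (𝓞 K →+* ZMod p) → ℝ}
    (h : ∀ (p : ℕ) [Fact p.Prime] (φ : 𝓞 K →+* ZMod p), p ≤ T → |f p φ| ≤ g p φ) :
    |SS T f| ≤ SS T g := by
  rw [abs_le]
  constructor
  · have h1 := SS_mono (K := K) T (f := fun p _ φ => (-1) * g p φ) (g := f) (fun p _ φ hp => by
      have := (abs_le.1 (h p φ hp)).1
      linarith)
    rw [SS_smul] at h1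
    linarith
  · exact SS_mono T fun p _ φ hp => (abs_le.1 (h p φ hp)).2

/-- the primes of prime norm -/
theorem sum_VT (T : ℕ) (F : HeightOneSpectrum (𝓞 K) → ℝ) :
    ∑ v ∈ (VT K T).filter (fun v => (Ideal.absNorm v.asIdeal).Prime), F v =
      SS T (fun p _ φ => F (hv φ)) := by
  classical
  unfold SS
  rw [← Finset.sum_fiberwise_of_maps_to (s := (VT K T).filter (fun v => (Ideal.absNorm v.asIdeal).Prime))
    (t := PP T) (g := fun v => Ideal.absNorm v.asIdeal) (fun v hv' => by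
      rw [mem_filter, mem_VT] at hv'
      exact mem_PP.2 hv')]
  refine sum_congr rfl fun p hp => ?_
  have : Fact p.Prime := ⟨(mem_PP.1 hp).2⟩
  have : Finite (𝓞 K →+* ZMod p) := hom_finite (𝓞 K) p
  let _ : Fintype (𝓞 K →+* ZMod p) := Fintype.ofFinite _
  rw [SP_eq]
  symm
  refine sum_bij (fun φ _ => hv φ) ?_ ?_ ?_ ?_
  · intro φ _
    rw [mem_filter, mem_filter, mem_VT, absNorm_hv]
    exact ⟨mem_PP.1 hp, rfl⟩
  · intro φ _ ψ _ h
    exact hv_inj φ ψ h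
  · intro v hv'
    rw [mem_filter] at hv'
    obtain ⟨φ, hφ⟩ := hv_surj v p hv'.2
    exact ⟨φ, mem_univ _, hφ⟩
  · intro φ _
    rfl

/-- the rest -/
theorem sum_rest (T : ℕ) (F : HeightOneSpectrum (𝓞 K) → ℝ) (N : ℝ) (hN : 0 ≤ N)
    (hF : ∀ v, |F v| ≤ N) :
    |∑ v ∈ (VT K T).filter (fun v => ¬ (Ideal.absNorm v.asIdeal).Prime),
      F v * Real.log (Ideal.absNorm v.asIdeal)| ≤
      N * (Module.finrank ℚ K * (Real.sqrt T * Real.log T)) := by
  classical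
  refine (abs_sum_le_sum_abs _ _).trans ?_
  refine (sum_le_sum (g := fun _ => N * Real.log T) fun v hv' => ?_).trans ?_
  · rw [mem_filter, mem_VT] at hv'
    have h0 : (0 : ℝ) < Ideal.absNorm v.asIdeal := by
      have := Pool.Agent.W540.BE.two_le_nm v
      have h : (2 : ℕ) ≤ Ideal.absNorm v.asIdeal := this
      exact_mod_cast (by omega : 0 < Ideal.absNorm v.asIdeal)
    have h1 : (1 : ℝ) ≤ Ideal.absNorm v.asIdeal := by
      have := Pool.Agent.W540.BE.two_le_nm v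
      have h : (2 : ℕ) ≤ Ideal.absNorm v.asIdeal := this
      exact_mod_cast (by omega : 1 ≤ Ideal.absNorm v.asIdeal)
    have hlog : 0 ≤ Real.log (Ideal.absNorm v.asIdeal) := Real.log_nonneg h1
    rw [abs_mul, abs_of_nonneg hlog]
    refine mul_le_mul (hF v) ?_ hlog hN
    exact Real.log_le_log h0 (by exact_mod_cast hv'.1)
  · rw [sum_const, nsmul_eq_mul]
    have h1 := card_high K T
    have h2 : (((VT K T).filter (fun v => ¬ (Ideal.absNorm v.asIdeal).Prime)).card : ℝ) ≤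
        Module.finrank ℚ K * Real.sqrt T := by
      have h3 : (((VT K T).filter (fun v => ¬ (Ideal.absNorm v.asIdeal).Prime)).card : ℝ) ≤
          (Module.finrank ℤ (𝓞 K) : ℝ) * (Nat.sqrt T : ℝ) := by exact_mod_cast h1
      refine h3.trans ?_
      rw [RingOfIntegers.rank]
      exact mul_le_mul_of_nonneg_left (Real.nat_sqrt_le_real_sqrt) (Nat.cast_nonneg _)
    have hlogT : 0 ≤ Real.log T := Real.log_natCast_nonneg T
    calc _ ≤ (Module.finrank ℚ K * Real.sqrt T) * (N * Real.log T) :=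
          mul_le_mul_of_nonneg_right h2 (by positivity)
      _ = _ := by ring

end

section
variable {K : Type} [Field K] [NumberField K] {M : Type} [Field M] [NumberField M] [Algebra K M]

/-- **From `M` to `K`.** -/
theorem SS_push (T : ℕ) (f : ∀ (p : ℕ) [Fact p.Prime], (𝓞 K →+* ZMod p) → ℝ) :
    SS (K := M) T (fun p _ ψ => f p (ψ.comp (algebraMap (𝓞 K) (𝓞 M)))) =
      SS (K := K) T (fun p _ φ => (Nat.card {ψ : 𝓞 M →+* ZMod p //
        ψ.comp (algebraMap (𝓞 K) (𝓞 M)) = φ} : ℝ) * f p φ) := by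
  classical
  unfold SS
  refine sum_congr rfl fun p hp => ?_
  have : Fact p.Prime := ⟨(mem_PP.1 hp).2⟩
  have : Finite (𝓞 K →+* ZMod p) := hom_finite (𝓞 K) p
  let _ : Fintype (𝓞 K →+* ZMod p) := Fintype.ofFinite _
  have : Finite (𝓞 M →+* ZMod p) := hom_finite (𝓞 M) p
  let _ : Fintype (𝓞 M →+* ZMod p) := Fintype.ofFinite _
  rw [SP_eq, SP_eq, ← Finset.sum_fiberwise_of_maps_to (s := (univ : Finset (𝓞 M →+* ZMod p)))
    (t := (univ : Finset (𝓞 K →+* ZMod p))) (g := fun ψ => ψ.comp (algebraMap (𝓞 K) (𝓞 M)))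
    (fun ψ _ => mem_univ _)]
  refine sum_congr rfl fun φ _ => ?_
  rw [sum_congr rfl (g := fun _ => f p φ) (fun ψ hψ => by rw [(mem_filter.1 hψ).2]), sum_const,
    nsmul_eq_mul, Nat.card_eq_fintype_card, Fintype.card_subtype]

/-- the number of the extensions is bounded by the degree -/
theorem card_ext_le (p : ℕ) [hp : Fact p.Prime] (φ : 𝓞 K →+* ZMod p) :
    Nat.card {ψ : 𝓞 M →+* ZMod p // ψ.comp (algebraMap (𝓞 K) (𝓞 M)) = φ} ≤ Module.finrank ℚ M := by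
  classical
  have : Finite (𝓞 M →+* ZMod p) := hom_finite (𝓞 M) p
  let _ : Fintype (𝓞 M →+* ZMod p) := Fintype.ofFinite _
  have h1 : Nat.card {ψ : 𝓞 M →+* ZMod p // ψ.comp (algebraMap (𝓞 K) (𝓞 M)) = φ} ≤
      Nat.card (𝓞 M →+* ZMod p) :=
    Nat.card_le_card_of_injective Subtype.val Subtype.val_injective
  refine h1.trans ?_
  have h2 := prime_above M p hp.out ((univ : Finset (𝓞 M →+* ZMod p)).image fun ψ => hv ψ) (fun v hv' => by
    obtain ⟨ψ, _, rfl⟩ := mem_image.1 hv'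
    show (p : 𝓞 M) ∈ RingHom.ker ψ
    rw [RingHom.mem_ker, map_natCast, ZMod.natCast_self])
  rw [card_image_of_injective _ (fun ψ ψ' h => hv_inj ψ ψ' h), card_univ] at h2
  rw [Nat.card_eq_fintype_card, ← RingOfIntegers.rank]
  exact h2

end

end Pool.Agent.H40SY
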