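import Pool.Agent.W353.SP.NMain
import Pool.Agent.H40SY.Det

/-! The Tauberian averages over `K` and over a field inside the splitting field. -/

set_option autoImplicit false

namespace Pool.Agent.H40SY

open NumberField IsDedekindDomain Finset
open Pool.Agent.N842.HS (hv absNorm_hv hv_inj hv_surj VT mem_VT hom_finite)
open Pool.Agent.W353.SP (IsTrace average trace_tF)
open Pool.Agent.W353.PV (tF Eig Eig_ker)
open Pool.Agent.H921R2.TatePole (kerPrime)

section
variable {K : Type} [Field K] [NumberField K] {l : ℕ} {X : Set (MvPolynomial (Fin l) (𝓞 K))} {d m N : ℕ}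

/-- the normalised trace, outside `R` -/
noncomputable def tn {F : Type} [Field F] [NumberField F] (m : ℕ) (R : Finset (HeightOneSpectrum (𝓞 F)))
    (b : HeightOneSpectrum (𝓞 F) → ℂ) (v : HeightOneSpectrum (𝓞 F)) : ℝ :=
  open Classical in if v ∈ R then 0 else (b v).re / (Ideal.absNorm v.asIdeal : ℝ) ^ m

theorem tn_eq (hmd : m ≤ d) {F : Type} [Field F] [NumberField F] [Algebra K F]
    {R : Finset (HeightOneSpectrum (𝓞 F))} {b : HeightOneSpectrum (𝓞 F) → ℂ}
    (hb : IsTrace X d (2 * m) N R b) (v : HeightOneSpectrum (𝓞 F)) (hv' : v ∉ R) :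
    tn m R b v = tF X d (2 * m) N F v := by
  obtain ⟨α, hα, hbv⟩ := hb v hv'
  have hα' : Eig X d (2 * m) v α := hα
  have hq : (1 : ℝ) < (Ideal.absNorm v.asIdeal : ℝ) := Pool.Agent.W353.PV.one_lt_norm v
  have hq0 : (0 : ℝ) < (Ideal.absNorm v.asIdeal : ℝ) ^ m := by positivity
  unfold tn
  rw [if_neg hv', hbv, trace_tF (by omega) hα', Complex.ofReal_re, mul_div_cancel_left₀ _ hq0.ne']

theorem tn_abs (hmd : m ≤ d) {F : Type} [Field F] [NumberField F] [Algebra K F]
    {R : Finset (HeightOneSpectrum (𝓞 F))} {b : HeightOneSpectrum (𝓞 F) → ℂ}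
    (hb : IsTrace X d (2 * m) N R b) (v : HeightOneSpectrum (𝓞 F)) : |tn m R b v| ≤ N := by
  by_cases hv' : v ∈ R
  · unfold tn
    rw [if_pos hv', abs_zero]
    exact Nat.cast_nonneg _
  · rw [tn_eq hmd hb v hv']
    exact Pool.Agent.W353.L1.abs_tr_le _ _ _

/-- the average as a sum over the primes of degree one and a rest -/
theorem average_close {F : Type} [Field F] [NumberField F] {R : Finset (HeightOneSpectrum (𝓞 F))}
    {b : HeightOneSpectrum (𝓞 F) → ℂ} {B : ℝ} (hB : 0 ≤ B) (hb : ∀ v, |tn m R b v| ≤ B) (T : ℕ) (hT : 1 ≤ T) :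
    |(T : ℝ) * average m R b T - SS T (fun p _ φ => tn m R b (hv φ) * Real.log p)| ≤
      B * (Module.finrank ℚ F * (Real.sqrt T * Real.log T)) := by
  classical
  have hT0 : (T : ℝ) ≠ 0 := by exact_mod_cast (by omega : T ≠ 0)
  have h1 : (T : ℝ) * average m R b T = ∑ v ∈ VT F T, tn m R b v * Real.log (Ideal.absNorm v.asIdeal) := by
    unfold average
    rw [mul_inv_cancel_left₀ hT0]
    have h2 : {v : HeightOneSpectrum (𝓞 F) | v ∉ R ∧ Ideal.absNorm v.asIdeal ≤ T} =
        (((VT F T).filter (fun v => v ∉ R) : Finset (HeightOneSpectrum (𝓞 F))) :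
          Set (HeightOneSpectrum (𝓞 F))) := by
      ext v
      rw [mem_coe, mem_filter, mem_VT]
      exact and_comm
    rw [h2, finsum_mem_coe_finset, sum_filter]
    refine sum_congr rfl fun v _ => ?_
    unfold tn
    by_cases h : v ∈ R
    · rw [if_neg (not_not.2 h), if_pos h, zero_mul]
    · rw [if_pos h, if_neg h]
      ring
  rw [h1, ← Finset.sum_filter_add_sum_filter_not (VT F T) (fun v => (Ideal.absNorm v.asIdeal).Prime)
    (fun v => tn m R b v * Real.log (Ideal.absNorm v.asIdeal)),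
    sum_VT T (fun v => tn m R b v * Real.log (Ideal.absNorm v.asIdeal))]
  have h3 : SS T (fun p _ φ => tn m R b (hv φ) * Real.log (Ideal.absNorm (hv φ).asIdeal)) =
      SS T (fun p _ φ => tn m R b (hv φ) * Real.log p) :=
    SS_congr T fun p _ φ _ => by rw [absNorm_hv]
  rw [h3, add_sub_cancel_left]
  exact sum_rest T (tn m R b) B hB hb

/-- the traces of the base change -/
theorem tn_base (hmd : m ≤ d) {M : Type} [Field M] [NumberField M] [Algebra K M]
    {R : Finset (HeightOneSpectrum (𝓞 K))} {b : HeightOneSpectrum (𝓞 K) → ℂ}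
    (hb : IsTrace X d (2 * m) N R b) {R' : Finset (HeightOneSpectrum (𝓞 M))}
    {b' : HeightOneSpectrum (𝓞 M) → ℂ} (hb' : IsTrace X d (2 * m) N R' b')
    (hR : ∀ w, w ∈ R' ↔ ∃ v ∈ R, w.asIdeal.comap (algebraMap (𝓞 K) (𝓞 M)) = v.asIdeal)
    (p : ℕ) [hp : Fact p.Prime] (ψ : 𝓞 M →+* ZMod p) :
    tn m R' b' (hv ψ) = tn m R b (hv (ψ.comp (algebraMap (𝓞 K) (𝓞 M)))) := by
  classical
  set φ : 𝓞 K →+* ZMod p := ψ.comp (algebraMap (𝓞 K) (𝓞 M)) with hφ
  have hmem : hv ψ ∈ R' ↔ hv φ ∈ R := by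
    rw [hR]
    have h1 : (hv ψ).asIdeal.comap (algebraMap (𝓞 K) (𝓞 M)) = (hv φ).asIdeal := by
      rw [Pool.Agent.N842.HS.hv_asIdeal, Pool.Agent.N842.HS.hv_asIdeal, hφ, RingHom.comap_ker]
    constructor
    · rintro ⟨v, hvR, hv'⟩
      rw [h1] at hv'
      rwa [HeightOneSpectrum.ext hv']
    · intro h
      exact ⟨hv φ, h, h1⟩
  by_cases h : hv φ ∈ R
  · have h' : hv ψ ∈ R' := hmem.2 h
    unfold tn
    rw [if_pos h, if_pos h']
  · have h' : hv ψ ∉ R' := fun h2 => h (hmem.1 h2)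
    obtain ⟨α, hα, hbv⟩ := hb _ h
    obtain ⟨α', hα', hbv'⟩ := hb' _ h'
    have e1 : (kerPrime ⟨p, hp.out⟩ ψ).1.1 = hv ψ := HeightOneSpectrum.ext rfl
    have e2 : (kerPrime ⟨p, hp.out⟩ φ).1.1 = hv φ := HeightOneSpectrum.ext rfl
    have h1 : Eig X d (2 * m) (hv ψ) α := by
      rw [← e1, Eig_ker ⟨p, hp.out⟩ ψ α]
      rw [← e2] at hα
      exact hα
    have h2 := congrArg Multiset.sum (h1.unique' (by omega) (show Eig X d (2 * m) (hv ψ) α' from hα'))
    have h3 : b (hv φ) = b' (hv ψ) := by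
      rw [hbv, hbv']
      exact h2
    unfold tn
    rw [if_neg h, if_neg h', h3, absNorm_hv, absNorm_hv]

end

end Pool.Agent.H40SY
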