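import Pool.Agent.H40SY.Defs

/-! Boxes are well distributed. -/

set_option autoImplicit false

namespace Pool.Agent.H40SY

open Finset

/-- the number of the integers in a residue class -/
theorem card_class (a r : ℤ) (L q : ℕ) (hq : 0 < q) :
    |(((Finset.Ico a (a + L)).filter fun x => (q : ℤ) ∣ x - r).card : ℝ) - (L : ℝ) / q| ≤ 1 := by
  have hq' : (0 : ℝ) < q := by exact_mod_cast hq
  have h1 : ((Finset.Ico a (a + L)).filter fun x => (q : ℤ) ∣ x - r) =
      (Finset.Ico a (a + L)).filter fun x => x ≡ r [ZMOD (q : ℤ)] := by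
    refine filter_congr fun x _ => ?_
    rw [Int.modEq_comm, Int.modEq_iff_dvd]
  rw [h1]
  have h2 := Int.Ico_filter_modEq_card a (a + L) (r := (q : ℤ)) (by exact_mod_cast hq) r
  have h3 : (((Finset.Ico a (a + L)).filter fun x => x ≡ r [ZMOD (q : ℤ)]).card : ℤ) =
      max (⌈((a + L : ℤ) - r : ℚ) / (q : ℤ)⌉ - ⌈((a : ℤ) - r : ℚ) / (q : ℤ)⌉) 0 := by
    exact_mod_cast h2
  set u : ℤ := ⌈((a + L : ℤ) - r : ℚ) / (q : ℤ)⌉ with hu
  set w : ℤ := ⌈((a : ℤ) - r : ℚ) / (q : ℤ)⌉ with hw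
  have hqq : (0 : ℚ) < ((q : ℤ) : ℚ) := by exact_mod_cast hq
  have hmono : w ≤ u := by
    rw [hu, hw]
    apply Int.ceil_mono
    apply div_le_div_of_nonneg_right _ hqq.le
    push_cast
    have : (0 : ℚ) ≤ (L : ℚ) := Nat.cast_nonneg L
    linarith
  rw [max_eq_left (by omega)] at h3
  have h4 : (((Finset.Ico a (a + L)).filter fun x => x ≡ r [ZMOD (q : ℤ)]).card : ℝ) = (u : ℝ) - w := by
    have : ((((Finset.Ico a (a + L)).filter fun x => x ≡ r [ZMOD (q : ℤ)]).card : ℤ) : ℝ) = ((u - w : ℤ) : ℝ) := by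
      rw [h3]
    push_cast at this
    exact_mod_cast this
  rw [h4]
  have e1 := Int.ceil_lt_add_one (((a + L : ℤ) - r : ℚ) / (q : ℤ))
  have e2 := Int.le_ceil (((a + L : ℤ) - r : ℚ) / (q : ℤ))
  have e3 := Int.ceil_lt_add_one (((a : ℤ) - r : ℚ) / (q : ℤ))
  have e4 := Int.le_ceil (((a : ℤ) - r : ℚ) / (q : ℤ))
  rw [← hu] at e1 e2
  rw [← hw] at e3 e4
  have h5 : ((a + L : ℤ) - r : ℚ) / (q : ℤ) = ((a : ℤ) - r : ℚ) / (q : ℤ) + (L : ℚ) / q := by
    push_cast
    ring
  rw [h5] at e1 e2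
  have f1 : ((u : ℚ) - w) - (L : ℚ) / q ≤ 1 := by linarith
  have f2 : -1 ≤ ((u : ℚ) - w) - (L : ℚ) / q := by linarith
  have hqr : (0 : ℚ) < q := by exact_mod_cast hq
  have f3 : ((u : ℚ) - w) * q ≤ q + L := by
    have := mul_le_mul_of_nonneg_right f1 hqr.le
    rw [sub_mul, div_mul_cancel₀ _ hqr.ne'] at this
    linarith
  have f4 : (L : ℚ) - q ≤ ((u : ℚ) - w) * q := by
    have := mul_le_mul_of_nonneg_right f2 hqr.le
    rw [sub_mul, div_mul_cancel₀ _ hqr.ne'] at this
    linarith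
  have f5 : (u - w) * (q : ℤ) ≤ q + L := by exact_mod_cast f3
  have f6 : (L : ℤ) - q ≤ (u - w) * (q : ℤ) := by exact_mod_cast f4
  have f7 : ((u : ℝ) - w) * q ≤ q + L := by exact_mod_cast f5
  have f8 : (L : ℝ) - q ≤ ((u : ℝ) - w) * q := by exact_mod_cast f6
  have g1 : ((u : ℝ) - w) - (L : ℝ) / q ≤ 1 := by
    have e : ((u : ℝ) - w) - (L : ℝ) / q = (((u : ℝ) - w) * q - L) / q := by
      field_simp
    rw [e, div_le_one hq']
    linarith
  have g2 : -1 ≤ ((u : ℝ) - w) - (L : ℝ) / q := by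
    have e : ((u : ℝ) - w) - (L : ℝ) / q = (((u : ℝ) - w) * q - L) / q := by
      field_simp
    rw [e, le_div_iff₀ hq']
    linarith
  exact abs_le.2 ⟨g2, g1⟩

theorem prod_near {ι : Type} [DecidableEq ι] (s : Finset ι) (f : ι → ℝ) (ε : ℝ) (hε : 0 ≤ ε)
    (hf : ∀ i ∈ s, |f i - 1| ≤ ε) : |∏ i ∈ s, f i - 1| ≤ (1 + ε) ^ s.card - 1 ∧
      |∏ i ∈ s, f i| ≤ (1 + ε) ^ s.card := by
  induction s using Finset.induction_on with
  | empty => simp
  | insert j s hj ih =>
    obtain ⟨h1, h2⟩ := ih fun i hi => hf i (mem_insert_of_mem hi)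
    have h3 := hf j (mem_insert_self j s)
    have h4 : |f j| ≤ 1 + ε := by
      have := abs_add_le (f j - 1) 1
      rw [sub_add_cancel, abs_one] at this
      linarith
    rw [prod_insert hj, card_insert_of_notMem hj, pow_succ]
    have hP : 0 ≤ (1 + ε) ^ s.card := by positivity
    constructor
    · have e1 : f j * ∏ i ∈ s, f i - 1 = (f j - 1) * ∏ i ∈ s, f i + (∏ i ∈ s, f i - 1) := by ring
      rw [e1]
      refine (abs_add_le _ _).trans ?_
      rw [abs_mul]
      have := mul_le_mul h3 h2 (abs_nonneg _) hε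
      nlinarith
    · rw [abs_mul]
      calc |f j| * |∏ i ∈ s, f i| ≤ (1 + ε) * (1 + ε) ^ s.card :=
            mul_le_mul h4 h2 (abs_nonneg _) (by linarith)
        _ = _ := by ring

theorem pow_near (D : ℕ) (ε : ℝ) (hε : 0 ≤ ε) (h : 2 * (D * ε) ≤ 1) : (1 + ε) ^ D - 1 ≤ 2 * (D * ε) := by
  have h1 : (1 + ε) ^ D ≤ Real.exp (D * ε) := by
    have := Real.add_one_le_exp ε
    calc (1 + ε) ^ D ≤ (Real.exp ε) ^ D := pow_le_pow_left₀ (by linarith) (by linarith) D
      _ = Real.exp (D * ε) := by rw [← Real.exp_nat_mul]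
  have hx : 0 ≤ D * ε := by positivity
  have h2 := Real.exp_bound_div_one_sub_of_interval hx (by linarith)
  have h3 : 1 / (1 - D * ε) ≤ 1 + 2 * (D * ε) := by
    rw [div_le_iff₀ (by linarith)]
    nlinarith
  linarith

section
variable {n g : ℕ}

theorem card_box_class (a r : Fin n → Fin g → ℤ) (L q : ℕ) :
    ((box a L).filter fun c => ∀ i j, (q : ℤ) ∣ c i j - r i j).card =
      ∏ i, ∏ j, ((Finset.Ico (a i j) (a i j + L)).filter fun x => (q : ℤ) ∣ x - r i j).card := by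
  classical
  have h1 : ((box a L).filter fun c => ∀ i j, (q : ℤ) ∣ c i j - r i j) =
      Fintype.piFinset fun i => Fintype.piFinset fun j =>
        (Finset.Ico (a i j) (a i j + L)).filter fun x => (q : ℤ) ∣ x - r i j := by
    ext c
    unfold box
    simp only [mem_filter, Fintype.mem_piFinset]
    constructor
    · rintro ⟨h1, h2⟩ i j
      exact ⟨h1 i j, h2 i j⟩
    · intro h
      exact ⟨fun i j => (h i j).1, fun i j => (h i j).2⟩
  rw [h1, Fintype.card_piFinset]
  refine prod_congr rfl fun i _ => ?_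
  rw [Fintype.card_piFinset]

theorem card_box (a : Fin n → Fin g → ℤ) (L : ℕ) : (box a L).card = L ^ (n * g) := by
  classical
  unfold box
  rw [Fintype.card_piFinset]
  have : ∀ i, (Fintype.piFinset fun j => Finset.Ico (a i j) (a i j + (L : ℤ))).card = L ^ g := by
    intro i
    rw [Fintype.card_piFinset, Finset.prod_congr rfl (g := fun _ => L)]
    · rw [prod_const, card_univ, Fintype.card_fin]
    · intro j _
      rw [Int.card_Ico]
      omega
  rw [Finset.prod_congr rfl (g := fun _ => L ^ g) fun i _ => this i, prod_const, card_univ,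
    Fintype.card_fin, ← pow_mul, mul_comm]

/-- **Boxes are well distributed.** -/
theorem wd_box (Q L : ℕ) (a : Fin n → Fin g → ℤ) (hL1 : 1 ≤ L) (hL : 2 * (n * g) * Q ^ 2 ≤ L) :
    WellDistributed Q (box a L) := by
  classical
  have hL0 : (0 : ℝ) < L := by exact_mod_cast hL1
  refine ⟨?_, fun q hq1 hqQ r => ?_⟩
  · rw [← Finset.card_pos, card_box]
    positivity
  have hq0 : (0 : ℝ) < q := by exact_mod_cast hq1
  have hQ0 : (0 : ℝ) < Q := by exact_mod_cast (by omega : 0 < Q)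
  obtain ⟨f, hf⟩ : ∃ f : Fin n × Fin g → ℝ, f = fun x =>
      (((Finset.Ico (a x.1 x.2) (a x.1 x.2 + (L : ℤ))).filter fun z => (q : ℤ) ∣ z - r x.1 x.2).card : ℝ) *
        (q / L) := ⟨_, rfl⟩
  have hf1 : ∀ x ∈ (univ : Finset (Fin n × Fin g)), |f x - 1| ≤ Q / L := by
    intro x _
    have h1 := card_class (a x.1 x.2) (r x.1 x.2) L q hq1
    have h2 : f x - 1 = ((((Finset.Ico (a x.1 x.2) (a x.1 x.2 + (L : ℤ))).filter
        fun z => (q : ℤ) ∣ z - r x.1 x.2).card : ℝ) - L / q) * (q / L) := by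
      rw [hf]
      field_simp
    rw [h2, abs_mul, abs_of_pos (div_pos hq0 hL0)]
    calc _ ≤ 1 * ((q : ℝ) / L) := mul_le_mul_of_nonneg_right h1 (by positivity)
      _ ≤ Q / L := by
          rw [one_mul]
          apply div_le_div_of_nonneg_right _ hL0.le
          exact_mod_cast hqQ
  have h1 := (prod_near univ f (Q / L) (by positivity) hf1).1
  rw [card_univ, Fintype.card_prod, Fintype.card_fin, Fintype.card_fin] at h1
  have hL' : 2 * ((n : ℝ) * g) * Q ^ 2 ≤ L := by exact_mod_cast hL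
  have h2 : 2 * (((n * g : ℕ) : ℝ) * (Q / L)) ≤ 1 / Q := by
    push_cast
    rw [le_div_iff₀ hQ0, ← sub_nonneg]
    have : 1 - 2 * ((n : ℝ) * g * (Q / L)) * Q = (L - 2 * (n * g) * Q ^ 2) / L := by
      field_simp
    rw [this]
    exact div_nonneg (by linarith) hL0.le
  have h3 := pow_near (n * g) (Q / L) (by positivity) (h2.trans (by
    rw [div_le_one hQ0]
    exact_mod_cast (by omega : 1 ≤ Q)))
  have h4 : ((((box a L).filter fun c => ∀ i j, (q : ℤ) ∣ c i j - r i j).card : ℕ) : ℝ) / (box a L).card -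
      1 / (q : ℝ) ^ (n * g) = (∏ x, f x - 1) * (1 / (q : ℝ) ^ (n * g)) := by
    rw [card_box_class, card_box, hf, prod_mul_distrib, prod_const, card_univ, Fintype.card_prod,
      Fintype.card_fin, Fintype.card_fin, ← Finset.univ_product_univ, Finset.prod_product]
    push_cast
    rw [div_pow]
    field_simp
  rw [h4, abs_mul, abs_of_pos (by positivity : (0 : ℝ) < 1 / (q : ℝ) ^ (n * g))]
  apply mul_le_mul_of_nonneg_right _ (by positivity)
  linarith

end

end Pool.Agent.H40SY
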