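import Pool.Agent.H40SY.Poly

/-! The factorizations of a separable polynomial over the field with `p` elements and the colourings of the
roots invariant under the Frobenius permutation. -/

set_option autoImplicit false

namespace Pool.Agent.H40SY

open Polynomial Finset

/-- number of the colourings invariant under `π` with given numbers of the elements of each colour -/
noncomputable def Z {r n : ℕ} (lam : Fin r → ℕ) (π : Equiv.Perm (Fin n)) : ℕ :=
  Nat.card {c : Fin n → Fin r // (∀ i, c (π i) = c i) ∧ ∀ a, (univ.filter fun i => c i = a).card = lam a}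

section
variable {p : ℕ} [hp : Fact p.Prime] {E : Type} [Field E] {r n : ℕ}

theorem sum_fib (c : Fin n → Fin r) : ∑ a, (univ.filter fun i => c i = a).card = n := by
  classical
  have h := Finset.card_eq_sum_card_fiberwise (f := c) (s := (univ : Finset (Fin n)))
    (t := (univ : Finset (Fin r))) (fun x _ => mem_univ _)
  rw [card_univ, Fintype.card_fin] at h
  exact h.symm

theorem prod_color (θ : Fin n → E) (c : Fin n → Fin r) :
    ∏ a, ∏ i ∈ univ.filter (fun i => c i = a), (X - C (θ i)) = ∏ i, (X - C (θ i)) := by
  classical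
  exact Finset.prod_fiberwise_of_maps_to (fun x _ => mem_univ _) _

/-- a polynomial over `E` fixed by Frobenius comes from the prime field -/
theorem lift_frob (ι : ZMod p →+* E) (h : E[X]) (hm : h.Monic) (hf : ∀ k, h.coeff k ^ p = h.coeff k)
    (k : ℕ) (hk : h.natDegree = k) : ∃ x : Fin k → ZMod p, (mp x).map ι = h := by
  classical
  have hchar : CharP E p := by
    have := charP_of_injective_ringHom ι.injective p
    exact this
  have hmem : ∀ x : E, x ^ p = x → ∃ y, ι y = x := by
    intro x hx
    have h1 := (Subfield.mem_bot_iff_pow_eq_self E p).2 hx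
    rw [← ZMod.fieldRange_castHom_eq_bot p] at h1
    obtain ⟨y, hy⟩ := h1
    refine ⟨y, ?_⟩
    rw [← hy]
    exact DFunLike.congr_fun (Subsingleton.elim ι (ZMod.castHom (dvd_refl p) E)) y
  choose f hf' using fun k => hmem _ (hf k)
  refine ⟨fun i => f i, ?_⟩
  rw [mp_map, eq_mp hm hk]
  congr 1
  funext i
  rw [hf']

/-- **Factorizations and colourings.** -/
theorem G_eq_Z (ι : ZMod p →+* E) (u : Fin n → ZMod p) (θ : Fin n → E) (hθ : Function.Injective θ)
    (hf : (mp u).map ι = ∏ i, (X - C (θ i))) (π : Equiv.Perm (Fin n)) (hπ : ∀ i, θ (π i) = θ i ^ p)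
    (lam : Fin r → ℕ) (hl : ∑ a, lam a = n) : G lam u = Z lam π := by
  classical
  have hchar : CharP E p := charP_of_injective_ringHom ι.injective p
  have hE : ExpChar E p := ExpChar.prime hp.out
  -- the polynomial of a colour
  set H : (Fin n → Fin r) → Fin r → E[X] := fun c a => ∏ i ∈ univ.filter (fun i => c i = a), (X - C (θ i))
    with hH
  have hHm : ∀ c a, (H c a).Monic := fun c a => monic_prod_of_monic _ _ fun i _ => monic_X_sub_C _
  have hHd : ∀ c a, (H c a).natDegree = (univ.filter fun i => c i = a).card := by
    intro c a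
    rw [hH]
    simp only
    rw [natDegree_prod_of_monic _ _ fun i _ => monic_X_sub_C _]
    simp
  have hHroot : ∀ c a i, (H c a).eval (θ i) = 0 ↔ c i = a := by
    intro c a i
    rw [hH]
    simp only
    rw [eval_prod, Finset.prod_eq_zero_iff]
    constructor
    · rintro ⟨j, hj, h⟩
      rw [eval_sub, eval_X, eval_C, sub_eq_zero] at h
      rw [hθ h]
      exact (mem_filter.1 hj).2
    · intro h
      exact ⟨i, mem_filter.2 ⟨mem_univ _, h⟩, by rw [eval_sub, eval_X, eval_C, sub_self]⟩
  -- every factorization is given by a colouring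
  have key : ∀ x : (a : Fin r) → Fin (lam a) → ZMod p, ∏ a, mp (x a) = mp u →
      ∃ c : Fin n → Fin r, (∀ a, (mp (x a)).map ι = H c a) := by
    intro x hx
    have h1 : ∏ a, (mp (x a)).map ι = ∏ i, (X - C (θ i)) := by
      rw [← Polynomial.map_prod, hx, hf]
    have h2 : ∀ i, ∃ a, ((mp (x a)).map ι).eval (θ i) = 0 := by
      intro i
      have h3 : (∏ a, (mp (x a)).map ι).eval (θ i) = 0 := by
        rw [h1, eval_prod]
        exact Finset.prod_eq_zero (mem_univ i) (by rw [eval_sub, eval_X, eval_C, sub_self])
      rw [eval_prod, Finset.prod_eq_zero_iff] at h3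
      obtain ⟨a, _, ha⟩ := h3
      exact ⟨a, ha⟩
    choose c hc using h2
    have hdvd : ∀ a, H c a ∣ (mp (x a)).map ι := by
      intro a
      rw [hH]
      refine Finset.prod_dvd_of_coprime ?_ ?_
      · intro i _ j _ hij
        exact pairwise_coprime_X_sub_C hθ hij
      · intro i hi
        rw [dvd_iff_isRoot]
        have := hc i
        rw [(mem_filter.1 hi).2] at this
        exact this
    have hle : ∀ a, (H c a).natDegree ≤ lam a := by
      intro a
      refine (natDegree_le_of_dvd (hdvd a) ((mp_monic _).map ι).ne_zero).trans ?_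
      rw [natDegree_map, mp_natDegree]
    have heq : ∀ a, (H c a).natDegree = lam a := by
      have h3 : ∑ a, (H c a).natDegree = ∑ a, lam a := by
        rw [hl, Finset.sum_congr rfl fun a _ => hHd c a, sum_fib]
      intro a
      exact (Finset.sum_eq_sum_iff_of_le fun a _ => hle a).1 h3 a (mem_univ a)
    refine ⟨c, fun a => ?_⟩
    refine eq_of_monic_of_dvd_of_natDegree_le (hHm c a) ((mp_monic _).map ι) (hdvd a) ?_
    rw [natDegree_map, mp_natDegree, heq]
  have hGc : ∀ x : {x : (a : Fin r) → Fin (lam a) → ZMod p // ∏ a, mp (x a) = mp u},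
      ∃ c : Fin n → Fin r, ∀ a, (mp (x.1 a)).map ι = H c a := fun x => key x.1 x.2
  choose c hc using hGc
  unfold G Z
  refine Nat.card_eq_of_bijective (fun x => ⟨c x, ?_, ?_⟩) ⟨?_, ?_⟩
  · intro i
    rw [← hHroot, hπ, ← hc]
    have h1 : ((mp (x.1 (c x i))).map ι).eval (θ i) = 0 := by
      rw [hc, hHroot]
    have h2 : ((mp (x.1 (c x i))).map ι).eval (θ i ^ p) = (((mp (x.1 (c x i))).map ι).eval (θ i)) ^ p := by
      rw [eval_map, eval_map, ← frobenius_def, ← frobenius_def, hom_eval₂,
        Subsingleton.elim ((frobenius E p).comp ι) ι]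
    rw [h2, h1, zero_pow hp.out.ne_zero]
  · intro a
    rw [← hHd, ← hc, natDegree_map, mp_natDegree]
  · intro x y h
    have h1 : c x = c y := congrArg Subtype.val h
    apply Subtype.ext
    funext a
    apply mp_injective
    apply Polynomial.map_injective _ ι.injective
    rw [hc, hc, h1]
  · rintro ⟨c', h1, h2⟩
    have h3 : ∀ a, ∃ x : Fin (lam a) → ZMod p, (mp x).map ι = H c' a := by
      intro a
      refine lift_frob ι (H c' a) (hHm c' a) ?_ (lam a) (by rw [hHd, h2])
      intro k
      have h4 : (H c' a).map (frobenius E p) = H c' a := by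
        rw [hH]
        simp only
        rw [Polynomial.map_prod]
        simp only [Polynomial.map_sub, map_X, map_C, frobenius_def]
        simp only [← hπ]
        refine Finset.prod_bij (fun i _ => π i) ?_ ?_ ?_ ?_
        · intro i hi
          rw [mem_filter] at hi ⊢
          exact ⟨mem_univ _, by rw [h1, hi.2]⟩
        · intro i _ j _ hij
          exact π.injective hij
        · intro j hj
          rw [mem_filter] at hj
          refine ⟨π.symm j, ?_, π.apply_symm_apply j⟩
          rw [mem_filter]
          refine ⟨mem_univ _, ?_⟩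
          rw [← h1 (π.symm j), π.apply_symm_apply]
          exact hj.2
        · intro i _
          rfl
      have h5 := congrArg (fun f => coeff f k) h4
      simp only [coeff_map, frobenius_def] at h5
      exact h5
    choose x hx using h3
    have h6 : ∏ a, mp (x a) = mp u := by
      apply Polynomial.map_injective _ ι.injective
      rw [Polynomial.map_prod, hf, Finset.prod_congr rfl fun a _ => hx a]
      exact prod_color θ c'
    refine ⟨⟨x, h6⟩, ?_⟩
    apply Subtype.ext
    funext i
    have h7 := hc ⟨x, h6⟩ (c' i)
    simp only at h7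
    rw [hx] at h7
    have h8 := (hHroot c' (c' i) i).2 rfl
    rw [h7, hHroot] at h8
    exact h8

end

end Pool.Agent.H40SY
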