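import Pool.Agent.W353.SP.NDefs

/-!
# Tauberian averages over all fields inside the splitting field of a polynomial: definitions

`K` is a number field and `ω_0, ..., ω_(g-1)` are elements of its ring of integers, for instance an
integral basis.  The vector `c` of integers `c_(i,j)`, `i < n`, `j < g`, gives the monic polynomial of
degree `n` with the coefficients `∑_j c_(i,j) ω_j`.
-/

set_option autoImplicit false

namespace Pool.Agent.H40SY

open Polynomial NumberField IsDedekindDomain
open Pool.Agent.W353.SP (IsTrace average)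

section
variable {K : Type} [Field K] [NumberField K] {n g : ℕ}

/-- The polynomial `x ^ n + ∑_(i < n) (∑_j c_(i,j) ω_j) x ^ i`. -/
noncomputable def poly (ω : Fin g → 𝓞 K) (c : Fin n → Fin g → ℤ) : (𝓞 K)[X] :=
  X ^ n + ∑ i : Fin n, C (∑ j, (c i j : 𝓞 K) * ω j) * X ^ (i : ℕ)

/-- The roots of `f` in the algebraic closure of `K`. -/
def rootsOf (f : (𝓞 K)[X]) : Set (AlgebraicClosure K) :=
  {x | aeval x (f.map (algebraMap (𝓞 K) K)) = 0}

/-- The Galois group of the polynomial `f` over `K` is the symmetric group: `f` has as many roots in the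
algebraic closure as its degree says, and every permutation of the roots is given by an automorphism of
the algebraic closure over `K`. -/
def IsSymmetric (f : (𝓞 K)[X]) : Prop :=
  Nat.card (rootsOf f) = f.natDegree ∧ ∀ π : Equiv.Perm (rootsOf f),
    ∃ σ : Gal(AlgebraicClosure K/K), ∀ x : rootsOf f, σ x = π x

/-- The splitting field of `f` over `K`. -/
noncomputable def splitting (f : (𝓞 K)[X]) : IntermediateField K (AlgebraicClosure K) :=
  IntermediateField.adjoin K (rootsOf f)

variable (K) in
/-- A projective variety over `K`, with the traces `b v` of the geometric Frobenius on `H^(2m)` at the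
primes `v` of `K` outside a finite set `R`. -/
structure VarietyData where
  /-- the number of the homogeneous coordinates -/
  l : ℕ
  /-- the homogeneous polynomials which define the variety -/
  X : Set (MvPolynomial (Fin l) (𝓞 K))
  /-- the dimension -/
  d : ℕ
  /-- the codimension of the cycles (divisors: `m = 1`) -/
  m : ℕ
  /-- the Betti number -/
  N : ℕ
  /-- a finite set of primes, which contains the primes of bad reduction -/
  R : Finset (HeightOneSpectrum (𝓞 K))
  /-- the traces -/
  b : HeightOneSpectrum (𝓞 K) → ℂ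
  le : m ≤ d
  trace : IsTrace X d (2 * m) N R b

/-- The Tauberian averages up to `T` for the variety over `K` and over the field `M` differ by at most
`N ε`, `N` the Betti number.  (`R'` is the set of the primes of `M` above those in `R`, and `b'` are the
traces of the geometric Frobenius for the base change to `M`.) -/
def Close (V : VarietyData K) (M : Type) [Field M] [NumberField M] [Algebra K M] (T : ℕ) (ε : ℝ) : Prop :=
  ∀ (R' : Finset (HeightOneSpectrum (𝓞 M))) (b' : HeightOneSpectrum (𝓞 M) → ℂ),
    (∀ w, w ∈ R' ↔ ∃ v ∈ V.R, w.asIdeal.comap (algebraMap (𝓞 K) (𝓞 M)) = v.asIdeal) →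
    IsTrace V.X V.d (2 * V.m) V.N R' b' →
    |average V.m R' b' T - average V.m V.R V.b T| ≤ V.N * ε

/-- (If `y ^ E ≤ Q`.)  The Galois group of the polynomial `f = poly ω c` over `K` is the symmetric group,
and for all `T ≥ y` with `T ^ E ≤ Q` and for the first `T ^ B` of the varieties `V j` the averages up to `T`
over `K` and over all fields `M` between `K` and the splitting field of `f` differ by at most
`N T ^ (-1/2 + δ)`. -/
def Invariant (ω : Fin g → 𝓞 K) (δ : ℝ) (B : ℕ) (V : ℕ → VarietyData K) (E Q y : ℕ)
    (c : Fin n → Fin g → ℤ) : Prop :=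
  y ^ E ≤ Q → IsSymmetric (poly ω c) ∧ ∀ T : ℕ, y ≤ T → T ^ E ≤ Q → ∀ j : ℕ, j < T ^ B →
    ∀ (M : IntermediateField K (AlgebraicClosure K)) [NumberField M], M ≤ splitting (poly ω c) →
      Close (V j) M T ((T : ℝ) ^ (-(1 / 2) + δ))

end

open Classical in
/-- The finite set `S` of integral vectors is well distributed modulo the numbers `q ≤ Q`: the
proportion of the vectors in `S` which are congruent to a given vector modulo `q` is `q ^ (-n g)`, up to
a factor between `1 - 1 / Q` and `1 + 1 / Q`. -/
def WellDistributed {n g : ℕ} (Q : ℕ) (S : Finset (Fin n → Fin g → ℤ)) : Prop :=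
  S.Nonempty ∧ ∀ q : ℕ, 1 ≤ q → q ≤ Q → ∀ r : Fin n → Fin g → ℤ,
    |((S.filter fun c => ∀ i j, (q : ℤ) ∣ c i j - r i j).card : ℝ) / S.card - 1 / (q : ℝ) ^ (n * g)| ≤
      1 / Q * (1 / (q : ℝ) ^ (n * g))

/-- The vectors `c` with `a_(i,j) ≤ c_(i,j) < a_(i,j) + L`. -/
noncomputable def box {n g : ℕ} (a : Fin n → Fin g → ℤ) (L : ℕ) : Finset (Fin n → Fin g → ℤ) :=
  Fintype.piFinset fun i => Fintype.piFinset fun j => Finset.Ico (a i j) (a i j + L)

end Pool.Agent.H40SY
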