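import Pool.Agent.H40SY.Det

/-! Sums of class functions of the Frobenius elements over the primes of degree one. -/

set_option autoImplicit false

namespace Pool.Agent.H40SY

open NumberField IsDedekindDomain Finset
open Pool.Agent.N842.HS (hv absNorm_hv hv_inj hv_surj VT mem_VT hom_finite)

/-- uniform bound for the coefficients of the bounded class functions with integral values -/
theorem coef_bound' (n M : ℕ) : ∃ C : ℝ, 0 ≤ C ∧ ∀ η : Equiv.Perm (Fin n) → ℕ, (∀ π, η π ≤ M) →
    (∀ π u, η (u * π * u⁻¹) = η π) → ∃ a : (Fin n → Fin n) → ℝ,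
      (∀ π, (η π : ℝ) = ∑ c, a c * (Z (sizes c) π : ℝ)) ∧ ∑ c, |a c| ≤ C := by
  classical
  have h : ∀ f : Equiv.Perm (Fin n) → Fin (M + 1), ∃ b : ℝ, 0 ≤ b ∧
      ((∀ π u, f (u * π * u⁻¹) = f π) → ∃ a : (Fin n → Fin n) → ℝ,
        (∀ π, ((f π : ℕ) : ℝ) = ∑ c, a c * (Z (sizes c) π : ℝ)) ∧ ∑ c, |a c| ≤ b) := by
    intro f
    by_cases hf : ∀ π u, f (u * π * u⁻¹) = f π
    · obtain ⟨a, ha⟩ := span_Z (fun π => ((f π : ℕ) : ℝ)) (fun π u => by rw [hf])
      exact ⟨∑ c, |a c|, sum_nonneg fun _ _ => abs_nonneg _, fun _ => ⟨a, ha, le_rfl⟩⟩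
    · exact ⟨0, le_rfl, fun h => absurd h hf⟩
  choose b hb0 hb using h
  refine ⟨∑ f, b f, sum_nonneg fun f _ => hb0 f, fun η hη hcl => ?_⟩
  let f : Equiv.Perm (Fin n) → Fin (M + 1) := fun π => ⟨η π, Nat.lt_succ_of_le (hη π)⟩
  obtain ⟨a, ha1, ha2⟩ := hb f (fun π u => Fin.ext (hcl π u))
  exact ⟨a, ha1, ha2.trans (single_le_sum (f := b) (fun f _ => hb0 f) (mem_univ f))⟩

section
variable {K : Type} [Field K] [NumberField K]

variable (K) in
/-- **Class functions.** -/
theorem det_gen (n M : ℕ) : ∃ C : ℝ, 0 ≤ C ∧ ∀ (a : Fin n → 𝓞 K) (η : Equiv.Perm (Fin n) → ℕ),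
    (∀ π, η π ≤ M) → (∀ π u, η (u * π * u⁻¹) = η π) →
    ∀ (g : ∀ (p : ℕ) [Fact p.Prime], (𝓞 K →+* ZMod p) → ℝ) (D : ℝ), 0 ≤ D →
    (∀ (p : ℕ) [Fact p.Prime] (φ : 𝓞 K →+* ZMod p), (mp (fun i => φ (a i))).Separable →
      ∃ π : Equiv.Perm (Fin n), (∀ (r : ℕ) (lam : Fin r → ℕ), ∑ b, lam b = n →
        G lam (fun i => φ (a i)) = Z lam π) ∧ g p φ = η π) →
    (∀ (p : ℕ) [Fact p.Prime] (φ : 𝓞 K →+* ZMod p), ¬ (mp (fun i => φ (a i))).Separable →
      |g p φ| ≤ D) →
    ∀ u : HeightOneSpectrum (𝓞 K) → ℝ, (∀ v, |u v| ≤ 1) → ∀ (T : ℕ) (E : ℝ),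
    (∀ c : Fin n → Fin n, |SS T (fun p _ φ => u (hv φ) * (TF (some c) p (fun i => φ (a i)) * Real.log p)) -
      SS T (fun p _ φ => u (hv φ) * Real.log p)| ≤ E) →
    SS T (fun p _ φ => TF none p (fun i => φ (a i)) * Real.log p) ≤ E →
    |SS T (fun p _ φ => u (hv φ) * (g p φ * Real.log p)) -
      (∑ π, (η π : ℝ)) / n.factorial * SS T (fun p _ φ => u (hv φ) * Real.log p)| ≤ (C + D) * E := by
  classical
  obtain ⟨C, hC0, hC⟩ := coef_bound' n M
  obtain ⟨B, hB⟩ : ∃ B : ℝ, B = ((2 : ℝ) ^ n) ^ n := ⟨_, rfl⟩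
  have hB0 : 0 ≤ B := by rw [hB]; positivity
  refine ⟨C + C * B, by positivity, fun a η hη hcl g D hD0 hg1 hg2 u hu T E hE hE' => ?_⟩
  obtain ⟨co, hco1, hco2⟩ := hC η hη hcl
  have hsum1 : ∑ c, co c = (∑ π, (η π : ℝ)) / n.factorial := by
    have h3 : (n.factorial : ℝ) ≠ 0 := by exact_mod_cast n.factorial_ne_zero
    rw [eq_div_iff h3, sum_congr rfl fun π _ => hco1 π, sum_comm]
    have h2 : ∀ c : Fin n → Fin n, ∑ π : Equiv.Perm (Fin n), co c * (Z (sizes c) π : ℝ) =
        co c * n.factorial := by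
      intro c
      rw [← mul_sum, mean_Z]
    rw [sum_congr rfl fun c _ => h2 c, ← sum_mul]
  have hE0 : 0 ≤ E := by
    refine le_trans ?_ hE'
    have := SS_mono (K := K) T (f := fun p _ φ => 0 * (0 : ℝ))
      (g := fun p _ φ => TF none p (fun i => φ (a i)) * Real.log p) (fun p _ φ _ => by
        rw [zero_mul]
        refine mul_nonneg ?_ (Real.log_natCast_nonneg p)
        show 0 ≤ (if (mp (fun i => φ (a i))).Separable then (0 : ℝ) else 1)
        split_ifs <;> norm_num)
    rw [SS_smul, zero_mul] at this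
    exact this
  have hlocal : ∀ (p : ℕ) [Fact p.Prime] (φ : 𝓞 K →+* ZMod p),
      |g p φ - ∑ c, co c * TF (some c) p (fun i => φ (a i))| ≤
        (D + C * B) * TF none p (fun i => φ (a i)) := by
    intro p _ φ
    by_cases hsep : (mp (fun i => φ (a i))).Separable
    · obtain ⟨π, hπ1, hπ2⟩ := hg1 p φ hsep
      rw [hπ2, hco1]
      have h1 : ∀ c : Fin n → Fin n, TF (some c) p (fun i => φ (a i)) = (Z (sizes c) π : ℝ) := by
        intro c
        show (G (sizes c) (fun i => φ (a i)) : ℝ) = _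
        rw [hπ1 n (sizes c) (sum_sizes c)]
      simp only [h1, sub_self, abs_zero]
      show 0 ≤ (D + C * B) * (if (mp (fun i => φ (a i))).Separable then (0 : ℝ) else 1)
      rw [if_pos hsep, mul_zero]
    · show _ ≤ (D + C * B) * (if (mp (fun i => φ (a i))).Separable then (0 : ℝ) else 1)
      rw [if_neg hsep, mul_one]
      refine (abs_sub _ _).trans ?_
      have h1 := hg2 p φ hsep
      have h2 : |∑ c, co c * TF (some c) p (fun i => φ (a i))| ≤ C * B := by
        refine (abs_sum_le_sum_abs _ _).trans ?_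
        refine (sum_le_sum (g := fun c => |co c| * B) fun c _ => ?_).trans ?_
        · rw [abs_mul, hB]
          exact mul_le_mul_of_nonneg_left (TF_abs (some c) p _) (abs_nonneg _)
        · rw [← sum_mul]
          exact mul_le_mul_of_nonneg_right hco2 hB0
      linarith
  have hsplit : SS T (fun p _ φ => u (hv φ) * (g p φ * Real.log p)) =
      SS T (fun p _ φ => ∑ c, co c * (u (hv φ) * (TF (some c) p (fun i => φ (a i)) * Real.log p))) +
      SS T (fun p _ φ => (g p φ -
        ∑ c, co c * TF (some c) p (fun i => φ (a i))) * (u (hv φ) * Real.log p)) := by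
    rw [← SS_add]
    refine SS_congr T fun p _ φ _ => ?_
    rw [sub_mul, sum_mul]
    have : ∑ c, co c * (u (hv φ) * (TF (some c) p (fun i => φ (a i)) * Real.log p)) =
        ∑ c, co c * TF (some c) p (fun i => φ (a i)) * (u (hv φ) * Real.log p) :=
      sum_congr rfl fun c _ => by ring
    rw [this]
    ring
  rw [hsplit, SS_sum T univ (fun c p _ φ => co c * (u (hv φ) * (TF (some c) p (fun i => φ (a i)) * Real.log p)))]
  have hmain : |∑ c, SS T (fun p _ φ => co c * (u (hv φ) * (TF (some c) p (fun i => φ (a i)) * Real.log p))) -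
      (∑ π, (η π : ℝ)) / n.factorial * SS T (fun p _ φ => u (hv φ) * Real.log p)| ≤ C * E := by
    have h1 : ∑ c, SS T (fun p _ φ => co c * (u (hv φ) * (TF (some c) p (fun i => φ (a i)) * Real.log p))) -
        (∑ π, (η π : ℝ)) / n.factorial * SS T (fun p _ φ => u (hv φ) * Real.log p) =
        ∑ c, co c * (SS T (fun p _ φ => u (hv φ) * (TF (some c) p (fun i => φ (a i)) * Real.log p)) -
          SS T (fun p _ φ => u (hv φ) * Real.log p)) := by
      rw [sum_congr rfl fun c _ => SS_smul (K := K) T (co c)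
        (fun p _ φ => u (hv φ) * (TF (some c) p (fun i => φ (a i)) * Real.log p))]
      simp only [mul_sub]
      rw [sum_sub_distrib, ← sum_mul, hsum1]
    rw [h1]
    refine (abs_sum_le_sum_abs _ _).trans ?_
    refine (sum_le_sum (g := fun c => |co c| * E) fun c _ => ?_).trans ?_
    · rw [abs_mul]
      exact mul_le_mul_of_nonneg_left (hE c) (abs_nonneg _)
    · rw [← sum_mul]
      exact mul_le_mul_of_nonneg_right hco2 hE0
  have hrest : |SS T (fun p _ φ => (g p φ -
        ∑ c, co c * TF (some c) p (fun i => φ (a i))) * (u (hv φ) * Real.log p))| ≤ (D + C * B) * E := by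
    refine (SS_abs (K := K) T (g := fun p _ φ => (D + C * B) *
      (TF none p (fun i => φ (a i)) * Real.log p)) fun p _ φ _ => ?_).trans ?_
    · have hlog : 0 ≤ Real.log p := Real.log_natCast_nonneg p
      rw [abs_mul, abs_mul, abs_of_nonneg hlog]
      calc _ ≤ ((D + C * B) * TF none p (fun i => φ (a i))) * (1 * Real.log p) := by
            refine mul_le_mul (hlocal p φ) (mul_le_mul_of_nonneg_right (hu _) hlog) (by positivity) ?_
            exact (abs_nonneg _).trans (hlocal p φ)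
        _ = _ := by ring
    · rw [SS_smul]
      exact mul_le_mul_of_nonneg_left hE' (by positivity)
  calc _ = |(∑ c, SS T (fun p _ φ => co c * (u (hv φ) * (TF (some c) p (fun i => φ (a i)) * Real.log p))) -
      (∑ π, (η π : ℝ)) / n.factorial * SS T (fun p _ φ => u (hv φ) * Real.log p)) +
      SS T (fun p _ φ => (g p φ -
        ∑ c, co c * TF (some c) p (fun i => φ (a i))) * (u (hv φ) * Real.log p))| := by
        congr 1
        ring
    _ ≤ C * E + (D + C * B) * E := (abs_add_le _ _).trans (add_le_add hmain hrest)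
    _ = _ := by ring

end

end Pool.Agent.H40SY
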