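import Pool.Agent.H40SY.Grp2
import Pool.Agent.H40SY.DetG

/-! The law of large numbers for well distributed families of polynomials, in a form for applications. -/

set_option autoImplicit false

namespace Pool.Agent.H40SY

open NumberField IsDedekindDomain Finset Filter
open Pool.Agent.N842.HS (hv absNorm_hv hv_inj hv_surj VT mem_VT hom_finite cf)
open Pool.Agent.N842.ST (av)

section
variable {K : Type} [Field K] [NumberField K] {n g : ℕ}

/-- the polynomial with the coefficients `a` has the symmetric group, and satisfies the law for the weights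
in `U` -/
def Law (a : Fin n → 𝓞 K) (δ : ℝ) (U : ℕ → Finset (HeightOneSpectrum (𝓞 K) → ℝ)) (E Q y : ℕ) : Prop :=
  y ^ E ≤ Q → IsSymmetric (mp a) ∧ ∀ T : ℕ, y ≤ T → T ^ E ≤ Q → ∀ u : HeightOneSpectrum (𝓞 K) → ℝ,
    (u ∈ U T ∨ u = fun _ => 1) → ∀ o : Option (Fin n → Fin n),
      |SS T (fun p _ φ => u (hv φ) * (TF o p (fun i => φ (a i)) * Real.log p)) -
        SS T (fun p _ φ => u (hv φ) * (av p (TF o p) * Real.log p))| ≤ (T : ℝ) ^ (1 / 2 + δ / 2)

/-- **The engine.** -/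
theorem engine (ω : Fin g → 𝓞 K) (hω : (1 : 𝓞 K) ∈ Submodule.span ℤ (Set.range ω)) (δ : ℝ) (hδ : 0 < δ)
    (hδ1 : δ ≤ 1 / 2) (A B : ℕ) : ∃ E y₀ : ℕ, 1 ≤ y₀ ∧
    ∀ U : ℕ → Finset (HeightOneSpectrum (𝓞 K) → ℝ), (∀ T, 2 ≤ T → (U T).card ≤ T ^ B) →
    (∀ T, ∀ u ∈ U T, ∀ v, |u v| ≤ 1) → ∀ (Q y : ℕ), y₀ ≤ y →
    ∀ S : Finset (Fin n → Fin g → ℤ), WellDistributed Q S →
      open Classical in
      ((S.filter fun c => ¬ Law (ac ω c) δ U E Q y).card : ℝ) ≤ 1 / (y : ℝ) ^ A * S.card := by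
  classical
  obtain ⟨M₀, y₀, hlaw⟩ := local_law (n := n) ω hω (δ / 2) (by positivity) A (B + 1)
  obtain ⟨T₁, hT₁⟩ := symmetric_of (K := K) (n := n) δ hδ hδ1
  refine ⟨M₀ + 2, y₀ + T₁ + 2, by omega, fun U hUc hU1 Q y hy S hS => ?_⟩
  -- the trivial case
  rcases Nat.eq_zero_or_pos Q with hQ | hQ
  · have h1 : (S.filter fun c => ¬ Law (ac ω c) δ U (M₀ + 2) Q y) = ∅ := by
      refine filter_eq_empty_iff.2 fun c _ => not_not.2 fun hyE => ?_
      exfalso
      rw [hQ] at hyE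
      have : 0 < y ^ (M₀ + 2) := Nat.pow_pos (by omega)
      omega
    rw [h1, card_empty]
    push_cast
    positivity
  obtain ⟨H, hH⟩ : ∃ H : ℕ, H = (Q - 1) / 2 := ⟨_, rfl⟩
  have hHQ : 2 * H + 1 ≤ Q := by omega
  obtain ⟨c, hc1, hc2⟩ := enum S
  obtain ⟨m, hm⟩ : ∃ m : ℕ → Fin (n * g) → ℕ, m = fun t => nn (2 * H + 1).factorial (c t) := ⟨_, rfl⟩
  have hW := wellN hS hHQ hc1 hc2
  rw [← hm] at hW
  obtain ⟨U', hU'⟩ : ∃ U' : ℕ → Finset (HeightOneSpectrum (𝓞 K) → ℝ),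
      U' = fun T => if 2 ≤ T then insert (fun _ => 1) (U T) else ∅ := ⟨_, rfl⟩
  have hUc' : ∀ T, (U' T).card ≤ T ^ (B + 1) := by
    intro T
    rw [hU']
    simp only
    split_ifs with h2
    · refine (card_insert_le _ _).trans ?_
      have h3 := hUc T h2
      have h4 : 1 ≤ T ^ B := Nat.one_le_pow _ _ (by omega)
      calc _ ≤ T ^ B + T ^ B := by omega
        _ = T ^ B * 2 := by ring
        _ ≤ T ^ B * T := Nat.mul_le_mul_left _ h2
        _ = T ^ (B + 1) := by rw [pow_succ]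
    · rw [card_empty]
      exact Nat.zero_le _
  have hU1' : ∀ T, ∀ u ∈ U' T, ∀ v, |u v| ≤ 1 := by
    intro T u hu v
    rw [hU'] at hu
    simp only at hu
    split_ifs at hu with h2
    · rw [mem_insert] at hu
      rcases hu with rfl | hu
      · simp
      · exact hU1 T u hu v
    · exact absurd hu (notMem_empty _)
  have hfin := hlaw (range S.card) m H y hW (by omega) U' hUc' hU1'
    ((range S.card).filter fun t => ¬ Law (ac ω (c t)) δ U (M₀ + 2) Q y) (filter_subset _ _)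
    (fun t ht => by
      by_contra hno
      apply (mem_filter.1 ht).2
      -- the law for all weights
      have hkey : ∀ T : ℕ, y ≤ T → T ^ (M₀ + 2) ≤ Q → ∀ u : HeightOneSpectrum (𝓞 K) → ℝ,
          (u ∈ U T ∨ u = fun _ => 1) → ∀ o : Option (Fin n → Fin n),
          |SS T (fun p _ φ => u (hv φ) * (TF o p (fun i => φ (ac ω (c t) i)) * Real.log p)) -
            SS T (fun p _ φ => u (hv φ) * (av p (TF o p) * Real.log p))| ≤ (T : ℝ) ^ (1 / 2 + δ / 2) := by
        intro T hyT hTE u hu o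
        have hTH : T ^ M₀ ≤ 2 * H + 1 ∧ T ≤ 2 * H + 1 := by
          have hT2 : 2 ≤ T := by omega
          have h1 : T ^ (M₀ + 2) = T ^ M₀ * T * T := by ring
          have h2 : 1 ≤ T ^ M₀ := Nat.one_le_pow _ _ (by omega)
          have h3 : T ^ M₀ * T * 2 ≤ Q := (Nat.mul_le_mul_left _ hT2).trans (by rw [← h1]; exact hTE)
          have h4 : T ^ M₀ ≤ T ^ M₀ * T := Nat.le_mul_of_pos_right _ (by omega)
          have h5 : T ≤ T ^ M₀ * T := Nat.le_mul_of_pos_left _ (by omega)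
          constructor <;> omega
        by_contra hbig
        rw [not_le] at hbig
        refine hno ⟨T, hyT, hTH.1, u, ?_, o, ?_⟩
        · rw [hU']
          simp only
          rw [if_pos (by omega), mem_insert]
          rcases hu with hu | rfl
          · exact Or.inr hu
          · exact Or.inl rfl
        · refine lt_of_lt_of_eq hbig ?_
          congr 2
          show SS T (fun p _ φ => u (hv φ) * (TF o p (fun i => φ (ac ω (c t) i)) * Real.log p)) =
            SS T (fun p _ φ => u (hv φ) * (TF o p (fun i => φ (cf ω (m t) i)) * Real.log p))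
          refine SS_congr T fun p hp φ hpT => ?_
          have h1 : (fun i => φ (ac ω (c t) i)) = fun i => φ (cf ω (m t) i) := by
            funext i
            unfold ac cf
            rw [map_sum, map_sum]
            refine sum_congr rfl fun j' _ => ?_
            rw [map_mul, map_mul, map_intCast, map_natCast, hm]
            congr 1
            exact (nn_zmod (Nat.factorial_pos _)
              (Nat.dvd_factorial hp.out.pos (hpT.trans hTH.2)) (c t) i j').symm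
          rw [h1]
      intro hyE
      exact ⟨hT₁ (ac ω (c t)) y (by omega) fun o => hkey y le_rfl hyE (fun _ => 1) (Or.inr rfl) o,
        hkey⟩)
  rw [card_enum hc1 hc2]
  refine hfin.trans (le_of_eq ?_)
  rw [card_range, Real.rpow_neg (Nat.cast_nonneg _), Real.rpow_natCast, one_div]

/-- the consequences of the law for class functions -/
theorem class_law (δ : ℝ) (hδ : 0 < δ) (M : ℕ) : ∃ (C : ℝ) (T₀ : ℕ), 0 ≤ C ∧ ∀ (a : Fin n → 𝓞 K)
    (U : ℕ → Finset (HeightOneSpectrum (𝓞 K) → ℝ)), (∀ T, ∀ u ∈ U T, ∀ v, |u v| ≤ 1) →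
    ∀ (E Q y : ℕ), Law a δ U E Q y → ∀ T : ℕ, T₀ ≤ T → y ≤ T → T ^ E ≤ Q →
    ∀ η : Equiv.Perm (Fin n) → ℕ, (∀ π, η π ≤ M) → (∀ π u, η (u * π * u⁻¹) = η π) →
    ∀ (g : ∀ (p : ℕ) [Fact p.Prime], (𝓞 K →+* ZMod p) → ℝ) (D : ℝ), 0 ≤ D →
    (∀ (p : ℕ) [Fact p.Prime] (φ : 𝓞 K →+* ZMod p), (mp (fun i => φ (a i))).Separable →
      ∃ π : Equiv.Perm (Fin n), (∀ (r : ℕ) (lam : Fin r → ℕ), ∑ b, lam b = n →
        G lam (fun i => φ (a i)) = Z lam π) ∧ g p φ = η π) →
    (∀ (p : ℕ) [Fact p.Prime] (φ : 𝓞 K →+* ZMod p), ¬ (mp (fun i => φ (a i))).Separable →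
      |g p φ| ≤ D) →
    ∀ u ∈ U T, |SS T (fun p _ φ => u (hv φ) * (g p φ * Real.log p)) -
      (∑ π, (η π : ℝ)) / n.factorial * SS T (fun p _ φ => u (hv φ) * Real.log p)| ≤
        (C + D) * (C * ((T : ℝ) ^ (1 / 2 + δ / 2) * Real.log T)) := by
  classical
  obtain ⟨C, hC0, hC⟩ := det_gen K n M
  obtain ⟨d, hd⟩ : ∃ d : ℝ, d = Module.finrank ℚ K := ⟨_, rfl⟩
  have hd0 : 0 ≤ d := by rw [hd]; positivity
  refine ⟨C + (1 + 3 * (d * n)), 3, by positivity, fun a U hU1 E Q y hlaw T hT3 hyT hTE η hη hcl g D hD0 hg1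
    hg2 u hu => ?_⟩
  have hT3' : (3 : ℝ) ≤ T := by exact_mod_cast hT3
  have hyQ : y ^ E ≤ Q := (Nat.pow_le_pow_left hyT E).trans hTE
  obtain ⟨hs, hl⟩ := hlaw hyQ
  have hl' := hl T hyT hTE
  obtain ⟨E', hE'⟩ : ∃ E' : ℝ, E' = (T : ℝ) ^ (1 / 2 + δ / 2) + d * n * ((1 + Real.log T) * Real.log T) :=
    ⟨_, rfl⟩
  have hlogT : 0 ≤ Real.log T := Real.log_natCast_nonneg T
  have hE1 : (T : ℝ) ^ (1 / 2 + δ / 2) ≤ E' := by
    rw [hE']
    have : 0 ≤ d * n * ((1 + Real.log T) * Real.log T) := by positivity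
    linarith
  have h1 := hC a η hη hcl g D hD0 hg1 hg2 u (hU1 T u hu) T E' (fun c => by
      have h1 := hl' u (Or.inl hu) (some c)
      have h2 : SS T (fun p _ φ => u (hv φ) * (av p (TF (some c) p) * Real.log p)) =
          SS T (fun p _ φ => u (hv φ) * Real.log p) :=
        SS_congr T fun p _ φ _ => by rw [av_some, one_mul]
      rw [h2] at h1
      exact h1.trans hE1)
    (by
      rw [hE', hd]
      exact none_bound a T _ (hl' (fun _ => 1) (Or.inr rfl) none))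
  refine h1.trans ?_
  have h2 := E_le T d n δ hT3' hd0 (Nat.cast_nonneg _) hδ
  rw [← hE'] at h2
  have hP : 0 ≤ (T : ℝ) ^ (1 / 2 + δ / 2) * Real.log T := by positivity
  have h3 : E' ≤ (C + (1 + 3 * (d * n))) * ((T : ℝ) ^ (1 / 2 + δ / 2) * Real.log T) :=
    h2.trans (mul_le_mul_of_nonneg_right (by linarith) hP)
  have h4 : 0 ≤ E' := le_trans (by positivity) hE1
  have h5 : 0 ≤ 1 + 3 * (d * n) := by positivity
  calc (C + D) * E' ≤ (C + (1 + 3 * (d * n)) + D) * E' := mul_le_mul_of_nonneg_right (by linarith) h4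
    _ ≤ _ := mul_le_mul_of_nonneg_left h3 (by positivity)

end

end Pool.Agent.H40SY
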