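import Pool.Agent.H40SY.Defs
import Pool.Agent.N647.TS.Law

/-! Well distributed families of integral vectors. -/

set_option autoImplicit false

namespace Pool.Agent.H40SY

open Finset
open Pool.Agent.TH894.NE (mem_box)
open Pool.Agent.N647.TS (WellN)

/-- an enumeration of a finite set -/
theorem enum {α : Type} [DecidableEq α] [Inhabited α] (S : Finset α) :
    ∃ c : ℕ → α, Set.InjOn c (range S.card : Finset ℕ) ∧ (range S.card).image c = S := by
  classical
  let e := S.equivFin
  refine ⟨fun t => if h : t < S.card then (e.symm ⟨t, h⟩ : α) else default, ?_, ?_⟩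
  · intro t ht t' ht' htt
    rw [mem_coe, mem_range] at ht ht'
    simp only at htt
    rw [dif_pos ht, dif_pos ht'] at htt
    have := e.symm.injective (Subtype.ext htt)
    exact congrArg Fin.val this
  · ext x
    rw [mem_image]
    constructor
    · rintro ⟨t, ht, rfl⟩
      rw [mem_range] at ht
      rw [dif_pos ht]
      exact (e.symm ⟨t, ht⟩).2
    · intro hx
      refine ⟨(e ⟨x, hx⟩ : ℕ), mem_range.2 (e ⟨x, hx⟩).2, ?_⟩
      rw [dif_pos (e ⟨x, hx⟩).2]
      show ((e.symm (e ⟨x, hx⟩) : S) : α) = x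
      rw [e.symm_apply_apply]

theorem card_enum {α : Type} [DecidableEq α] {S : Finset α} {c : ℕ → α}
    (h1 : Set.InjOn c (range S.card : Finset ℕ)) (h2 : (range S.card).image c = S) (P : α → Prop)
    [DecidablePred P] : (S.filter P).card = ((range S.card).filter fun t => P (c t)).card := by
  conv_lhs => rw [← h2]
  rw [filter_image, card_image_of_injOn]
  exact h1.mono (by
    rw [coe_subset]
    exact filter_subset _ _)

section
variable {n g : ℕ}

/-- the nonnegative representatives -/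
def nn (W : ℕ) (c : Fin n → Fin g → ℤ) (k : Fin (n * g)) : ℕ :=
  (c (finProdFinEquiv.symm k).1 (finProdFinEquiv.symm k).2 % (W : ℤ)).toNat

theorem nn_cast {W : ℕ} (hW : 0 < W) (c : Fin n → Fin g → ℤ) (k : Fin (n * g)) :
    ((nn W c k : ℕ) : ℤ) = c (finProdFinEquiv.symm k).1 (finProdFinEquiv.symm k).2 % (W : ℤ) := by
  unfold nn
  exact Int.toNat_of_nonneg (Int.emod_nonneg _ (by omega))

theorem nn_zmod {W q : ℕ} (hW : 0 < W) (hq : q ∣ W) (c : Fin n → Fin g → ℤ) (i : Fin n) (j : Fin g) :
    ((nn W c (finProdFinEquiv (i, j)) : ℕ) : ZMod q) = (c i j : ZMod q) := by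
  have h1 : (((nn W c (finProdFinEquiv (i, j)) : ℕ) : ℤ) : ZMod q) = (c i j : ZMod q) := by
    rw [nn_cast hW, Equiv.symm_apply_apply, ZMod.intCast_eq_intCast_iff_dvd_sub]
    have h2 : (q : ℤ) ∣ (W : ℤ) := by exact_mod_cast hq
    refine h2.trans ?_
    exact Int.dvd_self_sub_emod
  exact_mod_cast h1

theorem nn_mod {W q : ℕ} (hW : 0 < W) (hq : q ∣ W) (c : Fin n → Fin g → ℤ)
    (r : Fin (n * g) → ℕ) (hr : ∀ k, r k < q) :
    (fun k => nn W c k % q) = r ↔ ∀ i j, (q : ℤ) ∣ c i j - r (finProdFinEquiv (i, j)) := by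
  have h1 : ∀ i j, nn W c (finProdFinEquiv (i, j)) % q = r (finProdFinEquiv (i, j)) ↔
      (q : ℤ) ∣ c i j - r (finProdFinEquiv (i, j)) := by
    intro i j
    have h2 := nn_zmod hW hq c i j
    rw [← ZMod.intCast_eq_intCast_iff_dvd_sub, ← h2, Int.cast_natCast, eq_comm (a := (_ : ZMod q)),
      ZMod.natCast_eq_natCast_iff', Nat.mod_eq_of_lt (hr _)]
  constructor
  · intro h i j
    rw [← h1, ← congrFun h (finProdFinEquiv (i, j))]
  · intro h
    funext k
    have h2 := (h1 (finProdFinEquiv.symm k).1 (finProdFinEquiv.symm k).2).2 (h _ _)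
    rwa [Prod.mk.eta, Equiv.apply_symm_apply] at h2

theorem wellN {Q H : ℕ} {S : Finset (Fin n → Fin g → ℤ)} (hS : WellDistributed Q S)
    (hH : 2 * H + 1 ≤ Q) {c : ℕ → Fin n → Fin g → ℤ} (h1 : Set.InjOn c (range S.card : Finset ℕ))
    (h2 : (range S.card).image c = S) :
    WellN (range S.card) (fun t => nn (2 * H + 1).factorial (c t)) H := by
  classical
  obtain ⟨hne, hd⟩ := hS
  refine ⟨by rw [card_range]; exact hne.card_pos, fun q hq1 hq r hr => ?_⟩
  rw [mem_box] at hr
  have h3 := hd q hq1 (hq.trans hH) (fun i j => (r (finProdFinEquiv (i, j)) : ℤ))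
  rw [card_enum h1 h2] at h3
  have h4 : ((range S.card).filter fun t => (fun k => nn (2 * H + 1).factorial (c t) k % q) = r) =
      ((range S.card).filter fun t => ∀ i j, (q : ℤ) ∣ c t i j - r (finProdFinEquiv (i, j))) :=
    filter_congr fun t _ => nn_mod (Nat.factorial_pos _) (Nat.dvd_factorial (by omega) hq)
      (c t) r hr
  rw [h4, card_range]
  refine h3.trans ?_
  apply mul_le_mul_of_nonneg_right _ (by positivity)
  apply one_div_le_one_div_of_le (by positivity)
  exact_mod_cast hH

end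

end Pool.Agent.H40SY
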