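import Pool.Agent.H40SY.Defs
import Pool.Agent.H40SY.Gal2

/-! The roots of a polynomial with the symmetric group. -/

set_option autoImplicit false

namespace Pool.Agent.H40SY

open NumberField IsDedekindDomain Polynomial Finset
open Pool.Agent.W401.Cheb (GK IsFrob)
open Pool.Agent.W401.Frob (smul_alg)
open Pool.Agent.W353.TP (exists_rho)

section
variable {K : Type} [Field K] [NumberField K] {n g : ℕ}

/-- the coefficients -/
noncomputable def ac (ω : Fin g → 𝓞 K) (c : Fin n → Fin g → ℤ) (i : Fin n) : 𝓞 K :=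
  ∑ j, (c i j : 𝓞 K) * ω j

omit [NumberField K] in
theorem poly_eq (ω : Fin g → 𝓞 K) (c : Fin n → Fin g → ℤ) : poly ω c = mp (ac ω c) := rfl

omit [NumberField K] in
theorem mem_rootsOf {a : Fin n → 𝓞 K} {θ : Fin n → 𝓞 (AlgebraicClosure K)} (h : Roots a θ)
    (x : AlgebraicClosure K) : x ∈ rootsOf (mp a) ↔ ∃ i, (θ i : AlgebraicClosure K) = x := by
  have h1 : aeval x ((mp a).map (algebraMap (𝓞 K) K)) = ∏ i, (x - (θ i : AlgebraicClosure K)) := by
    rw [aeval_def, eval₂_eq_eval_map, Polynomial.map_map]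
    have h2 : (algebraMap K (AlgebraicClosure K)).comp (algebraMap (𝓞 K) K) =
        (algebraMap (𝓞 (AlgebraicClosure K)) (AlgebraicClosure K)).comp
          (algebraMap (𝓞 K) (𝓞 (AlgebraicClosure K))) := rfl
    rw [h2, ← Polynomial.map_map]
    unfold Roots at h
    rw [h, Polynomial.map_prod, eval_prod]
    refine Finset.prod_congr rfl fun i _ => ?_
    rw [Polynomial.map_sub, map_X, map_C, eval_sub, eval_X, eval_C]
  show aeval x ((mp a).map (algebraMap (𝓞 K) K)) = 0 ↔ _
  rw [h1, Finset.prod_eq_zero_iff]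
  constructor
  · rintro ⟨i, _, hi⟩
    exact ⟨i, (sub_eq_zero.1 hi).symm⟩
  · rintro ⟨i, hi⟩
    exact ⟨i, mem_univ i, by rw [hi, sub_self]⟩

/-- **The roots of a polynomial with the symmetric group.** -/
theorem sym_data {a : Fin n → 𝓞 K} (hs : IsSymmetric (mp a)) :
    ∃ θ : Fin n → 𝓞 (AlgebraicClosure K), Roots a θ ∧ Function.Injective θ ∧ Sym θ ∧
      ∀ (M : IntermediateField K (AlgebraicClosure K)) [NumberField M], M ≤ splitting (mp a) →
        Inside θ M := by
  classical
  obtain ⟨θ, hθ⟩ := exists_roots a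
  obtain ⟨hc, hp⟩ := hs
  rw [mp_natDegree] at hc
  let e : Fin n → rootsOf (mp a) := fun i => ⟨θ i, (mem_rootsOf hθ _).2 ⟨i, rfl⟩⟩
  have hsurj : Function.Surjective e := by
    rintro ⟨x, hx⟩
    obtain ⟨i, hi⟩ := (mem_rootsOf hθ x).1 hx
    exact ⟨i, Subtype.ext hi⟩
  have hbij : Function.Bijective e := hsurj.bijective_of_nat_card_le (by rw [hc, Nat.card_fin])
  have hinj : Function.Injective θ := fun i j hij => hbij.1
    (Subtype.ext (congrArg (fun z : 𝓞 (AlgebraicClosure K) => (z : AlgebraicClosure K)) hij))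
  let e' : Fin n ≃ rootsOf (mp a) := Equiv.ofBijective e hbij
  refine ⟨θ, hθ, hinj, fun π => ?_, fun M _ hM γ hγ ι => ?_⟩
  · obtain ⟨σ, hσ⟩ := hp ((e'.symm.trans π).trans e')
    refine ⟨σ, fun i => ?_⟩
    apply RingOfIntegers.ext
    rw [Pool.Agent.W401.Frob.coe_smul]
    have h1 := hσ (e' i)
    have h2 : ((e'.symm.trans π).trans e') (e' i) = e' (π i) := by
      show e' (π (e'.symm (e' i))) = _
      rw [e'.symm_apply_apply]
    rw [h2] at h1
    exact h1
  · obtain ⟨ρ, hρ⟩ := exists_rho M.val ι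
    obtain ⟨π, hπ⟩ := hθ.perm hinj (ρ : GK K)
    -- the conjugate
    have h1 : ∀ x ∈ splitting (mp a), γ (ρ x) = ρ x := by
      intro x hx
      refine IntermediateField.adjoin_induction K (s := rootsOf (mp a))
        (p := fun x _ => γ (ρ x) = ρ x) ?_ ?_ ?_ ?_ ?_ hx
      · intro x hx
        obtain ⟨i, rfl⟩ := (mem_rootsOf hθ x).1 hx
        have h2 : ρ (θ i : AlgebraicClosure K) = (θ (π i) : AlgebraicClosure K) :=
          congrArg (fun z : 𝓞 (AlgebraicClosure K) => (z : AlgebraicClosure K)) (hπ i)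
        rw [h2]
        exact congrArg (fun z : 𝓞 (AlgebraicClosure K) => (z : AlgebraicClosure K)) (hγ (π i))
      · intro x
        rw [ρ.commutes, γ.commutes]
      · intro x y _ _ hx hy
        rw [map_add, map_add, hx, hy]
      · intro x _ hx
        rw [map_inv₀, map_inv₀, hx]
      · intro x y _ _ hx hy
        rw [map_mul, map_mul, hx, hy]
    ext x
    show γ (ι x) = ι x
    rw [← hρ x]
    exact h1 _ (hM x.2)

end

end Pool.Agent.H40SY
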