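import Pool.Agent.H40SY.Law
import Pool.Agent.H40SY.Av
import Pool.Agent.H40SY.Rts
import Pool.Agent.H40SY.Enum

/-! The theorem. -/

set_option autoImplicit false

namespace Pool.Agent.H40SY

open NumberField IsDedekindDomain Finset Filter
open Pool.Agent.N842.HS (hv absNorm_hv hv_inj hv_surj VT mem_VT hom_finite cf)
open Pool.Agent.W353.SP (IsTrace average)
open Pool.Agent.N842.ST (av)

section
variable {K : Type} [Field K] [NumberField K] {n g : ℕ}

/-- the weight of a variety -/
noncomputable def wt (D : VarietyData K) (v : HeightOneSpectrum (𝓞 K)) : ℝ := tn D.m D.R D.b v / D.N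

theorem wt_mul (D : VarietyData K) (v : HeightOneSpectrum (𝓞 K)) : tn D.m D.R D.b v = D.N * wt D v := by
  have h1 := tn_abs D.le D.trace v
  unfold wt
  by_cases h : (D.N : ℝ) = 0
  · rw [h] at h1 ⊢
    rw [div_zero, mul_zero]
    exact abs_nonpos_iff.1 h1
  · field_simp

theorem wt_abs (D : VarietyData K) (v : HeightOneSpectrum (𝓞 K)) : |wt D v| ≤ 1 := by
  have h1 := tn_abs D.le D.trace v
  unfold wt
  rw [abs_div, Nat.abs_cast]
  exact div_le_one_of_le₀ h1 (Nat.cast_nonneg _)

variable (K) in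
/-- the sum of the reciprocals of the norms -/
theorem sum_recip (T : ℕ) : SS (K := K) T (fun p _ _ => 1 / (p : ℝ)) ≤
    Module.finrank ℚ K * (1 + Real.log T) := by
  have h1 : SS (K := K) T (fun p _ _ => 1 / (p : ℝ)) ≤ ∑ p ∈ PP T, Module.finrank ℚ K * (1 / (p : ℝ)) := by
    unfold SS
    refine sum_le_sum fun p hp => ?_
    have : Fact p.Prime := ⟨(mem_PP.1 hp).2⟩
    have : Finite (𝓞 K →+* ZMod p) := hom_finite (𝓞 K) p
    let _ : Fintype (𝓞 K →+* ZMod p) := Fintype.ofFinite _
    rw [SP_eq, sum_const, card_univ, nsmul_eq_mul]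
    exact mul_le_mul_of_nonneg_right (hom_le K p) (by positivity)
  refine h1.trans ?_
  rw [← mul_sum]
  apply mul_le_mul_of_nonneg_left _ (Nat.cast_nonneg _)
  refine le_trans ?_ (harmonic_le_one_add_log T)
  unfold harmonic
  push_cast
  have h2 : PP T ⊆ (range T).image (fun i => i + 1) := by
    intro p hp
    rw [mem_PP] at hp
    rw [mem_image]
    exact ⟨p - 1, mem_range.2 (by have := hp.2.pos; omega), by have := hp.2.pos; omega⟩
  refine (sum_le_sum_of_subset_of_nonneg h2 fun i _ _ => by positivity).trans ?_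
  rw [sum_image (fun i _ j _ h => by simpa using h)]
  refine le_of_eq (sum_congr rfl fun i _ => ?_)
  push_cast
  rw [one_div]

/-- the primes modulo which the polynomial is not separable -/
theorem none_bound (a : Fin n → 𝓞 K) (T : ℕ) (E : ℝ)
    (h : |SS T (fun p _ φ => (1 : ℝ) * (TF none p (fun i => φ (a i)) * Real.log p)) -
      SS (K := K) T (fun p _ _ => (1 : ℝ) * (av (D := n) p (TF none p) * Real.log p))| ≤ E) :
    SS T (fun p _ φ => TF none p (fun i => φ (a i)) * Real.log p) ≤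
      E + Module.finrank ℚ K * n * ((1 + Real.log T) * Real.log T) := by
  have h1 := (abs_le.1 h).2
  have h2 : SS T (fun p _ φ => (1 : ℝ) * (TF none p (fun i => φ (a i)) * Real.log p)) =
      SS T (fun p _ φ => TF none p (fun i => φ (a i)) * Real.log p) :=
    SS_congr T fun p _ _ _ => one_mul _
  have hlogT : 0 ≤ Real.log T := Real.log_natCast_nonneg T
  have h3 : SS (K := K) T (fun p _ φ => (1 : ℝ) * (av (D := n) p (TF none p) * Real.log p)) ≤
      (n * Real.log T) * (Module.finrank ℚ K * (1 + Real.log T)) := by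
    refine (SS_mono (K := K) T (g := fun p _ _ => (n * Real.log T) * (1 / (p : ℝ)))
      fun p hp φ hpT => ?_).trans ?_
    · rw [one_mul]
      have hp0 : (0 : ℝ) < p := by exact_mod_cast hp.out.pos
      have h4 : Real.log p ≤ Real.log T := Real.log_le_log hp0 (by exact_mod_cast hpT)
      have h5 : 0 ≤ Real.log p := Real.log_natCast_nonneg p
      calc av (D := n) p (TF none p) * Real.log p ≤ (n / p) * Real.log T :=
            mul_le_mul (av_none p).2 h4 h5 (by positivity)
        _ = _ := by ring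
    · rw [SS_smul]
      exact mul_le_mul_of_nonneg_left (sum_recip K T) (by positivity)
  rw [h2] at h1
  have h6 : (n * Real.log T) * (Module.finrank ℚ K * (1 + Real.log T)) =
    Module.finrank ℚ K * n * ((1 + Real.log T) * Real.log T) := by ring
  rw [h6] at h3
  linarith

/-- **The comparison of the averages.** -/
theorem close_of (δ : ℝ) (hδ : 0 < δ) : ∃ T₀ : ℕ, ∀ a : Fin n → 𝓞 K, IsSymmetric (mp a) →
    ∀ T : ℕ, T₀ ≤ T → ∀ D : VarietyData K,
    (∀ u : HeightOneSpectrum (𝓞 K) → ℝ, (u = wt D ∨ u = fun _ => 1) → ∀ o : Option (Fin n → Fin n),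
      |SS T (fun p _ φ => u (hv φ) * (TF o p (fun i => φ (a i)) * Real.log p)) -
        SS T (fun p _ φ => u (hv φ) * (av p (TF o p) * Real.log p))| ≤ (T : ℝ) ^ (1 / 2 + δ / 2)) →
    ∀ (M : IntermediateField K (AlgebraicClosure K)) [NumberField M], M ≤ splitting (mp a) →
      Close D M T ((T : ℝ) ^ (-(1 / 2) + δ)) := by
  classical
  obtain ⟨C, hC0, hC⟩ := det K n
  obtain ⟨d, hd⟩ : ∃ d : ℝ, d = Module.finrank ℚ K := ⟨_, rfl⟩
  have hd0 : 0 ≤ d := by rw [hd]; positivity
  obtain ⟨T₁, hT₁⟩ := eventually_atTop.1 (ev_absorb (C * (1 + 3 * (d * n)) + (C + d)) δ hδ)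
  refine ⟨T₁ + 3, fun a hs T hT D hlaw M _ hM => ?_⟩
  obtain ⟨θ, hθ, hinj, hsym, hins⟩ := sym_data hs
  have hT3 : 3 ≤ T := by omega
  have hT0 : (0 : ℝ) < T := by exact_mod_cast (by omega : 0 < T)
  have hT1' : (1 : ℝ) ≤ T := by exact_mod_cast (by omega : 1 ≤ T)
  have hlog1 : 1 ≤ Real.log T := by
    rw [Real.le_log_iff_exp_le hT0]
    refine Real.exp_one_lt_d9.le.trans ?_
    have : (3 : ℝ) ≤ T := by exact_mod_cast hT3
    refine le_trans ?_ this
    norm_num
  obtain ⟨E, hE⟩ : ∃ E : ℝ, E = (T : ℝ) ^ (1 / 2 + δ / 2) + d * n * ((1 + Real.log T) * Real.log T) := ⟨_, rfl⟩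
  have hdet := hC a θ hθ hinj hsym M (hins M hM) (wt D) (wt_abs D) T E
    (fun c => by
      have h1 := hlaw (wt D) (Or.inl rfl) (some c)
      have h2 : SS T (fun p _ φ => wt D (hv φ) * (av p (TF (some c) p) * Real.log p)) =
          SS T (fun p _ φ => wt D (hv φ) * Real.log p) :=
        SS_congr T fun p _ φ _ => by rw [av_some, one_mul]
      rw [h2] at h1
      refine h1.trans ?_
      rw [hE]
      have : 0 ≤ d * n * ((1 + Real.log T) * Real.log T) := by positivity
      linarith)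
    (by
      rw [hE, hd]
      exact none_bound a T _ (hlaw (fun _ => 1) (Or.inr rfl) none))
  obtain ⟨hrk, hdiff⟩ := hdet
  intro R' b' hR' hb'
  have hN0 : (0 : ℝ) ≤ D.N := Nat.cast_nonneg _
  -- the averages
  have hM1 := average_close (F := M) hN0 (fun v => tn_abs D.le hb' v) T (by omega)
  have hK1 := average_close (F := K) hN0 (fun v => tn_abs D.le D.trace v) T (by omega)
  have hM2 : SS (K := M) T (fun p _ ψ => tn D.m R' b' (hv ψ) * Real.log p) =
      D.N * SS (K := M) T (fun p _ ψ => wt D (hv (ψ.comp (algebraMap (𝓞 K) (𝓞 M)))) * Real.log p) := by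
    rw [← SS_smul]
    refine SS_congr T fun p _ ψ _ => ?_
    rw [tn_base D.le D.trace hb' hR' p ψ, wt_mul, mul_assoc]
  have hK2 : SS (K := K) T (fun p _ φ => tn D.m D.R D.b (hv φ) * Real.log p) =
      D.N * SS (K := K) T (fun p _ φ => wt D (hv φ) * Real.log p) := by
    rw [← SS_smul]
    refine SS_congr T fun p _ φ _ => ?_
    rw [wt_mul, mul_assoc]
  rw [hM2] at hM1
  rw [hK2] at hK1
  -- the growth
  have hsq : Real.sqrt T ≤ (T : ℝ) ^ (1 / 2 + δ / 2) := by
    rw [Real.sqrt_eq_rpow]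
    exact Real.rpow_le_rpow_of_exponent_le hT1' (by linarith)
  have hP : 0 ≤ (T : ℝ) ^ (1 / 2 + δ / 2) := by positivity
  have hlogs : 1 + Real.log T ≤ 3 * (T : ℝ) ^ (1 / 2 + δ / 2) := by
    have h1 : Real.log T ≤ 2 * Real.sqrt T := by
      have h2 : Real.log T = 2 * Real.log (Real.sqrt T) := by
        rw [Real.log_sqrt hT0.le]
        ring
      have h3 := Real.log_le_sub_one_of_pos (Real.sqrt_pos.2 hT0)
      rw [h2]
      linarith
    have h2 : 1 ≤ Real.sqrt T := Real.one_le_sqrt.2 hT1'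
    linarith
  have hgrow : C * E + (C + d) * (Real.sqrt T * Real.log T) ≤ (T : ℝ) ^ (1 / 2 + δ) := by
    refine le_trans ?_ (hT₁ T (by omega))
    have e1 : E ≤ (1 + 3 * (d * n)) * ((T : ℝ) ^ (1 / 2 + δ / 2) * Real.log T) := by
      rw [hE]
      have f1 : (T : ℝ) ^ (1 / 2 + δ / 2) ≤ (T : ℝ) ^ (1 / 2 + δ / 2) * Real.log T :=
        le_mul_of_one_le_right hP hlog1
      have f2 : d * n * ((1 + Real.log T) * Real.log T) ≤
          d * n * ((3 * (T : ℝ) ^ (1 / 2 + δ / 2)) * Real.log T) := by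
        apply mul_le_mul_of_nonneg_left _ (by positivity)
        exact mul_le_mul_of_nonneg_right hlogs (by linarith)
      nlinarith
    have e2 : Real.sqrt T * Real.log T ≤ (T : ℝ) ^ (1 / 2 + δ / 2) * Real.log T :=
      mul_le_mul_of_nonneg_right hsq (by linarith)
    have e3 := mul_le_mul_of_nonneg_left e1 hC0
    have e4 := mul_le_mul_of_nonneg_left e2 (show 0 ≤ C + d by positivity)
    nlinarith
  have hmain : |(T : ℝ) * average D.m R' b' T - (T : ℝ) * average D.m D.R D.b T| ≤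
      D.N * (T : ℝ) ^ (1 / 2 + δ) := by
    have e1 : |D.N * SS (K := M) T (fun p _ ψ => wt D (hv (ψ.comp (algebraMap (𝓞 K) (𝓞 M)))) * Real.log p) -
        D.N * SS (K := K) T (fun p _ φ => wt D (hv φ) * Real.log p)| ≤ D.N * (C * E) := by
      rw [← mul_sub, abs_mul, Nat.abs_cast]
      exact mul_le_mul_of_nonneg_left hdiff hN0
    have hsl : 0 ≤ Real.sqrt T * Real.log T := by positivity
    have e2 : (D.N : ℝ) * (Module.finrank ℚ M * (Real.sqrt T * Real.log T)) ≤
        D.N * (C * (Real.sqrt T * Real.log T)) :=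
      mul_le_mul_of_nonneg_left (mul_le_mul_of_nonneg_right hrk hsl) hN0
    rw [← hd] at hK1
    have e3 := mul_le_mul_of_nonneg_left hgrow hN0
    have f1 := abs_le.1 hM1
    have f2 := abs_le.1 hK1
    have f3 := abs_le.1 e1
    rw [abs_le]
    constructor <;> nlinarith
  have hfin : |average D.m R' b' T - average D.m D.R D.b T| * T ≤ D.N * (T : ℝ) ^ (1 / 2 + δ) := by
    rw [← mul_sub, abs_mul, abs_of_pos hT0] at hmain
    linarith
  have h9 : (D.N : ℝ) * (T : ℝ) ^ (1 / 2 + δ) = D.N * (T : ℝ) ^ (-(1 / 2) + δ) * T := by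
    have : (T : ℝ) ^ (1 / 2 + δ) = (T : ℝ) ^ (-(1 / 2) + δ) * T := by
      rw [← Real.rpow_add_one hT0.ne']
      congr 1
      ring
    rw [this, mul_assoc]
  rw [h9] at hfin
  exact le_of_mul_le_mul_right hfin hT0

end

end Pool.Agent.H40SY
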