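import Pool.Agent.H40SY.Fin
import Pool.Agent.W353.SP.NMain

/-! The Galois group is the symmetric group. -/

set_option autoImplicit false

namespace Pool.Agent.H40SY

open NumberField IsDedekindDomain Polynomial Finset Filter Topology
open Pool.Agent.W401.Cheb (GK IsFrob)
open Pool.Agent.W353.NF (absNorm_ker)
open Pool.Agent.N842.HS (hv absNorm_hv hv_inj hv_surj VT mem_VT hom_finite cf)
open Pool.Agent.N842.ST (av)

/-- A subgroup of a finite group which meets all conjugacy classes is the whole group (a copy of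
`Pool.Agent.R931.ZL.jordan`). -/
theorem jordan {G : Type} [Group G] [Finite G] (H : Subgroup G)
    (h : ∀ g : G, ∃ x : G, x⁻¹ * g * x ∈ H) : H = ⊤ := by
  classical
  let _ : Fintype G := Fintype.ofFinite G
  let _ : Fintype (Quotient (MulAction.orbitRel G (G ⧸ H))) := Fintype.ofFinite _
  have h1 := MulAction.sum_card_fixedBy_eq_card_orbits_mul_card_group (G := G) (X := G ⧸ H)
  have h2 : Fintype.card (Quotient (MulAction.orbitRel G (G ⧸ H))) = 1 := by
    have h3 : Subsingleton (Quotient (MulAction.orbitRel G (G ⧸ H))) :=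
      (MulAction.pretransitive_iff_subsingleton_quotient G (G ⧸ H)).1 inferInstance
    have h4 : Nonempty (Quotient (MulAction.orbitRel G (G ⧸ H))) :=
      ⟨Quotient.mk _ (QuotientGroup.mk 1)⟩
    exact Fintype.card_eq_one_iff_nonempty_unique.2 ⟨⟨⟨Classical.choice h4⟩, fun a =>
      Subsingleton.elim _ _⟩⟩
  rw [h2, one_mul] at h1
  have h3 : ∀ g : G, 1 ≤ Fintype.card (MulAction.fixedBy (G ⧸ H) g) := by
    intro g
    obtain ⟨x, hx⟩ := h g
    refine Fintype.card_pos_iff.2 ⟨⟨QuotientGroup.mk x, ?_⟩⟩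
    rw [MulAction.mem_fixedBy]
    change (QuotientGroup.mk (g * x) : G ⧸ H) = QuotientGroup.mk x
    rw [eq_comm, QuotientGroup.eq, ← mul_assoc]
    exact hx
  have h4 : Fintype.card (MulAction.fixedBy (G ⧸ H) (1 : G)) = 1 := by
    by_contra hne
    have h5 : ∑ _g : G, 1 < ∑ g : G, Fintype.card (MulAction.fixedBy (G ⧸ H) g) := by
      refine Finset.sum_lt_sum (fun g _ => h3 g) ⟨1, Finset.mem_univ 1, ?_⟩
      exact lt_of_le_of_ne (h3 1) (Ne.symm hne)
    rw [h1, Finset.sum_const, smul_eq_mul, mul_one, Finset.card_univ] at h5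
    exact lt_irrefl _ h5
  have h5 : Subsingleton (MulAction.fixedBy (G ⧸ H) (1 : G)) :=
    Fintype.card_le_one_iff_subsingleton.1 h4.le
  rw [eq_top_iff]
  intro g _
  have h6 : ∀ y : G ⧸ H, y ∈ MulAction.fixedBy (G ⧸ H) (1 : G) := fun y => by
    rw [MulAction.mem_fixedBy, one_smul]
  have h7 : (QuotientGroup.mk g : G ⧸ H) = QuotientGroup.mk 1 :=
    congrArg Subtype.val (h5.elim ⟨QuotientGroup.mk g, h6 _⟩ ⟨QuotientGroup.mk 1, h6 _⟩)
  rw [eq_comm, QuotientGroup.eq, inv_one, one_mul] at h7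
  exact h7

section
variable {K : Type} [Field K] [NumberField K] {n : ℕ} {a : Fin n → 𝓞 K}
  {θ : Fin n → 𝓞 (AlgebraicClosure K)}

/-- The Frobenius element at a prime modulo which the polynomial is separable. -/
theorem frob_perm (h : Roots a θ) {p : ℕ} [Fact p.Prime] (φ : 𝓞 K →+* ZMod p)
    (hsep : (mp (fun i => φ (a i))).Separable) : Function.Injective θ ∧
    ∃ (σ : GK K) (π : Equiv.Perm (Fin n)), (∀ i, σ • θ i = θ (π i)) ∧
      ∀ (r : ℕ) (lam : Fin r → ℕ), ∑ b, lam b = n → G lam (fun i => φ (a i)) = Z lam π := by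
  have hφ : RingHom.ker φ = (hv φ).asIdeal := rfl
  obtain ⟨σ, hσ⟩ := Pool.Agent.W401.Frob.exists_frob (hv φ)
  obtain ⟨Q, hQm, hQv, hQ⟩ := id hσ
  obtain ⟨ι, h1, h2⟩ := roots_mod h φ hφ hsep Q hQm hQv
  have hinj : Function.Injective θ := fun i j hij => h2 (congrArg (Ideal.Quotient.mk Q) hij)
  obtain ⟨π, hπ⟩ := h.perm hinj σ
  refine ⟨hinj, σ, π, hπ, fun r lam hl => ?_⟩
  let _ : Field (𝓞 (AlgebraicClosure K) ⧸ Q) := Ideal.Quotient.field Q
  refine G_eq_Z ι (fun i => φ (a i)) (fun i => Ideal.Quotient.mk Q (θ i)) h2 h1 π (fun i => ?_) lam hl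
  have h3 := hQ (θ i)
  rw [absNorm_ker φ hφ, hπ] at h3
  have h4 := (Ideal.Quotient.mk_eq_mk_iff_sub_mem _ _).2 h3
  rw [h4, map_pow]

omit [NumberField K] in
/-- the converse of `sym_data` -/
theorem sym_of (h : Roots a θ) (hinj : Function.Injective θ) (hs : Sym θ) : IsSymmetric (mp a) := by
  classical
  let e : Fin n → rootsOf (mp a) := fun i => ⟨θ i, (mem_rootsOf h _).2 ⟨i, rfl⟩⟩
  have hbij : Function.Bijective e := by
    constructor
    · intro i j hij
      have h1 : (e i : AlgebraicClosure K) = e j := by rw [hij]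
      exact hinj (RingOfIntegers.ext h1)
    · rintro ⟨x, hx⟩
      obtain ⟨i, hi⟩ := (mem_rootsOf h x).1 hx
      exact ⟨i, Subtype.ext hi⟩
  let e' : Fin n ≃ rootsOf (mp a) := Equiv.ofBijective e hbij
  refine ⟨?_, fun π => ?_⟩
  · rw [mp_natDegree, ← Nat.card_congr e', Nat.card_fin]
  · obtain ⟨σ, hσ⟩ := hs ((e'.trans π).trans e'.symm)
    refine ⟨σ, fun x => ?_⟩
    obtain ⟨i, rfl⟩ := e'.surjective x
    have h1 := congrArg (fun z : 𝓞 (AlgebraicClosure K) => (z : AlgebraicClosure K)) (hσ i)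
    have h2 : σ (θ i : AlgebraicClosure K) = (θ (e'.symm (π (e' i))) : AlgebraicClosure K) := h1
    have h3 : ((e' (e'.symm (π (e' i))) : rootsOf (mp a)) : AlgebraicClosure K) =
        (θ (e'.symm (π (e' i))) : AlgebraicClosure K) := rfl
    rw [e'.apply_symm_apply] at h3
    show σ (θ i : AlgebraicClosure K) = _
    rw [h2, h3]

omit [NumberField K] in
/-- The Galois group is the symmetric group if it contains all types of permutations. -/
theorem sym_of_types (hty : ∀ π₀ : Equiv.Perm (Fin n), ∃ (π : Equiv.Perm (Fin n)) (σ : GK K), IsConj π₀ π ∧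
      ∀ i, σ • θ i = θ (π i)) : Sym θ := by
  classical
  let H : Subgroup (Equiv.Perm (Fin n)) :=
    { carrier := {π | ∃ σ : GK K, ∀ i, σ • θ i = θ (π i)}
      mul_mem' := by
        rintro π ρ ⟨σ, hσ⟩ ⟨τ, hτ⟩
        refine ⟨σ * τ, fun i => ?_⟩
        rw [mul_smul, hτ, hσ]
        rfl
      one_mem' := ⟨1, fun i => by rw [one_smul]; rfl⟩
      inv_mem' := by
        rintro π ⟨σ, hσ⟩
        refine ⟨σ⁻¹, fun i => ?_⟩
        rw [inv_smul_eq_iff, hσ]
        congr 1
        exact (π.apply_symm_apply i).symm }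
  have hH : H = ⊤ := by
    refine jordan H fun π₀ => ?_
    obtain ⟨π, σ, hc, hσ⟩ := hty π₀
    obtain ⟨c, hc⟩ := isConj_iff.1 hc
    refine ⟨c⁻¹, σ, ?_⟩
    rw [inv_inv, hc]
    exact hσ
  intro π
  have : π ∈ H := by
    rw [hH]
    exact Subgroup.mem_top π
  exact this

end

section
variable {K : Type} [Field K] [NumberField K] {n : ℕ}

variable (K) in
/-- the prime ideal theorem -/
theorem SS_lower : ∃ T₀ : ℕ, ∀ T : ℕ, T₀ ≤ T → (T : ℝ) / 2 ≤ SS (K := K) T (fun p _ _ => Real.log p) := by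
  classical
  have hav : Tendsto (fun T : ℕ => Pool.Agent.W353.SP.average 0 ∅ (fun _ : HeightOneSpectrum (𝓞 K) => (1 : ℂ)) T)
      atTop (𝓝 1) := by
    have h1 := Pool.Agent.W353.SP.LA_EN (F := K) ∅ (φ := fun _ => (1 : ℝ)) (ψ := fun _ => (1 : ℝ))
      ⟨1, fun v => by rw [abs_one]⟩ fun v _ => rfl
    have h2 : Tendsto (fun T : ℕ => Pool.Agent.W353.SP.EN K T (fun _ => (1 : ℝ))) atTop (𝓝 1) := by
      have h3 := Pool.Agent.H126U.card_VX (K := K)
      refine h3.congr fun T => ?_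
      rw [Pool.Agent.W353.SP.EN_eq, sum_const, nsmul_eq_mul, mul_one]
      rfl
    have h4 := h1.add h2
    rw [zero_add] at h4
    refine h4.congr fun T => ?_
    rw [Pool.Agent.W353.SP.average_eq]
    simp
  have hlog : Tendsto (fun T : ℕ => Real.log T / Real.sqrt T) atTop (𝓝 0) := by
    have h1 := isLittleO_log_rpow_atTop (show (0 : ℝ) < 1 / 2 by norm_num)
    have h2 := h1.tendsto_div_nhds_zero.comp tendsto_natCast_atTop_atTop
    refine h2.congr fun T => ?_
    rw [Function.comp_apply, Real.sqrt_eq_rpow]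
  obtain ⟨d, hd⟩ : ∃ d : ℝ, d = Module.finrank ℚ K := ⟨_, rfl⟩
  have hev := (hav.eventually (lt_mem_nhds (show (3 / 4 : ℝ) < 1 by norm_num))).and
    ((hlog.const_mul d).eventually (gt_mem_nhds (show d * 0 < (1 / 4 : ℝ) by norm_num)))
  obtain ⟨T₀, hT₀⟩ := eventually_atTop.1 hev
  refine ⟨T₀ + 1, fun T hT => ?_⟩
  obtain ⟨h1, h2⟩ := hT₀ T (by omega)
  have hT0 : (0 : ℝ) < T := by exact_mod_cast (by omega : 0 < T)
  have h3 := average_close (F := K) (m := 0) (R := ∅) (b := fun _ => (1 : ℂ)) (B := 1) zero_le_one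
    (fun v => by
      unfold tn
      rw [if_neg (notMem_empty v)]
      simp) T (by omega)
  have h4 : SS (K := K) T (fun p _ φ => tn 0 ∅ (fun _ => (1 : ℂ)) (hv φ) * Real.log p) =
      SS (K := K) T (fun p _ _ => Real.log p) := by
    refine SS_congr T fun p _ φ _ => ?_
    unfold tn
    rw [if_neg (notMem_empty _)]
    simp
  rw [h4, one_mul, ← hd] at h3
  have h5 := (abs_le.1 h3).2
  have h6 : d * (Real.sqrt T * Real.log T) ≤ 1 / 4 * T := by
    have hs : 0 < Real.sqrt T := Real.sqrt_pos.2 hT0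
    have e : d * (Real.sqrt T * Real.log T) = d * (Real.log T / Real.sqrt T) * T := by
      have e2 : Real.sqrt T * Real.sqrt T = (T : ℝ) := Real.mul_self_sqrt hT0.le
      have e3 : Real.log T / Real.sqrt T * (Real.sqrt T * Real.sqrt T) = Real.sqrt T * Real.log T := by
        field_simp
      rw [mul_assoc, ← e3, e2]
    rw [e]
    exact mul_le_mul_of_nonneg_right h2.le hT0.le
  nlinarith

end

end Pool.Agent.H40SY
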