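import Pool.Agent.H40SY.Rts
import Pool.Agent.H40SY.Grp

/-! The numbers of the fixed points of permutations. -/

set_option autoImplicit false

namespace Pool.Agent.H40SY

open Finset

section
variable {n : ℕ}

open Classical in
/-- the number of the permutations with `i ↦ k`, `j ↦ l` -/
noncomputable def cc (i j k l : Fin n) : ℕ :=
  (univ.filter fun π : Equiv.Perm (Fin n) => π i = k ∧ π j = l).card

theorem cc_mul (τ : Equiv.Perm (Fin n)) (i j k l : Fin n) : cc i j (τ k) (τ l) = cc i j k l := by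
  classical
  unfold cc
  refine (card_bij (fun π _ => τ * π) ?_ ?_ ?_).symm
  · intro π hπ
    rw [mem_filter] at hπ ⊢
    refine ⟨mem_univ _, ?_, ?_⟩
    · rw [Equiv.Perm.mul_apply, hπ.2.1]
    · rw [Equiv.Perm.mul_apply, hπ.2.2]
  · intro π _ π' _ h
    exact mul_left_cancel h
  · intro π hπ
    rw [mem_filter] at hπ
    refine ⟨τ⁻¹ * π, ?_, by rw [mul_inv_cancel_left]⟩
    rw [mem_filter]
    refine ⟨mem_univ _, ?_, ?_⟩
    · rw [Equiv.Perm.mul_apply, hπ.2.1]
      exact τ.symm_apply_apply k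
    · rw [Equiv.Perm.mul_apply, hπ.2.2]
      exact τ.symm_apply_apply l

theorem exists_two (i j k l : Fin n) (hij : i ≠ j) (hkl : k ≠ l) :
    ∃ τ : Equiv.Perm (Fin n), τ i = k ∧ τ j = l := by
  refine ⟨Equiv.swap (Equiv.swap i k j) l * Equiv.swap i k, ?_, ?_⟩
  · rw [Equiv.Perm.mul_apply, Equiv.swap_apply_left]
    apply Equiv.swap_apply_of_ne_of_ne _ hkl
    intro h
    apply hij
    apply (Equiv.swap i k).injective
    rw [Equiv.swap_apply_left]
    exact h
  · rw [Equiv.Perm.mul_apply, Equiv.swap_apply_left]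

theorem sum_diag (h0 : 0 < n) : ∑ i : Fin n, (cc i i i i : ℝ) = n.factorial := by
  classical
  have h1 : ∀ i : Fin n, (n : ℝ) * cc i i i i = n.factorial := by
    intro i
    have h2 : ∑ k : Fin n, cc i i k k = n.factorial := by
      unfold cc
      have h3 : ∀ k : Fin n, (univ.filter fun π : Equiv.Perm (Fin n) => π i = k ∧ π i = k) =
          univ.filter fun π : Equiv.Perm (Fin n) => π i = k := fun k =>
        filter_congr fun π _ => and_self_iff
      simp only [h3]
      rw [← card_eq_sum_card_fiberwise (f := fun π : Equiv.Perm (Fin n) => π i) (s := univ) (t := univ)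
        (fun π _ => mem_univ _), card_univ, Fintype.card_perm, Fintype.card_fin]
    have h3 : ∀ k : Fin n, cc i i k k = cc i i i i := by
      intro k
      have := cc_mul (Equiv.swap i k) i i i i
      rwa [Equiv.swap_apply_left] at this
    rw [sum_congr rfl fun k _ => h3 k, sum_const, card_univ, Fintype.card_fin, smul_eq_mul] at h2
    exact_mod_cast h2
  have hn : (n : ℝ) ≠ 0 := by exact_mod_cast h0.ne'
  have h2 : ∀ i : Fin n, (cc i i i i : ℝ) = n.factorial / n := by
    intro i
    rw [eq_div_iff hn, ← h1 i]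
    ring
  rw [sum_congr rfl fun i _ => h2 i, sum_const, card_univ, Fintype.card_fin, nsmul_eq_mul]
  field_simp

theorem sum_off (h0 : 2 ≤ n) : ∑ x ∈ (univ : Finset (Fin n)).offDiag, (cc x.1 x.2 x.1 x.2 : ℝ) =
    n.factorial := by
  classical
  have hcard : ((univ : Finset (Fin n)).offDiag.card : ℝ) ≠ 0 := by
    have h1 : 0 < (univ : Finset (Fin n)).offDiag.card := by
      refine card_pos.2 ⟨(⟨0, by omega⟩, ⟨1, by omega⟩), ?_⟩
      rw [mem_offDiag]
      refine ⟨mem_univ _, mem_univ _, ?_⟩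
      simp
    exact_mod_cast h1.ne'
  have h1 : ∀ x ∈ (univ : Finset (Fin n)).offDiag,
      (cc x.1 x.2 x.1 x.2 : ℝ) = n.factorial / (univ : Finset (Fin n)).offDiag.card := by
    intro x hx
    rw [mem_offDiag] at hx
    have h2 : ∑ y ∈ (univ : Finset (Fin n)).offDiag, cc x.1 x.2 y.1 y.2 = n.factorial := by
      have h4 := card_eq_sum_card_fiberwise (f := fun π : Equiv.Perm (Fin n) => (π x.1, π x.2))
        (s := univ) (t := (univ : Finset (Fin n)).offDiag) (fun π _ => by
          rw [mem_coe, mem_offDiag]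
          exact ⟨mem_univ _, mem_univ _, fun h => hx.2.2 (π.injective h)⟩)
      rw [card_univ, Fintype.card_perm, Fintype.card_fin] at h4
      rw [h4]
      refine sum_congr rfl fun y _ => ?_
      unfold cc
      congr 1
      refine filter_congr fun π _ => ?_
      rw [Prod.ext_iff]
    have h3 : ∀ y ∈ (univ : Finset (Fin n)).offDiag, cc x.1 x.2 y.1 y.2 = cc x.1 x.2 x.1 x.2 := by
      intro y hy
      rw [mem_offDiag] at hy
      obtain ⟨τ, hτ1, hτ2⟩ := exists_two x.1 x.2 y.1 y.2 hx.2.2 hy.2.2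
      rw [← cc_mul τ x.1 x.2 x.1 x.2, hτ1, hτ2]
    rw [sum_congr rfl h3, sum_const, smul_eq_mul] at h2
    rw [eq_div_iff hcard, ← h2]
    push_cast
    ring
  rw [sum_congr rfl h1, sum_const, nsmul_eq_mul]
  field_simp

/-- the number of the fixed points -/
noncomputable def fx (π : Equiv.Perm (Fin n)) : ℕ := Nat.card {i : Fin n // π i = i}

open Classical in
theorem fx_eq (π : Equiv.Perm (Fin n)) : fx π = ∑ i : Fin n, if π i = i then 1 else 0 := by
  unfold fx
  rw [Nat.card_eq_fintype_card, Fintype.card_subtype, card_filter]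

theorem fx_le (π : Equiv.Perm (Fin n)) : fx π ≤ n := by
  classical
  unfold fx
  rw [Nat.card_eq_fintype_card]
  refine (Fintype.card_subtype_le _).trans ?_
  rw [Fintype.card_fin]

theorem fx_conj (π u : Equiv.Perm (Fin n)) : fx (u * π * u⁻¹) = fx π := by
  unfold fx
  refine Nat.card_congr (Equiv.subtypeEquiv u.symm fun i => ?_)
  show u (π (u.symm i)) = i ↔ π (u.symm i) = u.symm i
  rw [Equiv.eq_symm_apply]

theorem fx_sq_conj (π u : Equiv.Perm (Fin n)) : fx ((u * π * u⁻¹) ^ 2) = fx (π ^ 2) := by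
  rw [← fx_conj (π ^ 2) u]
  congr 1
  rw [pow_two, pow_two]
  group

/-- the mean values -/
theorem mean_fx (h0 : 0 < n) : ∑ π : Equiv.Perm (Fin n), (fx π : ℝ) = n.factorial := by
  classical
  rw [← sum_diag h0]
  simp only [fx_eq]
  push_cast
  rw [sum_comm]
  refine sum_congr rfl fun i _ => ?_
  unfold cc
  rw [card_filter]
  push_cast
  refine sum_congr rfl fun π _ => ?_
  by_cases h : π i = i
  · rw [if_pos h, if_pos ⟨h, h⟩]
  · rw [if_neg h, if_neg fun h' => h h'.1]

theorem sum_cc (h0 : 2 ≤ n) : ∑ i : Fin n, ∑ j : Fin n, (cc i j i j : ℝ) = 2 * n.factorial := by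
  classical
  rw [← Finset.sum_product', ← Finset.diag_union_offDiag, sum_union (disjoint_diag_offDiag _),
    sum_off h0, Finset.sum_diag, sum_diag (by omega)]
  ring

theorem mean_fx_sq (h0 : 2 ≤ n) : ∑ π : Equiv.Perm (Fin n), ((fx π ^ 2 : ℕ) : ℝ) = 2 * n.factorial := by
  classical
  rw [← sum_cc h0]
  have h1 : ∀ π : Equiv.Perm (Fin n), ((fx π ^ 2 : ℕ) : ℝ) =
      ∑ i : Fin n, ∑ j : Fin n, if π i = i ∧ π j = j then 1 else 0 := by
    intro π
    rw [fx_eq]
    push_cast
    rw [pow_two, sum_mul_sum]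
    refine sum_congr rfl fun i _ => sum_congr rfl fun j _ => ?_
    by_cases h : π i = i <;> by_cases h' : π j = j <;> simp [h, h']
  rw [sum_congr rfl fun π _ => h1 π, sum_comm]
  refine sum_congr rfl fun i _ => ?_
  rw [sum_comm]
  refine sum_congr rfl fun j _ => ?_
  unfold cc
  rw [card_filter]
  push_cast
  rfl

theorem mean_fx_two (h0 : 2 ≤ n) : ∑ π : Equiv.Perm (Fin n), (fx (π ^ 2) : ℝ) = 2 * n.factorial := by
  classical
  rw [← sum_cc h0]
  have h1 : ∀ π : Equiv.Perm (Fin n), (fx (π ^ 2) : ℝ) =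
      ∑ i : Fin n, ∑ j : Fin n, if π i = j ∧ π j = i then 1 else 0 := by
    intro π
    rw [fx_eq]
    push_cast
    refine sum_congr rfl fun i _ => ?_
    rw [Finset.sum_eq_single (π i)]
    · simp [Function.iterate_succ]
    · intro j _ hj
      rw [if_neg fun h => hj h.1.symm]
    · intro h
      exact absurd (mem_univ _) h
  rw [sum_congr rfl fun π _ => h1 π, sum_comm]
  refine sum_congr rfl fun i _ => ?_
  rw [sum_comm]
  refine sum_congr rfl fun j _ => ?_
  have h2 : cc i j j i = cc i j i j := by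
    have := cc_mul (Equiv.swap i j) i j i j
    rwa [Equiv.swap_apply_left, Equiv.swap_apply_right] at this
  rw [← h2]
  unfold cc
  rw [card_filter]
  push_cast
  rfl

end

end Pool.Agent.H40SY
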