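import Pool.Agent.W353.SN.Step
import Pool.Agent.H40SY.Color

/-! The class functions on the symmetric group are spanned by the numbers of the invariant colourings. -/

set_option autoImplicit false

namespace Pool.Agent.H40SY

open Finset Equiv Equiv.Perm
open Pool.Agent.W353.SN (young cyc cyc_lt conj_of_same mem_young refine_young)

/-- numbers of the elements of the colours -/
def sizes {r n : ℕ} (c : Fin n → Fin r) (a : Fin r) : ℕ := (univ.filter fun i => c i = a).card

theorem sum_sizes {r n : ℕ} (c : Fin n → Fin r) : ∑ a, sizes c a = n := sum_fib c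

section
variable {r n : ℕ}

/-- two colourings with the same numbers differ by a permutation -/
theorem same_sizes {c c' : Fin n → Fin r} (h : ∀ a, sizes c a = sizes c' a) :
    ∃ u : Perm (Fin n), ∀ i, c' (u i) = c i := by
  classical
  have e : ∀ a, Nonempty ({i // c i = a} ≃ {i // c' i = a}) := by
    intro a
    refine ⟨Fintype.equivOfCardEq ?_⟩
    rw [Fintype.card_subtype, Fintype.card_subtype]
    exact h a
  exact ⟨Equiv.ofFiberEquiv (fun a => (e a).some), fun i => Equiv.ofFiberEquiv_map (fun a => (e a).some) i⟩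

/-- the invariant colourings -/
theorem Z_eq_sum (c₀ : Fin n → Fin r) (π : Perm (Fin n)) :
    Z (sizes c₀) π = ∑ c ∈ univ.filter (fun c : Fin n → Fin r => ∀ a, sizes c a = sizes c₀ a),
      if (∀ i, c (π i) = c i) then 1 else 0 := by
  classical
  unfold Z
  rw [Nat.card_eq_fintype_card, Fintype.card_subtype, ← Finset.sum_filter, Finset.sum_const,
    smul_eq_mul, mul_one, Finset.filter_filter]
  congr 1
  refine Finset.filter_congr fun c _ => ?_
  exact and_comm

theorem Z_conj (lam : Fin r → ℕ) (π u : Perm (Fin n)) : Z lam (u * π * u⁻¹) = Z lam π := by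
  classical
  unfold Z
  refine Nat.card_congr (Equiv.subtypeEquiv
    { toFun := fun c => c ∘ u
      invFun := fun c => c ∘ u.symm
      left_inv := fun c => by
        funext i
        show c (u (u.symm i)) = c i
        rw [u.apply_symm_apply]
      right_inv := fun c => by
        funext i
        show c (u.symm (u i)) = c i
        rw [u.symm_apply_apply] } fun c => ?_)
  show ((∀ i, c (u (π (u.symm i))) = c i) ∧ _) ↔ ((∀ i, c (u (π i)) = c (u i)) ∧
    ∀ a, (univ.filter fun i => c (u i) = a).card = lam a)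
  refine and_congr ?_ ?_
  · constructor
    · intro h i
      have h1 := h (u i)
      rwa [u.symm_apply_apply] at h1
    · intro h i
      have h1 := h (u.symm i)
      rwa [u.apply_symm_apply] at h1
  · refine forall_congr' fun a => ?_
    have h1 : (univ.filter fun i => c (u i) = a).card = (univ.filter fun i => c i = a).card := by
      refine Finset.card_bij (fun i _ => u i) ?_ ?_ ?_
      · intro i hi
        rw [mem_filter] at hi ⊢
        exact ⟨mem_univ _, hi.2⟩
      · intro i _ j _ h
        exact u.injective h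
      · intro j hj
        rw [mem_filter] at hj
        refine ⟨u.symm j, ?_, u.apply_symm_apply j⟩
        rw [mem_filter]
        refine ⟨mem_univ _, ?_⟩
        rw [u.apply_symm_apply]
        exact hj.2
    rw [h1]

/-- the pairing with a class function -/
theorem sum_Z (c₀ : Fin n → Fin r) (η : Perm (Fin n) → ℝ) (hcl : ∀ g u, η (u * g * u⁻¹) = η g) :
    ∑ π, η π * (Z (sizes c₀) π : ℝ) =
      (univ.filter (fun c : Fin n → Fin r => ∀ a, sizes c a = sizes c₀ a)).card *
        ∑ ρ ∈ univ.filter (fun ρ : Perm (Fin n) => ∀ i, c₀ (ρ i) = c₀ i), η ρ := by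
  classical
  have h1 : ∀ π : Perm (Fin n), η π * (Z (sizes c₀) π : ℝ) =
      ∑ c ∈ univ.filter (fun c : Fin n → Fin r => ∀ a, sizes c a = sizes c₀ a),
        if (∀ i, c (π i) = c i) then η π else 0 := by
    intro π
    rw [Z_eq_sum]
    push_cast
    rw [Finset.mul_sum]
    refine Finset.sum_congr rfl fun c _ => ?_
    split_ifs <;> simp
  rw [Finset.sum_congr rfl fun π _ => h1 π, Finset.sum_comm, Finset.sum_congr rfl (g := fun _ =>
    ∑ ρ ∈ univ.filter (fun ρ : Perm (Fin n) => ∀ i, c₀ (ρ i) = c₀ i), η ρ), Finset.sum_const, nsmul_eq_mul]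
  intro c hc
  obtain ⟨u, hu⟩ := same_sizes (mem_filter.1 hc).2
  rw [← Finset.sum_filter]
  refine Finset.sum_bij (fun π _ => u * π * u⁻¹) ?_ ?_ ?_ ?_
  · intro π hπ
    rw [mem_filter] at hπ ⊢
    refine ⟨mem_univ _, fun i => ?_⟩
    have h2 := hπ.2 (u⁻¹ i)
    rw [← hu, ← hu] at h2
    rw [Perm.mul_apply, Perm.mul_apply, h2]
    congr 1
    exact u.apply_symm_apply i
  · intro π _ π' _ h
    exact mul_left_cancel (mul_right_cancel h)
  · intro ρ hρ
    rw [mem_filter] at hρ
    refine ⟨u⁻¹ * ρ * u, ?_, by group⟩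
    rw [mem_filter]
    refine ⟨mem_univ _, fun i => ?_⟩
    rw [← hu, ← hu, Perm.mul_apply, Perm.mul_apply]
    have h2 : u (u⁻¹ (ρ (u i))) = ρ (u i) := u.apply_symm_apply _
    rw [h2]
    exact hρ.2 (u i)
  · intro π _
    exact (hcl π u).symm

/-- the mean value -/
theorem mean_Z (c₀ : Fin n → Fin r) : ∑ π : Perm (Fin n), (Z (sizes c₀) π : ℝ) = (n.factorial : ℝ) := by
  classical
  have h1 := sum_Z c₀ (fun _ => (1 : ℝ)) (fun _ _ => rfl)
  simp only [one_mul, Finset.sum_const, nsmul_eq_mul, mul_one] at h1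
  rw [h1]
  have h2 : (univ : Finset (Perm (Fin n))).card = n.factorial := by
    rw [card_univ, Fintype.card_perm, Fintype.card_fin]
  have h3 := Finset.card_eq_sum_card_fiberwise (f := fun u : Perm (Fin n) => c₀ ∘ u)
    (s := (univ : Finset (Perm (Fin n))))
    (t := univ.filter (fun c : Fin n → Fin r => ∀ a, sizes c a = sizes c₀ a)) (fun u _ => by
      rw [Finset.mem_coe, mem_filter]
      refine ⟨mem_univ _, fun a => ?_⟩
      unfold sizes
      refine Finset.card_bij (fun i _ => u i) ?_ ?_ ?_
      · intro i hi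
        rw [mem_filter] at hi ⊢
        exact ⟨mem_univ _, hi.2⟩
      · intro i _ j _ h
        exact u.injective h
      · intro j hj
        rw [mem_filter] at hj
        refine ⟨u.symm j, ?_, u.apply_symm_apply j⟩
        rw [mem_filter]
        refine ⟨mem_univ _, ?_⟩
        show c₀ (u (u.symm j)) = a
        rw [u.apply_symm_apply]
        exact hj.2)
  rw [h2, Finset.sum_congr rfl (g := fun _ =>
    (univ.filter (fun ρ : Perm (Fin n) => ∀ i, c₀ (ρ i) = c₀ i)).card), Finset.sum_const, smul_eq_mul] at h3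
  · rw [h3]
    push_cast
    rfl
  · intro c hc
    obtain ⟨u, hu⟩ := same_sizes (mem_filter.1 hc).2
    refine Finset.card_bij (fun π _ => π * u⁻¹) ?_ ?_ ?_
    · intro π hπ
      rw [mem_filter] at hπ ⊢
      refine ⟨mem_univ _, fun i => ?_⟩
      have h4 := congrFun hπ.2 (u⁻¹ i)
      rw [Function.comp_apply, ← hu] at h4
      rw [Perm.mul_apply, h4]
      congr 1
      exact u.apply_symm_apply i
    · intro π _ π' _ h
      exact mul_right_cancel h
    · intro ρ hρ
      rw [mem_filter] at hρ
      refine ⟨ρ * u, ?_, by group⟩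
      rw [mem_filter]
      refine ⟨mem_univ _, funext fun i => ?_⟩
      rw [Function.comp_apply, Perm.mul_apply, hρ.2, hu]

end

section
variable {n : ℕ}

/-- a class function orthogonal to the numbers of invariant colourings is zero -/
theorem orth_zero (η : Perm (Fin n) → ℝ) (hcl : ∀ g u, η (u * g * u⁻¹) = η g)
    (h : ∀ c : Fin n → Fin n, ∑ π, η π * (Z (sizes c) π : ℝ) = 0) : ∀ g, η g = 0 := by
  classical
  by_contra hcon
  push Not at hcon
  obtain ⟨g₁, hg₁⟩ := hcon
  obtain ⟨g, hg, hmax⟩ := Finset.exists_max_image (univ.filter fun g : Perm (Fin n) => η g ≠ 0) cyc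
    ⟨g₁, mem_filter.2 ⟨mem_univ _, hg₁⟩⟩
  have hg0 : η g ≠ 0 := (mem_filter.1 hg).2
  apply hg0
  let c₀ : Fin n → Fin n := fun x => (Quotient.mk (SameCycle.setoid g) x).out
  have hc₀ : ∀ x y, c₀ x = c₀ y ↔ g.SameCycle x y := by
    intro x y
    constructor
    · intro hxy
      have h1 : g.SameCycle (c₀ x) x := Quotient.mk_out (s := SameCycle.setoid g) x
      have h2 : g.SameCycle (c₀ y) y := Quotient.mk_out (s := SameCycle.setoid g) y
      rw [hxy] at h1
      exact h1.symm.trans h2
    · intro hxy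
      show (Quotient.mk (SameCycle.setoid g) x).out = (Quotient.mk (SameCycle.setoid g) y).out
      rw [Quotient.sound (s := SameCycle.setoid g) hxy]
  have h1 := h c₀
  rw [sum_Z c₀ η hcl] at h1
  have hcard : (0 : ℝ) < ((univ.filter (fun c : Fin n → Fin n => ∀ a, sizes c a = sizes c₀ a)).card : ℝ) := by
    exact_mod_cast Finset.card_pos.2 ⟨c₀, mem_filter.2 ⟨mem_univ _, fun _ => rfl⟩⟩
  have h2 : ∑ ρ ∈ univ.filter (fun ρ : Perm (Fin n) => ∀ i, c₀ (ρ i) = c₀ i), η ρ = 0 := by
    rcases mul_eq_zero.1 h1 with h3 | h3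
    · exact absurd h3 hcard.ne'
    · exact h3
  -- the permutations with the same cycles
  set A : Finset (Perm (Fin n)) := univ.filter fun h => ∀ x y, g.SameCycle x y ↔ h.SameCycle x y with hA
  have hAsub : A ⊆ univ.filter (fun ρ : Perm (Fin n) => ∀ i, c₀ (ρ i) = c₀ i) := by
    intro ρ hρ
    rw [hA, mem_filter] at hρ
    rw [mem_filter]
    refine ⟨mem_univ _, fun i => ?_⟩
    rw [hc₀]
    exact ((hρ.2 i (ρ i)).2 (sameCycle_apply_right.2 SameCycle.rfl)).symm
  rw [← Finset.sum_subset hAsub] at h2
  · have h3 : ∑ ρ ∈ A, η ρ = A.card * η g := by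
      rw [Finset.sum_congr rfl (g := fun _ => η g), Finset.sum_const, nsmul_eq_mul]
      intro ρ hρ
      rw [hA, mem_filter] at hρ
      obtain ⟨u, _, hu⟩ := conj_of_same hρ.2
      rw [← hu, hcl]
    rw [h3] at h2
    have hApos : (0 : ℝ) < A.card := by
      exact_mod_cast Finset.card_pos.2 ⟨g, by rw [hA, mem_filter]; exact ⟨mem_univ _, fun x y => Iff.rfl⟩⟩
    rcases mul_eq_zero.1 h2 with h4 | h4
    · exact absurd h4 hApos.ne'
    · exact h4
  · intro ρ hρ hρA
    rw [mem_filter] at hρ
    by_contra hne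
    have h5 : ρ ∈ young g := fun x => ((hc₀ _ _).1 (hρ.2 x)).symm
    have h6 : cyc g < cyc ρ := by
      apply cyc_lt h5
      by_contra hcon
      push Not at hcon
      apply hρA
      rw [hA, mem_filter]
      exact ⟨mem_univ _, fun x y => ⟨fun h1 => hcon x y h1, fun h1 => refine_young h5 h1⟩⟩
    have h7 := hmax ρ (mem_filter.2 ⟨mem_univ _, hne⟩)
    omega

/-- **The span.** -/
theorem span_Z (η : Perm (Fin n) → ℝ) (hcl : ∀ g u, η (u * g * u⁻¹) = η g) :
    ∃ a : (Fin n → Fin n) → ℝ, ∀ π, η π = ∑ c, a c * (Z (sizes c) π : ℝ) := by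
  classical
  let V := EuclideanSpace ℝ (Perm (Fin n))
  let zc : (Fin n → Fin n) → V := fun c => WithLp.toLp 2 (fun π => (Z (sizes c) π : ℝ))
  let S : Submodule ℝ V := Submodule.span ℝ (Set.range zc)
  let e : V := WithLp.toLp 2 η
  have hScl : ∀ s ∈ S, ∀ g u : Perm (Fin n), s (u * g * u⁻¹) = s g := by
    intro s hs
    induction hs using Submodule.span_induction with
    | mem x hx =>
      obtain ⟨c, rfl⟩ := hx
      intro g u
      show (Z (sizes c) (u * g * u⁻¹) : ℝ) = Z (sizes c) g
      rw [Z_conj]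
    | zero => intro g u; rfl
    | add x y _ _ hx hy =>
      intro g u
      show x _ + y _ = x _ + y _
      rw [hx, hy]
    | smul t x _ hx =>
      intro g u
      show t * x _ = t * x _
      rw [hx]
  obtain ⟨s, hs, t, ht, hst⟩ := S.exists_add_mem_mem_orthogonal e
  have ht0 : ∀ g, t g = 0 := by
    refine orth_zero (fun g => t g) ?_ ?_
    · intro g u
      have h1 : ∀ g, t g = η g - s g := by
        intro g
        have := congrFun (congrArg (WithLp.ofLp) hst) g
        have h2 : η g = s g + t g := this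
        linarith
      rw [h1, h1, hcl, hScl s hs]
    · intro c
      have h1 : inner ℝ (zc c) t = 0 := ht (zc c) (Submodule.subset_span ⟨c, rfl⟩)
      rw [PiLp.inner_apply] at h1
      rw [← h1]
      refine Finset.sum_congr rfl fun π _ => ?_
      rfl
  have he : e = s := by
    rw [hst]
    ext g
    show s g + t g = s g
    rw [ht0, add_zero]
  have hmem : e ∈ S := by rw [he]; exact hs
  obtain ⟨a, ha⟩ := (Submodule.mem_span_range_iff_exists_fun ℝ).1 hmem
  refine ⟨a, fun π => ?_⟩
  have h1 := congrFun (congrArg (WithLp.ofLp) ha) π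
  have h2 : η π = (∑ c, a c • zc c).ofLp π := h1.symm
  have h3 : (∑ c, a c • zc c).ofLp π = (EuclideanSpace.proj π : V →L[ℝ] ℝ) (∑ c, a c • zc c) := rfl
  rw [h2, h3, map_sum]
  refine Finset.sum_congr rfl fun c _ => ?_
  rw [map_smul]
  rfl

end

end Pool.Agent.H40SY
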