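import Pool.Agent.W353.NF.Act
import Pool.Agent.W353.TP.Inum
import Pool.Agent.H40SY.Span

/-! The roots of a monic polynomial over the ring of integers, the fields inside its splitting field, and
the primes of degree one of these fields. -/

set_option autoImplicit false

namespace Pool.Agent.H40SY

open NumberField IsDedekindDomain Polynomial Finset
open Pool.Agent.W401.Cheb (GK IsFrob)
open Pool.Agent.W401.Frob (smul_alg coe_smul)
open Pool.Agent.W353.NF (oi oi_coe smul_oi oi_alg act fixn act_apply absNorm_ker exists_emb)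
open Pool.Agent.W353.TP (exists_rho)

section
variable {K : Type} [Field K] [NumberField K] {n : ℕ}

/-- the ring of all algebraic integers -/
abbrev BB (K : Type) [Field K] : Type := 𝓞 (AlgebraicClosure K)

/-- the roots of `mp a` -/
def Roots (a : Fin n → 𝓞 K) (θ : Fin n → 𝓞 (AlgebraicClosure K)) : Prop :=
  (mp a).map (algebraMap (𝓞 K) (𝓞 (AlgebraicClosure K))) = ∏ i, (X - C (θ i))

theorem fn_of_card {α : Type*} (s : Multiset α) (h : s.card = n) :
    ∃ t : Fin n → α, s = (univ : Finset (Fin n)).val.map t := by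
  obtain ⟨l, rfl⟩ := Quot.exists_rep s
  have h1 : l.length = n := h
  subst h1
  refine ⟨l.get, ?_⟩
  rw [Fin.univ_val_map, List.ofFn_get]
  rfl

theorem exists_roots (a : Fin n → 𝓞 K) : ∃ θ : Fin n → 𝓞 (AlgebraicClosure K), Roots a θ := by
  classical
  set A := AlgebraicClosure K
  set F0 : (𝓞 A)[X] := (mp a).map (algebraMap (𝓞 K) (𝓞 A)) with hF0
  have hF0m : F0.Monic := (mp_monic a).map _
  set F : A[X] := F0.map (algebraMap (𝓞 A) A) with hF
  have hFm : F.Monic := hF0m.map _
  have hFd : F.natDegree = n := by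
    rw [hF, natDegree_map_eq_of_injective RingOfIntegers.coe_injective, hF0,
      (mp_monic a).natDegree_map, mp_natDegree]
  have hspl : F.Splits := IsAlgClosed.splits F
  have hcard : F.roots.card = n := by
    rw [← hspl.natDegree_eq_card_roots, hFd]
  obtain ⟨t, ht⟩ := fn_of_card F.roots hcard
  have hint : ∀ i, IsIntegral ℤ (t i) := by
    intro i
    have h1 : t i ∈ F.roots := by
      rw [ht]
      exact Multiset.mem_map_of_mem t (Finset.mem_univ_val i)
    have h2 : IsIntegral (𝓞 A) (t i) := by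
      refine ⟨F0, hF0m, ?_⟩
      rw [mem_roots hFm.ne_zero, IsRoot.def, hF, eval_map] at h1
      exact h1
    exact isIntegral_trans (A := 𝓞 A) (t i) h2
  refine ⟨fun i => ⟨t i, hint i⟩, ?_⟩
  apply Polynomial.map_injective (algebraMap (𝓞 A) A) RingOfIntegers.coe_injective
  have h3 := hspl.eq_prod_roots_of_monic hFm
  rw [ht, Multiset.map_map] at h3
  show F = _
  rw [h3, Polynomial.map_prod]
  refine Finset.prod_congr rfl fun i _ => ?_
  rw [Polynomial.map_sub, map_X, map_C]
  rfl

variable {a : Fin n → 𝓞 K} {θ : Fin n → 𝓞 (AlgebraicClosure K)}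

theorem Roots.perm (h : Roots a θ) (hinj : Function.Injective θ) (g : GK K) :
    ∃ π : Equiv.Perm (Fin n), ∀ i, g • θ i = θ (π i) := by
  classical
  have h1 : ∀ i, ∃ j, g • θ i = θ j := by
    intro i
    have h2 : eval₂ (algebraMap (𝓞 K) (𝓞 (AlgebraicClosure K))) (θ i) (mp a) = 0 := by
      rw [← eval_map]
      unfold Roots at h
      rw [h, eval_prod]
      exact Finset.prod_eq_zero (mem_univ i) (by rw [eval_sub, eval_X, eval_C, sub_self])
    have h3 : eval₂ (algebraMap (𝓞 K) (𝓞 (AlgebraicClosure K))) (g • θ i) (mp a) = 0 := by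
      have h4 := congrArg (MulSemiringAction.toRingHom (GK K) (𝓞 (AlgebraicClosure K)) g) h2
      rw [hom_eval₂, map_zero] at h4
      have h5 : (MulSemiringAction.toRingHom (GK K) (𝓞 (AlgebraicClosure K)) g).comp
          (algebraMap (𝓞 K) (𝓞 (AlgebraicClosure K))) = algebraMap (𝓞 K) (𝓞 (AlgebraicClosure K)) :=
        RingHom.ext fun x => smul_alg g x
      rw [h5] at h4
      exact h4
    unfold Roots at h
    rw [← eval_map, h, eval_prod, Finset.prod_eq_zero_iff] at h3
    obtain ⟨j, _, hj⟩ := h3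
    rw [eval_sub, eval_X, eval_C, sub_eq_zero] at hj
    exact ⟨j, hj⟩
  choose f hf using h1
  have hfi : Function.Injective f := by
    intro i j hij
    apply hinj
    have h2 : g • θ i = g • θ j := by rw [hf, hf, hij]
    exact smul_left_cancel g h2
  exact ⟨Equiv.ofBijective f (Finite.injective_iff_bijective.1 hfi), hf⟩

/-- all embeddings of `M` are fixed by the automorphisms fixing the roots -/
def Inside (θ : Fin n → 𝓞 (AlgebraicClosure K)) (M : Type) [Field M] [Algebra K M] : Prop :=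
  ∀ g : GK K, (∀ i, g • θ i = θ i) → ∀ ι : M →ₐ[K] AlgebraicClosure K,
    (g : AlgebraicClosure K →ₐ[K] AlgebraicClosure K).comp ι = ι

section
variable {M : Type} [Field M] [NumberField M] [Algebra K M]

theorem Inside.comp_eq (hM : Inside θ M) {g g' : GK K} (hg : ∀ i, g • θ i = g' • θ i)
    (ι : M →ₐ[K] AlgebraicClosure K) :
    (g : AlgebraicClosure K →ₐ[K] AlgebraicClosure K).comp ι =
      (g' : AlgebraicClosure K →ₐ[K] AlgebraicClosure K).comp ι := by
  have h1 := hM (g'⁻¹ * g) (fun i => by rw [mul_smul, hg, inv_smul_smul]) ι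
  ext x
  have h2 := DFunLike.congr_fun h1 x
  change g'⁻¹ (g (ι x)) = ι x at h2
  change g (ι x) = g' (ι x)
  have h3 := congrArg g' h2
  have h4 : g' (g'⁻¹ (g (ι x))) = g (ι x) := g'.apply_symm_apply _
  rw [h4] at h3
  exact h3

/-- an integer fixed by the automorphisms fixing `ι M` comes from `M` -/
theorem fixed_mem (ι : M →ₐ[K] AlgebraicClosure K) (z : 𝓞 (AlgebraicClosure K))
    (hz : ∀ g : GK K, (g : AlgebraicClosure K →ₐ[K] AlgebraicClosure K).comp ι = ι → g • z = z) :
    ∃ y : 𝓞 M, oi ι y = z := by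
  have h1 : (z : AlgebraicClosure K) ∈ IntermediateField.fixedField (ι.fieldRange.fixingSubgroup) := by
    rw [IntermediateField.mem_fixedField_iff]
    intro g hg
    rw [IntermediateField.mem_fixingSubgroup_iff] at hg
    have h2 := hz g (AlgHom.ext fun x => hg (ι x) ⟨x, rfl⟩)
    exact congrArg (fun w : 𝓞 (AlgebraicClosure K) => (w : AlgebraicClosure K)) h2
  rw [InfiniteGalois.fixedField_fixingSubgroup] at h1
  obtain ⟨y, hy⟩ := h1
  have h3 : IsIntegral ℤ y := by
    have h4 : IsIntegral ℤ (ι y) := by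
      have : ι y = (z : AlgebraicClosure K) := hy
      rw [this]
      exact z.2
    exact (isIntegral_algHom_iff (ι.restrictScalars ℤ) ι.toRingHom.injective).1 h4
  refine ⟨⟨y, h3⟩, ?_⟩
  apply RingOfIntegers.ext
  rw [oi_coe]
  exact hy

/-- **Separation.** -/
theorem sep (h : Roots a θ) (hinj : Function.Injective θ) (hM : Inside θ M)
    (Q : Ideal (𝓞 (AlgebraicClosure K))) (hQ : Q.IsPrime) (hQθ : ∀ i j, θ i - θ j ∈ Q → i = j)
    (ι ι' : M →ₐ[K] AlgebraicClosure K) (hc : ∀ x : 𝓞 M, oi ι x - oi ι' x ∈ Q) : ι = ι' := by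
  classical
  obtain ⟨τ, hτ⟩ := exists_rho ι ι'
  obtain ⟨τp, hτp⟩ := h.perm hinj (τ : GK K)
  let rg : GK K → BB K →+* BB K := fun g => MulSemiringAction.toRingHom (GK K) (BB K) g
  set Hs : Finset (Equiv.Perm (Fin n)) := univ.filter fun π => ∃ g : GK K, (∀ i, g • θ i = θ (π i)) ∧
    (g : AlgebraicClosure K →ₐ[K] AlgebraicClosure K).comp ι = ι with hHs
  let x : Equiv.Perm (Fin n) → (BB K)[X] := fun π => ∑ i, C (θ (π i)) * X ^ (i : ℕ)
  have hxg : ∀ (g : GK K) (ρ : Equiv.Perm (Fin n)), (∀ i, g • θ i = θ (ρ i)) →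
      ∀ π, (x π).map (rg g) = x (ρ * π) := by
    intro g ρ hρ π
    show (∑ i, C (θ (π i)) * X ^ (i : ℕ)).map (rg g) = ∑ i, C (θ ((ρ * π) i)) * X ^ (i : ℕ)
    rw [Polynomial.map_sum]
    refine Finset.sum_congr rfl fun i _ => ?_
    rw [Polynomial.map_mul, map_C, Polynomial.map_pow, map_X]
    congr 2
    exact hρ (π i)
  set P : (BB K)[X][X] := ∏ π ∈ Hs, (X - C (x π)) with hP
  have hPmap : ∀ (g : GK K) (ρ : Equiv.Perm (Fin n)), (∀ i, g • θ i = θ (ρ i)) →
      P.map (mapRingHom (rg g)) = ∏ π ∈ Hs, (X - C (x (ρ * π))) := by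
    intro g ρ hρ
    rw [hP, Polynomial.map_prod]
    refine Finset.prod_congr rfl fun π _ => ?_
    rw [Polynomial.map_sub, map_X, map_C, coe_mapRingHom, hxg g ρ hρ]
  have hPinv : ∀ g : GK K, (g : AlgebraicClosure K →ₐ[K] AlgebraicClosure K).comp ι = ι →
      P.map (mapRingHom (rg g)) = P := by
    intro g hg
    obtain ⟨ρ, hρ⟩ := h.perm hinj g
    rw [hPmap g ρ hρ, hP]
    refine Finset.prod_bij (fun π _ => ρ * π) ?_ ?_ ?_ ?_
    · intro π hπ
      rw [hHs, mem_filter] at hπ ⊢
      obtain ⟨_, g', hg', hg''⟩ := hπ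
      refine ⟨mem_univ _, g * g', fun i => ?_, ?_⟩
      · rw [mul_smul, hg', hρ]
        rfl
      · ext y
        have e1 := DFunLike.congr_fun hg'' y
        have e2 := DFunLike.congr_fun hg y
        change g' (ι y) = ι y at e1
        change g (ι y) = ι y at e2
        change g (g' (ι y)) = ι y
        rw [e1, e2]
    · intro π _ π' _ hh
      exact mul_left_cancel hh
    · intro π hπ
      refine ⟨ρ⁻¹ * π, ?_, by group⟩
      rw [hHs, mem_filter] at hπ ⊢
      obtain ⟨_, g', hg', hg''⟩ := hπ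
      refine ⟨mem_univ _, g⁻¹ * g', fun i => ?_, ?_⟩
      · rw [mul_smul, hg', inv_smul_eq_iff, hρ]
        congr 1
        exact (ρ.apply_symm_apply _).symm
      · ext y
        have e1 := DFunLike.congr_fun hg'' y
        have e2 := DFunLike.congr_fun hg y
        change g' (ι y) = ι y at e1
        change g (ι y) = ι y at e2
        change g⁻¹ (g' (ι y)) = ι y
        rw [e1]
        conv_lhs => rw [← e2]
        exact g.symm_apply_apply (ι y)
    · intro π _
      rfl
  let red : BB K →+* BB K ⧸ Q := Ideal.Quotient.mk Q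
  have hcoef : ∀ k l, red ((P.coeff k).coeff l) = red (rg τ ((P.coeff k).coeff l)) := by
    intro k l
    obtain ⟨y, hy⟩ := fixed_mem ι ((P.coeff k).coeff l) (fun g hg => by
      have h1 := congrArg (fun f : (BB K)[X][X] => (f.coeff k).coeff l) (hPinv g hg)
      simp only [coeff_map, coe_mapRingHom] at h1
      exact h1)
    have h2 : rg τ ((P.coeff k).coeff l) = oi ι' y := by
      rw [← hy]
      apply RingOfIntegers.ext
      rw [oi_coe]
      exact hτ (y : M)
    rw [h2, ← hy]
    exact (Ideal.Quotient.mk_eq_mk_iff_sub_mem _ _).2 (hc y)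
  have hPP : P.map (mapRingHom red) = (P.map (mapRingHom (rg τ))).map (mapRingHom red) := by
    ext k l
    simp only [coeff_map, coe_mapRingHom]
    exact hcoef k l
  rw [hPmap τ τp hτp, hP, Polynomial.map_prod, Polynomial.map_prod] at hPP
  simp only [Polynomial.map_sub, map_X, map_C, coe_mapRingHom] at hPP
  have h1mem : (1 : Equiv.Perm (Fin n)) ∈ Hs := by
    rw [hHs, mem_filter]
    exact ⟨mem_univ _, 1, fun i => by rw [one_smul]; rfl, AlgHom.ext fun y => rfl⟩
  have hev := congrArg (fun f => eval ((x τp).map red) f) hPP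
  simp only [eval_prod, eval_sub, eval_X, eval_C] at hev
  rw [Finset.prod_eq_zero (i := (1 : Equiv.Perm (Fin n))) (s := Hs)
    (f := fun π => (x τp).map red - (x (τp * π)).map red) h1mem (by rw [mul_one, sub_self])] at hev
  have hdom : IsDomain (BB K ⧸ Q) := Ideal.Quotient.isDomain Q
  rw [Finset.prod_eq_zero_iff] at hev
  obtain ⟨π, hπ, hπ0⟩ := hev
  rw [sub_eq_zero] at hπ0
  have hπeq : τp = π := by
    ext i
    have h2 := congrArg (fun f => coeff f (i : ℕ)) hπ0
    have h3 : ∀ ρ : Equiv.Perm (Fin n), (x ρ).coeff (i : ℕ) = θ (ρ i) := by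
      intro ρ
      show (∑ j, C (θ (ρ j)) * X ^ (j : ℕ) : (BB K)[X]).coeff (i : ℕ) = θ (ρ i)
      rw [finsetSum_coeff, Finset.sum_eq_single i]
      · rw [coeff_C_mul, coeff_X_pow, if_pos rfl, mul_one]
      · intro j _ hj
        rw [coeff_C_mul, coeff_X_pow, if_neg (fun h => hj (Fin.ext h.symm)), mul_zero]
      · intro h
        exact absurd (Finset.mem_univ i) h
    simp only [coeff_map, h3] at h2
    have h4 := hQθ (τp i) (π i) ((Ideal.Quotient.mk_eq_mk_iff_sub_mem _ _).1 h2)
    rw [h4]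
  rw [← hπeq, hHs, mem_filter] at hπ
  obtain ⟨_, g, hg1, hg2⟩ := hπ
  have h5 := hM.comp_eq (g := (τ : GK K)) (g' := g) (fun i => by rw [hτp, hg1]) ι
  rw [hg2] at h5
  ext y
  have h6 := DFunLike.congr_fun h5 y
  change τ (ι y) = ι y at h6
  rw [hτ] at h6
  exact h6.symm

end

end

end Pool.Agent.H40SY
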