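import Pool.Agent.H40SY.Grp

/-! The Galois group is the symmetric group: the count. -/

set_option autoImplicit false

namespace Pool.Agent.H40SY

open NumberField IsDedekindDomain Polynomial Finset Filter Topology
open Pool.Agent.W401.Cheb (GK IsFrob)
open Pool.Agent.N842.HS (hv absNorm_hv hv_inj hv_surj VT mem_VT hom_finite cf)
open Pool.Agent.N842.ST (av)

theorem E_le (x d n δ : ℝ) (hx : 3 ≤ x) (hd : 0 ≤ d) (hn : 0 ≤ n) (hδ : 0 < δ) :
    x ^ (1 / 2 + δ / 2) + d * n * ((1 + Real.log x) * Real.log x) ≤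
      (1 + 3 * (d * n)) * (x ^ (1 / 2 + δ / 2) * Real.log x) := by
  have hT0 : (0 : ℝ) < x := by linarith
  have hT1' : (1 : ℝ) ≤ x := by linarith
  have hlog1 : 1 ≤ Real.log x := by
    rw [Real.le_log_iff_exp_le hT0]
    refine Real.exp_one_lt_d9.le.trans ?_
    refine le_trans ?_ hx
    norm_num
  have hP : 0 ≤ x ^ (1 / 2 + δ / 2) := by positivity
  have hsq : Real.sqrt x ≤ x ^ (1 / 2 + δ / 2) := by
    rw [Real.sqrt_eq_rpow]
    exact Real.rpow_le_rpow_of_exponent_le hT1' (by linarith)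
  have hlogs : 1 + Real.log x ≤ 3 * x ^ (1 / 2 + δ / 2) := by
    have h1 : Real.log x ≤ 2 * Real.sqrt x := by
      have h2 : Real.log x = 2 * Real.log (Real.sqrt x) := by
        rw [Real.log_sqrt hT0.le]
        ring
      have h3 := Real.log_le_sub_one_of_pos (Real.sqrt_pos.2 hT0)
      rw [h2]
      linarith
    have h2 : 1 ≤ Real.sqrt x := Real.one_le_sqrt.2 hT1'
    linarith
  have f1 : x ^ (1 / 2 + δ / 2) ≤ x ^ (1 / 2 + δ / 2) * Real.log x :=
    le_mul_of_one_le_right hP hlog1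
  have f2 : d * n * ((1 + Real.log x) * Real.log x) ≤
      d * n * ((3 * x ^ (1 / 2 + δ / 2)) * Real.log x) := by
    apply mul_le_mul_of_nonneg_left _ (by positivity)
    exact mul_le_mul_of_nonneg_right hlogs (by linarith)
  nlinarith

section
variable {K : Type} [Field K] [NumberField K] {n : ℕ}

/-- **The Galois group is the symmetric group.** -/
theorem symmetric_of (δ : ℝ) (hδ : 0 < δ) (hδ1 : δ ≤ 1 / 2) : ∃ T₀ : ℕ, ∀ (a : Fin n → 𝓞 K) (T : ℕ), T₀ ≤ T →
    (∀ o : Option (Fin n → Fin n),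
      |SS T (fun p _ φ => (1 : ℝ) * (TF o p (fun i => φ (a i)) * Real.log p)) -
        SS (K := K) T (fun p _ _ => (1 : ℝ) * (av p (TF o p) * Real.log p))| ≤ (T : ℝ) ^ (1 / 2 + δ / 2)) →
    IsSymmetric (mp a) := by
  classical
  obtain ⟨C, hC0, hC⟩ := coef_bound n
  obtain ⟨d, hd⟩ : ∃ d : ℝ, d = Module.finrank ℚ K := ⟨_, rfl⟩
  have hd0 : 0 ≤ d := by rw [hd]; positivity
  obtain ⟨B, hB⟩ : ∃ B : ℝ, B = ((2 : ℝ) ^ n) ^ n := ⟨_, rfl⟩
  have hB0 : 0 ≤ B := by rw [hB]; positivity
  have hf0 : (0 : ℝ) < n.factorial := by exact_mod_cast n.factorial_pos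
  have hf1 : (1 : ℝ) ≤ n.factorial := by exact_mod_cast n.factorial_pos
  obtain ⟨W, hW⟩ : ∃ W : ℝ, W = 4 * n.factorial * ((C * (B + 1) + 1) * (1 + 3 * (d * n))) := ⟨_, rfl⟩
  obtain ⟨T₁, hT₁⟩ := eventually_atTop.1 (ev_absorb W (1 / 2) (by norm_num))
  obtain ⟨T₂, hT₂⟩ := SS_lower K
  refine ⟨T₁ + T₂ + 3, fun a T hT hlaw => ?_⟩
  have hT3 : (3 : ℝ) ≤ T := by exact_mod_cast (by omega : 3 ≤ T)
  have hT0 : (0 : ℝ) < T := by linarith
  obtain ⟨E, hE⟩ : ∃ E : ℝ, E = (T : ℝ) ^ (1 / 2 + δ / 2) + d * n * ((1 + Real.log T) * Real.log T) := ⟨_, rfl⟩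
  have hlogT : 0 ≤ Real.log T := Real.log_natCast_nonneg T
  have hE1 : (T : ℝ) ^ (1 / 2 + δ / 2) ≤ E := by
    rw [hE]
    have : 0 ≤ d * n * ((1 + Real.log T) * Real.log T) := by positivity
    linarith
  have hE0 : 0 ≤ E := le_trans (by positivity) hE1
  have hEb : (C * (B + 1) + 1) * E ≤ T / (4 * n.factorial) := by
    have h1 := E_le T d n δ hT3 hd0 (Nat.cast_nonneg _) hδ
    rw [← hE] at h1
    have h2 : (T : ℝ) ^ (1 / 2 + δ / 2) ≤ (T : ℝ) ^ ((1 : ℝ) / 2 + 1 / 2 / 2) :=
      Real.rpow_le_rpow_of_exponent_le (by linarith) (by linarith)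
    have h3 := hT₁ T (by omega)
    have h4 : ((1 : ℝ) / 2 + 1 / 2) = 1 := by norm_num
    rw [h4, Real.rpow_one] at h3
    rw [le_div_iff₀ (by positivity)]
    have h5 : E ≤ (1 + 3 * (d * n)) * ((T : ℝ) ^ ((1 : ℝ) / 2 + 1 / 2 / 2) * Real.log T) :=
      h1.trans (mul_le_mul_of_nonneg_left (mul_le_mul_of_nonneg_right h2 hlogT) (by positivity))
    calc (C * (B + 1) + 1) * E * (4 * n.factorial) ≤ (C * (B + 1) + 1) *
          ((1 + 3 * (d * n)) * ((T : ℝ) ^ ((1 : ℝ) / 2 + 1 / 2 / 2) * Real.log T)) * (4 * n.factorial) := by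
          apply mul_le_mul_of_nonneg_right _ (by positivity)
          exact mul_le_mul_of_nonneg_left h5 (by positivity)
      _ = W * ((T : ℝ) ^ ((1 : ℝ) / 2 + 1 / 2 / 2) * Real.log T) := by rw [hW]; ring
      _ ≤ T := h3
  have hnone : SS T (fun p _ φ => TF none p (fun i => φ (a i)) * Real.log p) ≤ E := by
    rw [hE, hd]
    exact none_bound a T _ (hlaw none)
  have hlow := hT₂ T (by omega)
  have hTf : T / (4 * (n.factorial : ℝ)) < T / 2 / n.factorial := by
    rw [div_div]
    apply div_lt_div_of_pos_left hT0 (by positivity)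
    linarith
  have hTf2 : T / (4 * (n.factorial : ℝ)) < T / 2 := by
    apply div_lt_div_of_pos_left hT0 (by norm_num)
    linarith
  have hCB : 0 ≤ C * (B + 1) := by positivity
  obtain ⟨θ, hθ⟩ := exists_roots a
  -- some prime is good
  have hgood : ∃ (p : ℕ) (_ : Fact p.Prime) (φ : 𝓞 K →+* ZMod p), (mp (fun i => φ (a i))).Separable := by
    by_contra hno
    push Not at hno
    have h1 : SS T (fun p _ φ => TF none p (fun i => φ (a i)) * Real.log p) =
        SS (K := K) T (fun p _ _ => Real.log p) := by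
      refine SS_congr T fun p hp φ _ => ?_
      show (if (mp (fun i => φ (a i))).Separable then (0 : ℝ) else 1) * _ = _
      rw [if_neg (hno p hp φ), one_mul]
    rw [h1] at hnone
    nlinarith
  have hinj : Function.Injective θ := by
    obtain ⟨p, hp, φ, hφ⟩ := hgood
    exact (frob_perm hθ φ hφ).1
  refine sym_of hθ hinj (sym_of_types fun π₀ => ?_)
  by_contra hno
  push Not at hno
  -- the class function
  obtain ⟨χ, hχ⟩ : ∃ χ : Equiv.Perm (Fin n) → ℕ, χ = fun π => if IsConj π₀ π then 1 else 0 := ⟨_, rfl⟩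
  obtain ⟨co, hco1, hco2⟩ := hC χ (fun π => by
      rw [hχ]
      simp only
      have := n.factorial_pos
      split_ifs <;> omega) (fun π u => by
      rw [hχ]
      simp only
      have h1 : IsConj π (u * π * u⁻¹) := isConj_iff.2 ⟨u, rfl⟩
      have h2 : IsConj π₀ (u * π * u⁻¹) ↔ IsConj π₀ π := ⟨fun h => h.trans h1.symm, fun h => h.trans h1⟩
      simp only [h2])
  have hsum : (n.factorial : ℝ)⁻¹ ≤ ∑ c, co c := by
    have h1 : (1 : ℝ) ≤ ∑ π : Equiv.Perm (Fin n), (χ π : ℝ) := by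
      have h2 : (χ π₀ : ℝ) ≤ ∑ π : Equiv.Perm (Fin n), (χ π : ℝ) :=
        single_le_sum (f := fun π : Equiv.Perm (Fin n) => (χ π : ℝ)) (fun π _ => Nat.cast_nonneg _)
          (mem_univ π₀)
      have h3 : χ π₀ = 1 := by
        rw [hχ]
        simp only
        rw [if_pos (IsConj.refl π₀)]
      rw [h3] at h2
      exact_mod_cast h2
    rw [sum_congr rfl fun π _ => hco1 π, sum_comm] at h1
    have h2 : ∀ c : Fin n → Fin n, ∑ π : Equiv.Perm (Fin n), co c * (Z (sizes c) π : ℝ) =
        co c * n.factorial := by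
      intro c
      rw [← mul_sum, mean_Z]
    rw [sum_congr rfl fun c _ => h2 c, ← sum_mul] at h1
    rw [inv_le_iff_one_le_mul₀ hf0]
    exact h1
  have hlocal : ∀ (p : ℕ) [Fact p.Prime] (φ : 𝓞 K →+* ZMod p),
      |∑ c, co c * TF (some c) p (fun i => φ (a i))| ≤ C * B * TF none p (fun i => φ (a i)) := by
    intro p _ φ
    by_cases hsep : (mp (fun i => φ (a i))).Separable
    · obtain ⟨_, σ, π, hσ, hπ⟩ := frob_perm hθ φ hsep
      have h1 : ∀ c : Fin n → Fin n, TF (some c) p (fun i => φ (a i)) = (Z (sizes c) π : ℝ) := by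
        intro c
        show (G (sizes c) (fun i => φ (a i)) : ℝ) = _
        rw [hπ n (sizes c) (sum_sizes c)]
      have h2 : χ π = 0 := by
        rw [hχ]
        simp only
        rw [if_neg]
        intro hc
        obtain ⟨i, hi⟩ := hno π σ hc
        exact hi (hσ i)
      simp only [h1]
      rw [← hco1, h2, Nat.cast_zero, abs_zero]
      show 0 ≤ C * B * (if (mp (fun i => φ (a i))).Separable then (0 : ℝ) else 1)
      rw [if_pos hsep, mul_zero]
    · show _ ≤ C * B * (if (mp (fun i => φ (a i))).Separable then (0 : ℝ) else 1)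
      rw [if_neg hsep, mul_one]
      refine (abs_sum_le_sum_abs _ _).trans ?_
      refine (sum_le_sum (g := fun c => |co c| * B) fun c _ => ?_).trans ?_
      · rw [abs_mul, hB]
        exact mul_le_mul_of_nonneg_left (TF_abs (some c) p _) (abs_nonneg _)
      · rw [← sum_mul]
        exact mul_le_mul_of_nonneg_right hco2 hB0
  have h1 : |SS T (fun p _ φ => ∑ c, co c * (TF (some c) p (fun i => φ (a i)) * Real.log p))| ≤ C * B * E := by
    refine (SS_abs (K := K) T (g := fun p _ φ => (C * B) *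
      (TF none p (fun i => φ (a i)) * Real.log p)) fun p _ φ _ => ?_).trans ?_
    · have hlog : 0 ≤ Real.log p := Real.log_natCast_nonneg p
      have e1 : ∑ c, co c * (TF (some c) p (fun i => φ (a i)) * Real.log p) =
          (∑ c, co c * TF (some c) p (fun i => φ (a i))) * Real.log p := by
        rw [sum_mul]
        exact sum_congr rfl fun c _ => by ring
      rw [e1, abs_mul, abs_of_nonneg hlog, ← mul_assoc]
      exact mul_le_mul_of_nonneg_right (hlocal p φ) hlog
    · rw [SS_smul]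
      exact mul_le_mul_of_nonneg_left hnone (by positivity)
  have h2 : SS T (fun p _ φ => ∑ c, co c * (TF (some c) p (fun i => φ (a i)) * Real.log p)) =
      ∑ c, co c * SS T (fun p _ φ => TF (some c) p (fun i => φ (a i)) * Real.log p) := by
    rw [SS_sum T univ (fun c p _ φ => co c * (TF (some c) p (fun i => φ (a i)) * Real.log p))]
    exact sum_congr rfl fun c _ => SS_smul (K := K) T (co c) _
  have h3 : ∀ c : Fin n → Fin n, |SS T (fun p _ φ => TF (some c) p (fun i => φ (a i)) * Real.log p) -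
      SS (K := K) T (fun p _ _ => Real.log p)| ≤ E := by
    intro c
    have e1 := hlaw (some c)
    have e2 : SS T (fun p _ φ => (1 : ℝ) * (TF (some c) p (fun i => φ (a i)) * Real.log p)) =
        SS T (fun p _ φ => TF (some c) p (fun i => φ (a i)) * Real.log p) :=
      SS_congr T fun p _ _ _ => one_mul _
    have e3 : SS (K := K) T (fun p _ _ => (1 : ℝ) * (av p (TF (some c) p) * Real.log p)) =
        SS (K := K) T (fun p _ _ => Real.log p) :=
      SS_congr T fun p _ _ _ => by rw [av_some, one_mul, one_mul]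
    rw [e2, e3] at e1
    exact e1.trans hE1
  have h4 : |∑ c, co c * SS T (fun p _ φ => TF (some c) p (fun i => φ (a i)) * Real.log p) -
      (∑ c, co c) * SS (K := K) T (fun p _ _ => Real.log p)| ≤ C * E := by
    rw [sum_mul, ← sum_sub_distrib]
    refine (abs_sum_le_sum_abs _ _).trans ?_
    refine (sum_le_sum (g := fun c => |co c| * E) fun c _ => ?_).trans ?_
    · rw [← mul_sub, abs_mul]
      exact mul_le_mul_of_nonneg_left (h3 c) (abs_nonneg _)
    · rw [← sum_mul]
      exact mul_le_mul_of_nonneg_right hco2 hE0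
  rw [h2] at h1
  have h5 : (n.factorial : ℝ)⁻¹ * (T / 2) ≤ (∑ c, co c) * SS (K := K) T (fun p _ _ => Real.log p) :=
    mul_le_mul hsum hlow (by positivity) (le_trans (by positivity) hsum)
  have h6 : (n.factorial : ℝ)⁻¹ * (T / 2) = T / 2 / n.factorial := by
    rw [div_eq_inv_mul (T / 2 : ℝ)]
  rw [h6] at h5
  have f1 := abs_le.1 h1
  have f2 := abs_le.1 h4
  nlinarith

end

end Pool.Agent.H40SY
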