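import Pool.Agent.H40SY.Defs

/-!
# The joint distribution of the classes of Frobenius of a variety and of the Frobenius permutations of a
polynomial: definitions

`K` is a number field, and `x v` are points of a set, for instance the classes `x_v` of the question for a
smooth projective variety `X` over `K`.  A test function is a function of a point and of a conjugacy class
of the symmetric group.
-/

set_option autoImplicit false

namespace Pool.Agent.H40SY

open Polynomial NumberField IsDedekindDomain
open Pool.Agent.W353.AT (IsFrobeniusElement)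

section
variable {K : Type} [Field K] [NumberField K] {n g : ℕ} {𝒳 : Type}

/-- `f` is separable modulo `v`. -/
def SeparableAt (f : (𝓞 K)[X]) (v : HeightOneSpectrum (𝓞 K)) : Prop :=
  (f.map (Ideal.Quotient.mk v.asIdeal)).Separable

/-- The permutation `π` describes the action of a Frobenius element at `v` on the roots of `f`: for some
numbering `θ` of the roots, `σ (θ i) = θ (π i)` for a Frobenius element `σ` at `v`. -/
def IsFrobeniusPerm (f : (𝓞 K)[X]) (v : HeightOneSpectrum (𝓞 K)) (π : Equiv.Perm (Fin n)) : Prop :=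
  ∃ (θ : Fin n ≃ rootsOf f) (σ : Gal(AlgebraicClosure K/K)), IsFrobeniusElement v σ ∧
    ∀ i, σ (θ i : AlgebraicClosure K) = θ (π i)

/-- A test function on the pairs of a point of `𝒳` and a conjugacy class of the symmetric group, with
values between `-1` and `1`. -/
structure TestFunction (𝒳 : Type) (n : ℕ) where
  /-- the values -/
  val : 𝒳 → Equiv.Perm (Fin n) → ℝ
  conj : ∀ x π τ, val x (τ * π * τ⁻¹) = val x π
  abs_le : ∀ x π, |val x π| ≤ 1

/-- The mean value over the symmetric group. -/
noncomputable def mean (h : Equiv.Perm (Fin n) → ℝ) : ℝ := (∑ π, h π) / n.factorial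

/-- The sum of `F (x v, π v)` over the primes `v` outside `R` with `q_v ≤ T` modulo which `f` is separable
is the sum of the mean values of `F (x v, ·)` over the primes `v` outside `R` with `q_v ≤ T`, up to `ε`, if
`π v` is the permutation of the roots of `f` given by the Frobenius at `v`. -/
def Equidistributed (x : HeightOneSpectrum (𝓞 K) → 𝒳) (R : Finset (HeightOneSpectrum (𝓞 K)))
    (F : TestFunction 𝒳 n) (f : (𝓞 K)[X]) (T : ℕ) (ε : ℝ) : Prop :=
  ∀ π : HeightOneSpectrum (𝓞 K) → Equiv.Perm (Fin n),
    (∀ v, v ∉ R → SeparableAt f v → IsFrobeniusPerm f v (π v)) →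
    |∑ᶠ v ∈ {v | v ∉ R ∧ SeparableAt f v ∧ Ideal.absNorm v.asIdeal ≤ T}, F.val (x v) (π v) -
      ∑ᶠ v ∈ {v | v ∉ R ∧ Ideal.absNorm v.asIdeal ≤ T}, mean (F.val (x v))| ≤ ε

/-- (If `y ^ E ≤ Q`.)  The Galois group of the polynomial `f = poly ω c` over `K` is the symmetric group,
and for all `T ≥ y` with `T ^ E ≤ Q` and for the first `T ^ B` of the test functions the pairs of `x v` and
of the Frobenius permutation at `v` for `q_v ≤ T` are equidistributed over the conjugacy classes of the
symmetric group up to `T ^ (1/2 + δ)`. -/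
def JointLaw (ω : Fin g → 𝓞 K) (δ : ℝ) (B : ℕ) (x : HeightOneSpectrum (𝓞 K) → 𝒳)
    (R : ℕ → Finset (HeightOneSpectrum (𝓞 K))) (F : ℕ → TestFunction 𝒳 n) (E Q y : ℕ)
    (c : Fin n → Fin g → ℤ) : Prop :=
  y ^ E ≤ Q → IsSymmetric (poly ω c) ∧ ∀ T : ℕ, y ≤ T → T ^ E ≤ Q → ∀ j : ℕ, j < T ^ B →
    Equidistributed x (R j) (F j) (poly ω c) T ((T : ℝ) ^ (1 / 2 + δ))

end

end Pool.Agent.H40SY
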