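import Pool.Agent.H40SY.WR
import Pool.Agent.H40SY.JDefs

/-! The joint distribution of the classes of a variety and of the Frobenius permutations. -/

set_option autoImplicit false

namespace Pool.Agent.H40SY

open NumberField IsDedekindDomain Finset Filter Polynomial
open Pool.Agent.N842.HS (hv absNorm_hv hv_inj hv_surj VT mem_VT hom_finite cf card_high)
open Pool.Agent.W353.AT (IsFrobeniusElement)
open Pool.Agent.W401.Cheb (GK IsFrob)
open Pool.Agent.W353.NF (absNorm_ker)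

section
variable {K : Type} [Field K] [NumberField K] {n g : ℕ}

/-- the Frobenius permutations at a prime modulo which the polynomial is separable -/
theorem frobPerm_conj {a : Fin n → 𝓞 K} {θ : Fin n → 𝓞 (AlgebraicClosure K)} (h : Roots a θ) {p : ℕ}
    [Fact p.Prime] (φ : 𝓞 K →+* ZMod p) (hsep : (mp (fun i => φ (a i))).Separable)
    {π : Equiv.Perm (Fin n)} (hπ : IsFrobeniusPerm (mp a) (hv φ) π) :
    ∃ π₀ τ : Equiv.Perm (Fin n),
      (∀ (r : ℕ) (lam : Fin r → ℕ), ∑ b, lam b = n → G lam (fun i => φ (a i)) = Z lam π₀) ∧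
      π = τ * π₀ * τ⁻¹ := by
  classical
  have hφ : RingHom.ker φ = (hv φ).asIdeal := rfl
  obtain ⟨θ', σ, hσ, hθ'⟩ := hπ
  obtain ⟨Q, hQm, hQv, hQ⟩ := id hσ
  obtain ⟨ι, h1, h2⟩ := roots_mod h φ hφ hsep Q hQm hQv
  have hinj : Function.Injective θ := fun i j hij => h2 (congrArg (Ideal.Quotient.mk Q) hij)
  obtain ⟨π₀, hπ₀⟩ := h.perm hinj σ
  let e : Fin n → rootsOf (mp a) := fun i => ⟨θ i, (mem_rootsOf h _).2 ⟨i, rfl⟩⟩
  have hbij : Function.Bijective e := by
    constructor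
    · intro i j hij
      have h1 : (e i : AlgebraicClosure K) = e j := by rw [hij]
      exact hinj (RingOfIntegers.ext h1)
    · rintro ⟨x, hx⟩
      obtain ⟨i, hi⟩ := (mem_rootsOf h x).1 hx
      exact ⟨i, Subtype.ext hi⟩
  let e' : Fin n ≃ rootsOf (mp a) := Equiv.ofBijective e hbij
  refine ⟨π₀, e'.trans θ'.symm, fun r lam hl => ?_, ?_⟩
  · let _ : Field (𝓞 (AlgebraicClosure K) ⧸ Q) := Ideal.Quotient.field Q
    refine G_eq_Z ι (fun i => φ (a i)) (fun i => Ideal.Quotient.mk Q (θ i)) h2 h1 π₀ (fun i => ?_) lam hl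
    have h3 := hQ (θ i)
    rw [absNorm_ker φ hφ, hπ₀] at h3
    have h4 := (Ideal.Quotient.mk_eq_mk_iff_sub_mem _ _).2 h3
    rw [h4, map_pow]
  · rw [eq_mul_inv_iff_mul_eq]
    ext i
    congr 1
    show π (θ'.symm (e' i)) = θ'.symm (e' (π₀ i))
    rw [Equiv.eq_symm_apply]
    apply Subtype.ext
    rw [← hθ' (θ'.symm (e' i)), Equiv.apply_symm_apply]
    show σ (θ i : AlgebraicClosure K) = (θ (π₀ i) : AlgebraicClosure K)
    exact congrArg (fun z : 𝓞 (AlgebraicClosure K) => (z : AlgebraicClosure K)) (hπ₀ i)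

/-- a representative of a conjugacy class -/
noncomputable def rep {G : Type} [Group G] (κ : ConjClasses G) : G := (ConjClasses.exists_rep κ).choose

theorem mk_rep {G : Type} [Group G] (κ : ConjClasses G) : ConjClasses.mk (rep κ) = κ :=
  (ConjClasses.exists_rep κ).choose_spec

theorem TestFunction.rep {𝒳 : Type} (F : TestFunction 𝒳 n) (x : 𝒳) (π : Equiv.Perm (Fin n)) :
    F.val x (H40SY.rep (ConjClasses.mk π)) = F.val x π := by
  have h1 := mk_rep (ConjClasses.mk π)
  rw [ConjClasses.mk_eq_mk_iff_isConj, isConj_iff] at h1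
  obtain ⟨c, hc⟩ := h1
  have h2 := F.conj x (H40SY.rep (ConjClasses.mk π)) c
  rw [hc] at h2
  exact h2.symm

/-- the weights -/
noncomputable def wj {𝒳 : Type} (x : HeightOneSpectrum (𝓞 K) → 𝒳) (R : Finset (HeightOneSpectrum (𝓞 K)))
    (F : TestFunction 𝒳 n) (κ : ConjClasses (Equiv.Perm (Fin n))) (v : HeightOneSpectrum (𝓞 K)) : ℝ :=
  open Classical in
  if v ∈ R then 0 else F.val (x v) (rep κ) * (Real.log 2 / Real.log (Ideal.absNorm v.asIdeal))

theorem wj_abs {𝒳 : Type} (x : HeightOneSpectrum (𝓞 K) → 𝒳) (R : Finset (HeightOneSpectrum (𝓞 K)))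
    (F : TestFunction 𝒳 n) (κ : ConjClasses (Equiv.Perm (Fin n))) (v : HeightOneSpectrum (𝓞 K)) :
    |wj x R F κ v| ≤ 1 := by
  classical
  unfold wj
  split_ifs with h
  · norm_num
  · have h2 : (2 : ℝ) ≤ Ideal.absNorm v.asIdeal := by
      have h : (2 : ℕ) ≤ Ideal.absNorm v.asIdeal := Pool.Agent.W540.BE.two_le_nm v
      exact_mod_cast h
    have h3 : 0 < Real.log 2 := Real.log_pos (by norm_num)
    have h4 : Real.log 2 ≤ Real.log (Ideal.absNorm v.asIdeal) := Real.log_le_log (by norm_num) h2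
    rw [abs_mul, abs_of_nonneg (div_nonneg h3.le (h3.le.trans h4))]
    have h5 : Real.log 2 / Real.log (Ideal.absNorm v.asIdeal) ≤ 1 := div_le_one_of_le₀ h4 (h3.le.trans h4)
    calc _ ≤ 1 * (1 : ℝ) := mul_le_mul (F.abs_le _ _) h5 (div_nonneg h3.le (h3.le.trans h4)) zero_le_one
      _ = 1 := one_mul _

/-- from all primes to the primes of prime norm -/
theorem sum_all (T : ℕ) (f : HeightOneSpectrum (𝓞 K) → ℝ) (hf : ∀ v, |f v| ≤ 1) :
    |∑ v ∈ VT K T, f v - SS T (fun p _ φ => f (hv φ))| ≤ Module.finrank ℚ K * Real.sqrt T := by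
  classical
  rw [← sum_VT, ← Finset.sum_filter_add_sum_filter_not (VT K T) (fun v => (Ideal.absNorm v.asIdeal).Prime),
    add_sub_cancel_left]
  refine (abs_sum_le_sum_abs _ _).trans ?_
  refine (sum_le_sum (g := fun _ => (1 : ℝ)) fun v _ => hf v).trans ?_
  rw [sum_const, nsmul_eq_mul, mul_one]
  have h1 := card_high K T
  have h3 : (((VT K T).filter (fun v => ¬ (Ideal.absNorm v.asIdeal).Prime)).card : ℝ) ≤
      (Module.finrank ℤ (𝓞 K) : ℝ) * (Nat.sqrt T : ℝ) := by exact_mod_cast h1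
  refine h3.trans ?_
  rw [RingOfIntegers.rank]
  exact mul_le_mul_of_nonneg_left (Real.nat_sqrt_le_real_sqrt) (Nat.cast_nonneg _)

open Classical in
theorem finsum_VT (T : ℕ) (P : HeightOneSpectrum (𝓞 K) → Prop) (f : HeightOneSpectrum (𝓞 K) → ℝ) :
    ∑ᶠ v ∈ {v | P v ∧ Ideal.absNorm v.asIdeal ≤ T}, f v = ∑ v ∈ VT K T, if P v then f v else 0 := by
  have h1 : {v | P v ∧ Ideal.absNorm v.asIdeal ≤ T} = (((VT K T).filter P : Finset _) : Set _) := by
    ext v
    rw [Finset.mem_coe, mem_filter, mem_VT]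
    exact and_comm
  rw [h1, finsum_mem_coe_finset, sum_filter]

theorem card_classes : Fintype.card (ConjClasses (Equiv.Perm (Fin n))) ≤ n.factorial := by
  refine (Fintype.card_le_of_surjective ConjClasses.mk ConjClasses.mk_surjective).trans ?_
  rw [Fintype.card_perm, Fintype.card_fin]

theorem joint_close (δ : ℝ) (hδ : 0 < δ) : ∃ T₀ : ℕ, ∀ (a : Fin n → 𝓞 K)
    (U : ℕ → Finset (HeightOneSpectrum (𝓞 K) → ℝ)), (∀ T, ∀ u ∈ U T, ∀ v, |u v| ≤ 1) →
    ∀ (E Q y : ℕ), Law a δ U E Q y → ∀ T : ℕ, T₀ ≤ T → y ≤ T → T ^ E ≤ Q →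
    ∀ (𝒳 : Type) (x : HeightOneSpectrum (𝓞 K) → 𝒳) (R : Finset (HeightOneSpectrum (𝓞 K)))
      (F : TestFunction 𝒳 n), (∀ κ, wj x R F κ ∈ U T) →
      Equidistributed x R F (mp a) T ((T : ℝ) ^ (1 / 2 + δ)) := by
  classical
  obtain ⟨C, T₁, hC0, hC⟩ := class_law (K := K) (n := n) δ hδ 1
  obtain ⟨d, hd⟩ : ∃ d : ℝ, d = Module.finrank ℚ K := ⟨_, rfl⟩
  have hd0 : 0 ≤ d := by rw [hd]; positivity
  have hl2 : 0 < Real.log 2 := Real.log_pos (by norm_num)
  obtain ⟨T₂, hT₂⟩ := eventually_atTop.1 (ev_absorb (n.factorial * (C * C) / Real.log 2 + 2 * d) δ hδ)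
  refine ⟨T₁ + T₂ + 3, fun a U hU1 E Q y hlaw T hT hyT hTE 𝒳 x R F hw π hπ => ?_⟩
  have hyQ : y ^ E ≤ Q := (Nat.pow_le_pow_left hyT E).trans hTE
  have hs := (hlaw hyQ).1
  obtain ⟨θ, hθ, hinj, -, -⟩ := sym_data hs
  have hT0 : (0 : ℝ) < T := by exact_mod_cast (by omega : 0 < T)
  have hT1' : (1 : ℝ) ≤ T := by exact_mod_cast (by omega : 1 ≤ T)
  have hT3 : (3 : ℝ) ≤ T := by exact_mod_cast (by omega : 3 ≤ T)
  -- the permutations
  have hch : ∀ (p : ℕ) (hp : Fact p.Prime) (φ : 𝓞 K →+* ZMod p), ∃ ρ : Equiv.Perm (Fin n),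
      ((mp (fun i => φ (a i))).Separable →
        ∀ (r : ℕ) (lam : Fin r → ℕ), ∑ b, lam b = n → G lam (fun i => φ (a i)) = Z lam ρ) ∧
      ((mp (fun i => φ (a i))).Separable → hv φ ∉ R → ∃ τ : Equiv.Perm (Fin n),
        π (hv φ) = τ * ρ * τ⁻¹) := by
    intro p hp φ
    by_cases h : (mp (fun i => φ (a i))).Separable
    · by_cases hR : hv φ ∈ R
      · obtain ⟨σ, ρ, h1, h2, h3⟩ := frob_perm' hθ φ h
        exact ⟨ρ, fun _ => h3, fun _ h' => absurd hR h'⟩
      · obtain ⟨ρ, τ, h1, h2⟩ := frobPerm_conj hθ φ h (hπ (hv φ) hR ((sep_iff a p φ).2 h))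
        exact ⟨ρ, fun _ => h1, fun _ _ => ⟨τ, h2⟩⟩
    · exact ⟨1, fun h' => absurd h' h, fun h' => absurd h' h⟩
  choose ρ hρ1 hρ2 using hch
  obtain ⟨η, hη⟩ : ∃ η : ConjClasses (Equiv.Perm (Fin n)) → Equiv.Perm (Fin n) → ℕ,
    η = fun κ π => if ConjClasses.mk π = κ then 1 else 0 := ⟨_, rfl⟩
  obtain ⟨gg, hgg⟩ : ∃ gg : ConjClasses (Equiv.Perm (Fin n)) → ∀ (p : ℕ) [Fact p.Prime],
      (𝓞 K →+* ZMod p) → ℝ, gg = fun κ p hp φ =>
      if (mp (fun i => φ (a i))).Separable then (η κ (ρ p hp φ) : ℝ) else 0 := ⟨_, rfl⟩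
  obtain ⟨P, hP⟩ : ∃ P : ℝ, P = (T : ℝ) ^ (1 / 2 + δ / 2) * Real.log T := ⟨_, rfl⟩
  have key : ∀ κ, |SS T (fun p _ φ => wj x R F κ (hv φ) * (gg κ p φ * Real.log p)) -
      (∑ π, (η κ π : ℝ)) / n.factorial * SS T (fun p _ φ => wj x R F κ (hv φ) * Real.log p)| ≤ C * C * P := by
    intro κ
    have h1 := hC a U hU1 E Q y hlaw T (by omega) hyT hTE (η κ)
      (fun π => by
        rw [hη]
        simp only
        split_ifs <;> norm_num)
      (fun π u => by
        have : ConjClasses.mk (u * π * u⁻¹) = ConjClasses.mk π := by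
          rw [ConjClasses.mk_eq_mk_iff_isConj, isConj_comm, isConj_iff]
          exact ⟨u, rfl⟩
        rw [hη]
        simp only
        rw [this])
      (gg κ) 0 le_rfl
      (fun p hp φ hsep => ⟨ρ p hp φ, hρ1 p hp φ hsep, by
        rw [hgg]
        simp only
        rw [if_pos hsep]⟩)
      (fun p hp φ hsep => by
        rw [hgg]
        simp only
        rw [if_neg hsep, abs_zero]) (wj x R F κ) (hw κ)
    refine h1.trans (le_of_eq ?_)
    rw [hP]
    ring
  -- the two sums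
  obtain ⟨f₁, hf₁⟩ : ∃ f₁ : HeightOneSpectrum (𝓞 K) → ℝ,
    f₁ = fun v => if v ∉ R ∧ SeparableAt (mp a) v then F.val (x v) (π v) else 0 := ⟨_, rfl⟩
  obtain ⟨f₂, hf₂⟩ : ∃ f₂ : HeightOneSpectrum (𝓞 K) → ℝ,
    f₂ = fun v => if v ∉ R then mean (F.val (x v)) else 0 := ⟨_, rfl⟩
  have hf0 : (0 : ℝ) < n.factorial := by exact_mod_cast n.factorial_pos
  have hb1 : ∀ v, |f₁ v| ≤ 1 := by
    intro v
    rw [hf₁]
    simp only
    split_ifs
    · exact F.abs_le _ _
    · norm_num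
  have hb2 : ∀ v, |f₂ v| ≤ 1 := by
    intro v
    rw [hf₂]
    simp only
    split_ifs
    · norm_num
    · unfold mean
      rw [abs_div, abs_of_pos hf0, div_le_one hf0]
      refine (abs_sum_le_sum_abs _ _).trans ?_
      refine (sum_le_sum (g := fun _ => (1 : ℝ)) fun π _ => F.abs_le _ _).trans (le_of_eq ?_)
      rw [sum_const, card_univ, Fintype.card_perm, Fintype.card_fin, nsmul_eq_mul, mul_one]
  have e1 : Real.log 2 * SS T (fun p _ φ => f₁ (hv φ)) =
      ∑ κ, SS T (fun p _ φ => wj x R F κ (hv φ) * (gg κ p φ * Real.log p)) := by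
    rw [← SS_sum, ← SS_smul]
    refine SS_congr T fun p hp φ _ => ?_
    by_cases hR : hv φ ∈ R
    · rw [hf₁]
      simp only
      rw [if_neg (fun h => h.1 hR), mul_zero]
      symm
      refine sum_eq_zero fun κ _ => ?_
      unfold wj
      rw [if_pos hR, zero_mul]
    · by_cases hsep : (mp (fun i => φ (a i))).Separable
      · obtain ⟨τ, hτ⟩ := hρ2 p hp φ hsep hR
        rw [hf₁]
        simp only
        rw [if_pos ⟨hR, (sep_iff a p φ).2 hsep⟩, hτ, F.conj, ← F.rep,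
          Finset.sum_eq_single (ConjClasses.mk (ρ p hp φ))]
        · unfold wj
          rw [if_neg hR, absNorm_hv, hgg, hη]
          simp only
          rw [if_pos hsep, if_pos trivial]
          have hp1 : Real.log p ≠ 0 := by
            have : (1 : ℝ) < p := by exact_mod_cast hp.out.one_lt
            exact (Real.log_pos this).ne'
          push_cast
          field_simp
        · intro κ _ hκ
          rw [hgg, hη]
          simp only
          rw [if_pos hsep, if_neg (Ne.symm hκ)]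
          push_cast
          ring
        · intro h
          exact absurd (mem_univ _) h
      · rw [hf₁]
        simp only
        rw [if_neg (fun h => hsep ((sep_iff a p φ).1 h.2)), mul_zero]
        symm
        refine sum_eq_zero fun κ _ => ?_
        rw [hgg]
        simp only
        rw [if_neg hsep]
        ring
  have e2 : Real.log 2 * SS T (fun p _ φ => f₂ (hv φ)) =
      ∑ κ, (∑ π, (η κ π : ℝ)) / n.factorial * SS T (fun p _ φ => wj x R F κ (hv φ) * Real.log p) := by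
    have h1 : ∀ κ, (∑ π, (η κ π : ℝ)) / n.factorial *
        SS T (fun p _ φ => wj x R F κ (hv φ) * Real.log p) =
        SS T (fun p _ φ => (∑ π, (η κ π : ℝ)) / n.factorial * (wj x R F κ (hv φ) * Real.log p)) :=
      fun κ => (SS_smul T _ _).symm
    rw [sum_congr rfl fun κ _ => h1 κ, ← SS_sum, ← SS_smul]
    refine SS_congr T fun p hp φ _ => ?_
    by_cases hR : hv φ ∈ R
    · rw [hf₂]
      simp only
      rw [if_neg (fun h => h hR), mul_zero]
      symm
      refine sum_eq_zero fun κ _ => ?_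
      unfold wj
      rw [if_pos hR, zero_mul, mul_zero]
    · rw [hf₂]
      simp only
      rw [if_pos hR]
      have hp1 : Real.log p ≠ 0 := by
        have : (1 : ℝ) < p := by exact_mod_cast hp.out.one_lt
        exact (Real.log_pos this).ne'
      have h2 : ∀ κ, (∑ π, (η κ π : ℝ)) / n.factorial * (wj x R F κ (hv φ) * Real.log p) =
          Real.log 2 * ((∑ π, (η κ π : ℝ) * F.val (x (hv φ)) (rep κ)) / n.factorial) := by
        intro κ
        unfold wj
        rw [if_neg hR, absNorm_hv, ← sum_mul]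
        field_simp
      rw [sum_congr rfl fun κ _ => h2 κ, ← mul_sum, ← sum_div, sum_comm]
      unfold mean
      congr 2
      refine sum_congr rfl fun ϖ _ => ?_
      rw [Finset.sum_eq_single (ConjClasses.mk ϖ)]
      · rw [hη]
        simp only
        rw [if_pos trivial, F.rep]
        push_cast
        ring
      · intro κ _ hκ
        rw [hη]
        simp only
        rw [if_neg (Ne.symm hκ)]
        push_cast
        ring
      · intro h
        exact absurd (mem_univ _) h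
  have hdiff : |SS T (fun p _ φ => f₁ (hv φ)) - SS T (fun p _ φ => f₂ (hv φ))| ≤
      n.factorial * (C * C) / Real.log 2 * P := by
    have hP0 : 0 ≤ P := by
      rw [hP]
      have : 0 ≤ Real.log T := Real.log_natCast_nonneg T
      positivity
    have h1 : Real.log 2 * |SS T (fun p _ φ => f₁ (hv φ)) - SS T (fun p _ φ => f₂ (hv φ))| ≤
        n.factorial * (C * C * P) := by
      have h0 : ∀ z : ℝ, Real.log 2 * |z| = |Real.log 2 * z| := fun z => by
        rw [abs_mul, abs_of_pos hl2]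
      rw [h0, mul_sub, e1, e2, ← sum_sub_distrib]
      refine (abs_sum_le_sum_abs _ _).trans ?_
      refine (sum_le_sum fun κ _ => key κ).trans ?_
      rw [sum_const, card_univ, nsmul_eq_mul]
      exact mul_le_mul_of_nonneg_right (by exact_mod_cast card_classes) (by positivity)
    rw [div_mul_eq_mul_div, le_div_iff₀ hl2]
    linarith
  have c1 := sum_all T f₁ hb1
  have c2 := sum_all T f₂ hb2
  rw [← hd] at c1 c2
  have hgrow := hT₂ T (by omega)
  rw [← hP] at hgrow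
  have hsq : Real.sqrt T ≤ P := by
    have h1 : Real.sqrt T ≤ (T : ℝ) ^ (1 / 2 + δ / 2) := by
      rw [Real.sqrt_eq_rpow]
      exact Real.rpow_le_rpow_of_exponent_le hT1' (by linarith)
    have h2 : 1 ≤ Real.log T := by
      rw [Real.le_log_iff_exp_le hT0]
      refine Real.exp_one_lt_d9.le.trans ?_
      refine le_trans ?_ hT3
      norm_num
    rw [hP]
    have h3 : 0 ≤ (T : ℝ) ^ (1 / 2 + δ / 2) := by positivity
    nlinarith
  have hset : {v : HeightOneSpectrum (𝓞 K) | v ∉ R ∧ SeparableAt (mp a) v ∧ Ideal.absNorm v.asIdeal ≤ T} =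
      {v | (v ∉ R ∧ SeparableAt (mp a) v) ∧ Ideal.absNorm v.asIdeal ≤ T} := by
    ext v
    exact and_assoc.symm
  rw [hset, finsum_VT T (fun v => v ∉ R ∧ SeparableAt (mp a) v), finsum_VT T (fun v => v ∉ R)]
  have d3 : ∀ z, |∑ v ∈ VT K T, f₁ v - ∑ v ∈ VT K T, f₂ v| ≤ z →
      |(∑ v ∈ VT K T, @ite _ (v ∉ R ∧ SeparableAt (mp a) v) (Classical.propDecidable _)
        (F.val (x v) (π v)) 0) -
        ∑ v ∈ VT K T, @ite _ (v ∉ R) (Classical.propDecidable _) (mean (F.val (x v))) 0| ≤ z := by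
    intro z hz
    refine le_trans (le_of_eq ?_) hz
    congr 1
    congr 1
    · rw [hf₁]
      exact sum_congr rfl fun v _ => by congr
    · rw [hf₂]
      exact sum_congr rfl fun v _ => by congr
  apply d3
  have g1 : d * Real.sqrt T ≤ d * P := mul_le_mul_of_nonneg_left hsq hd0
  have q1 := abs_le.1 c1
  have q2 := abs_le.1 c2
  have q3 := abs_le.1 hdiff
  have q4 : n.factorial * (C * C) / Real.log 2 * P + 2 * (d * P) =
    (n.factorial * (C * C) / Real.log 2 + 2 * d) * P := by ring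
  rw [abs_le]
  constructor <;> linarith

/-- **The joint law.** -/
theorem joint_main (ω : Fin g → 𝓞 K) (hω : (1 : 𝓞 K) ∈ Submodule.span ℤ (Set.range ω)) (δ : ℝ)
    (hδ : 0 < δ) (A B : ℕ) : ∃ E y₀ : ℕ, ∀ (𝒳 : Type) (x : HeightOneSpectrum (𝓞 K) → 𝒳)
    (R : ℕ → Finset (HeightOneSpectrum (𝓞 K))) (F : ℕ → TestFunction 𝒳 n) (Q y : ℕ), y₀ ≤ y →
    ∀ S : Finset (Fin n → Fin g → ℤ), WellDistributed Q S →
      open Classical in
      ((S.filter fun c => ¬ JointLaw ω δ B x R F E Q y c).card : ℝ) ≤ 1 / (y : ℝ) ^ A * S.card := by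
  classical
  obtain ⟨δ', hδ'⟩ : ∃ δ' : ℝ, δ' = min δ (1 / 2) := ⟨_, rfl⟩
  have hδ0 : 0 < δ' := by rw [hδ']; positivity
  have hδ1 : δ' ≤ 1 / 2 := by rw [hδ']; exact min_le_right _ _
  have hδ2 : δ' ≤ δ := by rw [hδ']; exact min_le_left _ _
  obtain ⟨E, y₀, h0, h⟩ := engine (n := n) ω hω δ' hδ0 hδ1 A (B + n.factorial)
  obtain ⟨T₀, hT₀⟩ := joint_close (K := K) (n := n) δ' hδ0
  refine ⟨E, y₀ + T₀ + 1, fun 𝒳 x R F Q y hy S hS => ?_⟩
  obtain ⟨U, hU⟩ : ∃ U : ℕ → Finset (HeightOneSpectrum (𝓞 K) → ℝ), U = fun T =>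
      ((range (T ^ B)) ×ˢ (univ : Finset (ConjClasses (Equiv.Perm (Fin n))))).image
        fun z => wj x (R z.1) (F z.1) z.2 := ⟨_, rfl⟩
  have hUc : ∀ T, 2 ≤ T → (U T).card ≤ T ^ (B + n.factorial) := by
    intro T hT
    rw [hU]
    simp only
    refine card_image_le.trans ?_
    rw [card_product, card_range, card_univ, pow_add]
    refine Nat.mul_le_mul_left _ (card_classes.trans ?_)
    exact (Nat.lt_pow_self (by omega : 1 < T)).le
  have hU1 : ∀ T, ∀ u ∈ U T, ∀ v, |u v| ≤ 1 := by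
    intro T u hu v
    rw [hU] at hu
    simp only at hu
    rw [mem_image] at hu
    obtain ⟨z, _, rfl⟩ := hu
    exact wj_abs _ _ _ _ _
  refine le_trans ?_ (h U hUc hU1 Q y (by omega) S hS)
  have h1 : (S.filter fun c => ¬ JointLaw ω δ B x R F E Q y c) ⊆
      (S.filter fun c => ¬ Law (ac ω c) δ' U E Q y) := by
    intro c hc
    rw [mem_filter] at hc ⊢
    refine ⟨hc.1, fun hlaw => hc.2 fun hyQ => ⟨(hlaw hyQ).1, fun T hyT hTE j hj => ?_⟩⟩
    have h3 := hT₀ (ac ω c) U hU1 E Q y hlaw T (by omega) hyT hTE 𝒳 x (R j) (F j)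
      (fun κ => by
        rw [hU]
        exact mem_image.2 ⟨(j, κ), mem_product.2 ⟨mem_range.2 hj, mem_univ _⟩, rfl⟩)
    intro π hπ
    refine (h3 π hπ).trans ?_
    exact Real.rpow_le_rpow_of_exponent_le (by exact_mod_cast (by omega : 1 ≤ T)) (by linarith)
  exact_mod_cast card_le_card h1

end

end Pool.Agent.H40SY
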