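import Pool.Agent.H40SY.Loc

/-! The law of large numbers, with a power saving, for the factorizations modulo primes of the members of a
well distributed family of polynomials. -/

set_option autoImplicit false

namespace Pool.Agent.H40SY

open NumberField IsDedekindDomain Finset Filter
open Pool.Agent.N842.HS (hv absNorm_hv hv_inj hv_surj VT mem_VT hom_finite card_high prime_above cf red red_cf
  red_surj)
open Pool.Agent.TH894.NE (mean Per box mean_mono mean_const mean_mul)
open Pool.Agent.N842.ST (av)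
open Pool.Agent.N647.TS (WellN lawW)

section
variable {K : Type} [Field K] [NumberField K]

theorem card_PP_le (T : ℕ) : (PP T).card ≤ T := by
  have h : PP T ⊆ Finset.Icc 1 T := by
    intro p hp
    rw [mem_PP] at hp
    rw [Finset.mem_Icc]
    exact ⟨hp.2.one_lt.le, hp.1⟩
  refine (card_le_card h).trans ?_
  rw [Nat.card_Icc]
  omega

theorem ev_absorb (C δ : ℝ) (hδ : 0 < δ) : ∀ᶠ x : ℕ in atTop,
    C * ((x : ℝ) ^ (1 / 2 + δ / 2) * Real.log x) ≤ (x : ℝ) ^ (1 / 2 + δ) := by
  have h4 := (isLittleO_log_rpow_atTop (show (0 : ℝ) < δ / 2 by positivity)).bound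
    (show (0 : ℝ) < 1 / (|C| + 1) by positivity)
  filter_upwards [tendsto_natCast_atTop_atTop.eventually h4, eventually_ge_atTop 1] with x hx hx1
  have hx1' : (1 : ℝ) ≤ x := by exact_mod_cast hx1
  have hx0 : (0 : ℝ) < x := by linarith
  rw [Real.norm_of_nonneg (Real.log_nonneg hx1'), Real.norm_of_nonneg (by positivity)] at hx
  have hC : 0 < |C| + 1 := by positivity
  rw [div_mul_eq_mul_div, one_mul, le_div_iff₀ hC] at hx
  have hlog := Real.log_nonneg hx1'
  have h5 : C * Real.log x ≤ (x : ℝ) ^ (δ / 2) := by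
    have h6 : C ≤ |C| + 1 := by
      have := le_abs_self C
      linarith
    calc C * Real.log x ≤ (|C| + 1) * Real.log x := mul_le_mul_of_nonneg_right h6 hlog
      _ ≤ _ := by linarith
  have h7 : 0 ≤ (x : ℝ) ^ (1 / 2 + δ / 2) := by positivity
  calc C * ((x : ℝ) ^ (1 / 2 + δ / 2) * Real.log x) = (x : ℝ) ^ (1 / 2 + δ / 2) * (C * Real.log x) := by ring
    _ ≤ (x : ℝ) ^ (1 / 2 + δ / 2) * (x : ℝ) ^ (δ / 2) := mul_le_mul_of_nonneg_left h5 h7
    _ = (x : ℝ) ^ (1 / 2 + δ) := by
        rw [← Real.rpow_add hx0]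
        congr 1
        ring

/-- **The law.** -/
theorem local_law {g n : ℕ} (ω : Fin g → 𝓞 K) (hω : (1 : 𝓞 K) ∈ Submodule.span ℤ (Set.range ω))
    (δ : ℝ) (hδ : 0 < δ) (A B : ℕ) : ∃ M₀ y₀ : ℕ,
    ∀ (s : Finset ℕ) (m : ℕ → Fin (n * g) → ℕ) (H y : ℕ), WellN s m H → y₀ ≤ y →
    ∀ U : ℕ → Finset (HeightOneSpectrum (𝓞 K) → ℝ), (∀ T, (U T).card ≤ T ^ B) →
    (∀ T, ∀ u ∈ U T, ∀ v, |u v| ≤ 1) →
    ∀ Ex ⊆ s, (∀ j ∈ Ex, ∃ T : ℕ, y ≤ T ∧ T ^ M₀ ≤ 2 * H + 1 ∧ ∃ u ∈ U T, ∃ o : Option (Fin n → Fin n),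
      (T : ℝ) ^ (1 / 2 + δ) < |∑ p ∈ PP T, loc ω u (fun p _ => TF o p) (m j) p -
        SS T (fun p _ φ => u (hv φ) * (av p (TF o p) * Real.log p))|) →
    (Ex.card : ℝ) ≤ (y : ℝ) ^ (-(A : ℝ)) * s.card := by
  classical
  obtain ⟨M₀, x₀, hlaw⟩ := lawW (n * g) (δ / 2) A (B + 1) (by positivity)
  obtain ⟨D, hD⟩ : ∃ D : ℝ, D = Module.finrank ℚ K * ((2 ^ n) ^ n : ℝ) := ⟨_, rfl⟩
  have hD0 : 0 < D := by
    have h1 : (0 : ℝ) < Module.finrank ℚ K := by exact_mod_cast Module.finrank_pos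
    rw [hD]
    positivity
  obtain ⟨x₁, hx₁⟩ := eventually_atTop.1 (ev_absorb (2 * D) δ hδ)
  obtain ⟨x₂, hx₂⟩ : ∃ x₂ : ℕ, x₂ = Fintype.card (Option (Fin n → Fin n)) := ⟨_, rfl⟩
  refine ⟨M₀, x₀ + x₁ + x₂ + 2, fun s m H y hW hy U hU hU1 Ex hEx hExb => ?_⟩
  -- the system
  obtain ⟨Λ, hΛ⟩ : ∃ Λ : ℕ → Finset (ℕ × (HeightOneSpectrum (𝓞 K) → ℝ) × Option (Fin n → Fin n)),
      Λ = fun x => if x₂ + 2 ≤ x then {x} ×ˢ ((U x) ×ˢ univ) else ∅ := ⟨_, rfl⟩
  have hΛm : ∀ x, ∀ l ∈ Λ x, l.1 = x ∧ l.2.1 ∈ U x ∧ 2 ≤ x := by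
    intro x l hl
    rw [hΛ] at hl
    simp only at hl
    split_ifs at hl with h
    · rw [mem_product, mem_singleton, mem_product] at hl
      exact ⟨hl.1, hl.2.1, by omega⟩
    · exact absurd hl (notMem_empty _)
  refine hlaw s m H y hW (by omega) _ Λ (fun x hx => ?_) ℕ (fun x _ => PP x) (fun _ a => a)
    (fun x l _ => card_PP_le x) (fun x l _ a ha => ⟨(mem_PP.1 ha).2.one_lt.le, (mem_PP.1 ha).1⟩)
    (fun x l _ a ha a' ha' hne => (Nat.coprime_primes (mem_PP.1 ha).2 (mem_PP.1 ha').2).2 hne)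
    (fun l a v => (D * Real.log l.1)⁻¹ * loc ω l.2.1 (fun p _ => TF l.2.2 p) v a)
    (fun x l hl a ha => ?_) (fun x l hl a ha v => ?_) Ex hEx (fun j hj => ?_)
  · rw [hΛ]
    simp only
    split_ifs with h
    · rw [card_product, card_product, card_singleton, one_mul, card_univ, ← hx₂]
      have h1 : (U x).card * x₂ ≤ x ^ (B + 1) := by
        rw [pow_succ]
        exact Nat.mul_le_mul (hU x) (by omega)
      have h2 : (((U x).card * x₂ : ℕ) : ℝ) ≤ ((x ^ (B + 1) : ℕ) : ℝ) := by exact_mod_cast h1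
      refine h2.trans (le_of_eq ?_)
      push_cast
      rw [← Real.rpow_natCast]
      push_cast
      rfl
    · rw [card_empty]
      push_cast
      positivity
  · have : Fact a.Prime := ⟨(mem_PP.1 ha).2⟩
    intro v
    exact congrArg (fun z => (D * Real.log l.1)⁻¹ * z)
      ((loc_per (ω := ω) (u := l.2.1) (H := fun p _ => TF l.2.2 p) a) v)
  · have hap := (mem_PP.1 ha).2
    have : Fact a.Prime := ⟨hap⟩
    obtain ⟨h1, h2, h3⟩ := hΛm x l hl
    have hlx : 0 < Real.log l.1 := by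
      rw [h1]
      exact Real.log_pos (by exact_mod_cast (by omega : 1 < x))
    have h4 := loc_abs (ω := ω) (u := l.2.1) (H := fun p _ => TF l.2.2 p) (hU1 x l.2.1 h2)
      (B := (2 ^ n) ^ n) (fun p _ z => TF_abs l.2.2 p z) v a
    have h5 : Real.log a ≤ Real.log l.1 := by
      rw [h1]
      exact Real.log_le_log (by exact_mod_cast hap.pos) (by exact_mod_cast (mem_PP.1 ha).1)
    rw [abs_mul, abs_of_pos (by positivity), inv_mul_le_iff₀ (by positivity), mul_one]
    refine h4.trans ?_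
    rw [← mul_assoc, hD]
    exact mul_le_mul_of_nonneg_left h5 (by positivity)
  · obtain ⟨T, hyT, hTH, u, hu, o, ho⟩ := hExb j hj
    refine ⟨T, hyT, hTH, (T, u, o), ?_, ?_⟩
    · rw [hΛ]
      simp only
      rw [if_pos (by omega), mem_product, mem_singleton, mem_product]
      exact ⟨rfl, hu, mem_univ _⟩
    · simp only
      have hlT : 0 < Real.log T := Real.log_pos (by exact_mod_cast (by omega : 1 < T))
      have hDl : 0 < D * Real.log T := by positivity
      have hT0 : (0 : ℝ) < T := by exact_mod_cast (by omega : 0 < T)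
      have e1 : ∑ a ∈ PP T, (D * Real.log T)⁻¹ * loc ω u (fun p _ => TF o p) (m j) a =
          (D * Real.log T)⁻¹ * ∑ a ∈ PP T, loc ω u (fun p _ => TF o p) (m j) a := by rw [mul_sum]
      have e2 : ∑ a ∈ PP T, mean (n * g) a
          (fun v => (D * Real.log T)⁻¹ * loc ω u (fun p _ => TF o p) v a) =
          (D * Real.log T)⁻¹ * SS T (fun p _ φ => u (hv φ) * (av p (TF o p) * Real.log p)) := by
        unfold SS
        rw [mul_sum]
        refine sum_congr rfl fun a ha => ?_
        have : Fact a.Prime := ⟨(mem_PP.1 ha).2⟩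
        rw [mean_mul, loc_mean (H := fun p _ => TF o p) hω a]
      rw [e1, e2, ← mul_sub, abs_mul, abs_of_pos (inv_pos.2 hDl)]
      rw [lt_inv_mul_iff₀ hDl]
      refine lt_of_le_of_lt ?_ ho
      have h6 : Real.sqrt (max 1 (∑ a ∈ PP T, mean (n * g) a
          (fun v => ((D * Real.log T)⁻¹ * loc ω u (fun p _ => TF o p) v a) ^ 2))) ≤ (T : ℝ) ^ (1 / 2 : ℝ) := by
        rw [← Real.sqrt_eq_rpow]
        apply Real.sqrt_le_sqrt
        apply max_le
        · exact_mod_cast (by omega : 1 ≤ T)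
        · refine (sum_le_sum (g := fun _ => (1 : ℝ)) fun a ha => ?_).trans ?_
          · have hap := (mem_PP.1 ha).2
            have : Fact a.Prime := ⟨hap⟩
            have h4 : ∀ v, |(D * Real.log T)⁻¹ * loc ω u (fun p _ => TF o p) v a| ≤ 1 := by
              intro v
              have h4 := loc_abs (ω := ω) (u := u) (H := fun p _ => TF o p) (hU1 T u hu)
                (B := (2 ^ n) ^ n) (fun p _ z => TF_abs o p z) v a
              have h5 : Real.log a ≤ Real.log T :=
                Real.log_le_log (by exact_mod_cast hap.pos) (by exact_mod_cast (mem_PP.1 ha).1)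
              rw [abs_mul, abs_of_pos (by positivity), inv_mul_le_iff₀ (by positivity), mul_one]
              refine h4.trans ?_
              rw [← mul_assoc, hD]
              exact mul_le_mul_of_nonneg_left h5 (by positivity)
            have h7 := mean_mono (d := n * g) (q := a)
              (F := fun v => ((D * Real.log T)⁻¹ * loc ω u (fun p _ => TF o p) v a) ^ 2)
              (G := fun _ => (1 : ℝ)) (fun v => by
                have := h4 v
                rw [← sq_abs]
                exact pow_le_one₀ (abs_nonneg _) this)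
            rw [mean_const _ _ hap.one_lt.le] at h7
            exact h7
          · rw [sum_const, nsmul_eq_mul, mul_one]
            exact_mod_cast card_PP_le T
      calc D * Real.log T * (Real.sqrt (max 1 (∑ a ∈ PP T, mean (n * g) a
          (fun v => ((D * Real.log T)⁻¹ * loc ω u (fun p _ => TF o p) v a) ^ 2))) * (T : ℝ) ^ (δ / 2)) ≤
          D * Real.log T * ((T : ℝ) ^ (1 / 2 : ℝ) * (T : ℝ) ^ (δ / 2)) := by
            apply mul_le_mul_of_nonneg_left _ hDl.le
            exact mul_le_mul_of_nonneg_right h6 (by positivity)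
        _ = D * ((T : ℝ) ^ (1 / 2 + δ / 2) * Real.log T) := by
            rw [← Real.rpow_add hT0]
            ring
        _ ≤ 2 * D * ((T : ℝ) ^ (1 / 2 + δ / 2) * Real.log T) := by
            apply mul_le_mul_of_nonneg_right _ (by positivity)
            linarith
        _ ≤ (T : ℝ) ^ (1 / 2 + δ) := hx₁ T (by omega)

end

end Pool.Agent.H40SY
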