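import Pool.Agent.N647.TS.Law
import Pool.Agent.N842.HS.PrmG
import Pool.Agent.H40SY.SS

/-! Local functions given by the factorizations of the reductions of a polynomial, and their means. -/

set_option autoImplicit false

namespace Pool.Agent.H40SY

open NumberField IsDedekindDomain Finset
open Pool.Agent.N842.HS (hv absNorm_hv hv_inj hv_surj VT mem_VT hom_finite card_high prime_above cf red red_cf
  red_surj)
open Pool.Agent.TH894.NE (mean Per box mean_mono mean_const)
open Pool.Agent.N842.ST (av)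

section
variable {K : Type} [Field K] [NumberField K]

variable (K) in
theorem hom_le (p : ℕ) [hp : Fact p.Prime] [Fintype (𝓞 K →+* ZMod p)] :
    (Fintype.card (𝓞 K →+* ZMod p) : ℝ) ≤ Module.finrank ℚ K := by
  classical
  have h2 := prime_above K p hp.out ((univ : Finset (𝓞 K →+* ZMod p)).image fun ψ => hv ψ) (fun v hv' => by
    obtain ⟨ψ, _, rfl⟩ := mem_image.1 hv'
    show (p : 𝓞 K) ∈ RingHom.ker ψ
    rw [RingHom.mem_ker, map_natCast, ZMod.natCast_self])
  rw [card_image_of_injective _ (fun ψ ψ' h => hv_inj ψ ψ' h), card_univ] at h2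
  rw [← RingOfIntegers.rank]
  exact_mod_cast h2

variable {g n : ℕ} (ω : Fin g → 𝓞 K)

/-- the local function with the weight `u` -/
noncomputable def loc (u : HeightOneSpectrum (𝓞 K) → ℝ)
    (H : ∀ (p : ℕ) [Fact p.Prime], (Fin n → ZMod p) → ℝ) (m : Fin (n * g) → ℕ) (p : ℕ) : ℝ :=
  SP (fun p _ φ => u (hv φ) * (H p (fun i => φ (cf ω m i)) * Real.log p)) p

variable {ω} {u : HeightOneSpectrum (𝓞 K) → ℝ} {H : ∀ (p : ℕ) [Fact p.Prime], (Fin n → ZMod p) → ℝ}

theorem loc_eq (m : Fin (n * g) → ℕ) (p : ℕ) [hp : Fact p.Prime] [Fintype (𝓞 K →+* ZMod p)] :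
    loc ω u H m p = ∑ φ : 𝓞 K →+* ZMod p, u (hv φ) *
      (H p (red ω φ (fun k => (m k : ZMod p))) * Real.log p) := by
  unfold loc
  rw [SP_eq]
  refine sum_congr rfl fun φ _ => ?_
  rw [red_cf]

theorem loc_per (p : ℕ) [hp : Fact p.Prime] : Per p (fun m => loc ω u H m p) := by
  have : Finite (𝓞 K →+* ZMod p) := hom_finite (𝓞 K) p
  let _ : Fintype (𝓞 K →+* ZMod p) := Fintype.ofFinite _
  intro m
  show loc ω u H m p = loc ω u H (fun i => m i % p) p
  rw [loc_eq, loc_eq]
  simp only [ZMod.natCast_mod]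

theorem loc_abs (hu : ∀ v, |u v| ≤ 1) {B : ℝ} (hB : ∀ (p : ℕ) [Fact p.Prime] x, |H p x| ≤ B)
    (m : Fin (n * g) → ℕ) (p : ℕ) [hp : Fact p.Prime] :
    |loc ω u H m p| ≤ Module.finrank ℚ K * (B * Real.log p) := by
  have : Finite (𝓞 K →+* ZMod p) := hom_finite (𝓞 K) p
  let _ : Fintype (𝓞 K →+* ZMod p) := Fintype.ofFinite _
  have hlog : 0 ≤ Real.log p := Real.log_natCast_nonneg p
  have hB0 : 0 ≤ B := (abs_nonneg _).trans (hB p (fun _ => 0))
  rw [loc_eq]
  refine (abs_sum_le_sum_abs _ _).trans ?_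
  refine (sum_le_sum (g := fun _ => B * Real.log p) fun φ _ => ?_).trans ?_
  · rw [abs_mul, abs_mul, abs_of_nonneg hlog]
    calc |u (hv φ)| * (|H p (red ω φ (fun k => (m k : ZMod p)))| * Real.log p) ≤ 1 * (B * Real.log p) :=
          mul_le_mul (hu _) (mul_le_mul_of_nonneg_right (hB p _) hlog) (by positivity) zero_le_one
      _ = _ := one_mul _
  · rw [sum_const, card_univ, nsmul_eq_mul]
    exact mul_le_mul_of_nonneg_right (hom_le K p) (by positivity)

theorem loc_mean (hω : (1 : 𝓞 K) ∈ Submodule.span ℤ (Set.range ω)) (p : ℕ) [hp : Fact p.Prime] :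
    mean (n * g) p (fun m => loc ω u H m p) =
      SP (fun p _ φ => u (hv φ) * (av p (H p) * Real.log p)) p := by
  have : Finite (𝓞 K →+* ZMod p) := hom_finite (𝓞 K) p
  let _ : Fintype (𝓞 K →+* ZMod p) := Fintype.ofFinite _
  have h1 : (fun m => loc ω u H m p) = fun m : Fin (n * g) → ℕ =>
      (fun x : Fin (n * g) → ZMod p => ∑ φ : 𝓞 K →+* ZMod p, u (hv φ) *
        (H p (red ω φ x) * Real.log p)) (fun k => (m k : ZMod p)) := by
    funext m
    exact loc_eq m p
  rw [h1, Pool.Agent.N842.ST.mean_eq_av p (fun x : Fin (n * g) → ZMod p => ∑ φ : 𝓞 K →+* ZMod p,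
    u (hv φ) * (H p (red ω φ x) * Real.log p)), SP_eq]
  unfold Pool.Agent.N842.ST.av
  rw [sum_comm, sum_div]
  refine sum_congr rfl fun φ _ => ?_
  have h3 := Pool.Agent.Y57.FD.Mom.mean_hom (red (D := n) ω φ) (red_surj ω hω φ) (fun x => H p x)
  rw [Fintype.card_fun, Fintype.card_fun, Fintype.card_fin, Fintype.card_fin, ZMod.card] at h3
  push_cast at h3
  rw [← mul_sum, ← sum_mul, mul_div_assoc, ← h3]
  ring

/-- the test functions: the factorizations of the type of a colouring, and the indicator function of the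
polynomials which are not separable -/
noncomputable def TF {n : ℕ} (o : Option (Fin n → Fin n)) (p : ℕ) [Fact p.Prime] (x : Fin n → ZMod p) : ℝ :=
  open Classical in
  match o with
  | some c => (G (sizes c) x : ℝ)
  | none => if (mp x).Separable then 0 else 1

theorem TF_abs (o : Option (Fin n → Fin n)) (p : ℕ) [Fact p.Prime] (x : Fin n → ZMod p) :
    |TF o p x| ≤ (2 ^ n) ^ n := by
  classical
  cases o with
  | some c =>
    show |(G (sizes c) x : ℝ)| ≤ _
    rw [Nat.abs_cast]
    exact_mod_cast G_le (sizes c) x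
  | none =>
    show |(if (mp x).Separable then (0 : ℝ) else 1)| ≤ _
    have h : (1 : ℝ) ≤ (2 ^ n) ^ n := one_le_pow₀ (one_le_pow₀ (by norm_num))
    split_ifs
    · rw [abs_zero]; linarith
    · rw [abs_one]; exact h

theorem av_some (c : Fin n → Fin n) (p : ℕ) [hp : Fact p.Prime] : av p (TF (some c) p) = 1 := by
  unfold Pool.Agent.N842.ST.av
  have hp0 : (p : ℝ) ^ n ≠ 0 := by
    have : (0 : ℝ) < p := by exact_mod_cast hp.out.pos
    positivity
  rw [div_eq_one_iff_eq hp0]
  have h := sum_G (κ := ZMod p) (sizes c) (sum_sizes c)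
  rw [ZMod.card] at h
  show ∑ x, (G (sizes c) x : ℝ) = _
  exact_mod_cast h

theorem av_none (p : ℕ) [hp : Fact p.Prime] :
    0 ≤ av (D := n) p (TF none p) ∧ av (D := n) p (TF none p) ≤ n / p := by
  classical
  have hp0 : (0 : ℝ) < p := by exact_mod_cast hp.out.pos
  have h1 : ∑ x : Fin n → ZMod p, TF none p x = (Nat.card {x : Fin n → ZMod p // ¬ (mp x).Separable} : ℝ) := by
    rw [Nat.card_eq_fintype_card, Fintype.card_subtype, card_filter]
    push_cast
    refine sum_congr rfl fun x _ => ?_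
    show (if (mp x).Separable then (0 : ℝ) else 1) = _
    split_ifs <;> simp_all
  unfold Pool.Agent.N842.ST.av
  rw [h1]
  refine ⟨by positivity, ?_⟩
  rw [div_le_div_iff₀ (by positivity) hp0]
  have h2 := nonsep_card (p := p) n
  rw [le_div_iff₀ hp0] at h2
  exact h2

end

end Pool.Agent.H40SY
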