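import Pool.Agent.H40SY.Grp2
import Pool.Agent.H40SY.BoxWD

/-! The theorem. -/

set_option autoImplicit false

namespace Pool.Agent.H40SY

open NumberField IsDedekindDomain Finset Filter
open Pool.Agent.N842.HS (hv absNorm_hv hv_inj hv_surj VT mem_VT hom_finite cf)
open Pool.Agent.N842.ST (av)

section
variable {K : Type} [Field K] [NumberField K] {n g : ℕ}

theorem Close.mono {D : VarietyData K} {M : Type} [Field M] [NumberField M] [Algebra K M] {T : ℕ}
    {ε ε' : ℝ} (h : Close D M T ε) (hε : ε ≤ ε') : Close D M T ε' := fun R' b' hR hb =>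
  (h R' b' hR hb).trans (mul_le_mul_of_nonneg_left hε (Nat.cast_nonneg _))

theorem Invariant.mono {ω : Fin g → 𝓞 K} {δ δ' : ℝ} {B : ℕ} {V : ℕ → VarietyData K} {E Q y : ℕ}
    {c : Fin n → Fin g → ℤ} (hy : 1 ≤ y) (hδ : δ ≤ δ') (h : Invariant ω δ B V E Q y c) :
    Invariant ω δ' B V E Q y c := by
  intro hyQ
  obtain ⟨h1, h2⟩ := h hyQ
  refine ⟨h1, fun T hyT hTQ j hj M _ hM => ?_⟩
  refine (h2 T hyT hTQ j hj M hM).mono ?_
  exact Real.rpow_le_rpow_of_exponent_le (by exact_mod_cast (by omega : 1 ≤ T)) (by linarith)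

theorem main0 (ω : Fin g → 𝓞 K) (hω : (1 : 𝓞 K) ∈ Submodule.span ℤ (Set.range ω)) (δ : ℝ) (hδ : 0 < δ)
    (hδ1 : δ ≤ 1 / 2) (A B : ℕ) : ∃ E y₀ : ℕ, 1 ≤ y₀ ∧ ∀ (V : ℕ → VarietyData K) (Q y : ℕ), y₀ ≤ y →
    ∀ S : Finset (Fin n → Fin g → ℤ), WellDistributed Q S →
      open Classical in
      ((S.filter fun c => ¬ Invariant ω δ B V E Q y c).card : ℝ) ≤ 1 / (y : ℝ) ^ A * S.card := by
  classical
  obtain ⟨M₀, y₀, hlaw⟩ := local_law (n := n) ω hω (δ / 2) (by positivity) A (B + 1)
  obtain ⟨T₀, hT₀⟩ := close_of (K := K) (n := n) δ hδ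
  obtain ⟨T₁, hT₁⟩ := symmetric_of (K := K) (n := n) δ hδ hδ1
  refine ⟨M₀ + 2, y₀ + T₀ + T₁ + 2, by omega, fun V Q y hy S hS => ?_⟩
  -- the trivial case
  rcases Nat.eq_zero_or_pos Q with hQ | hQ
  · have h1 : (S.filter fun c => ¬ Invariant ω δ B V (M₀ + 2) Q y c) = ∅ := by
      refine filter_eq_empty_iff.2 fun c _ => not_not.2 fun hyE => ?_
      exfalso
      rw [hQ] at hyE
      have : 0 < y ^ (M₀ + 2) := Nat.pow_pos (by omega)
      omega
    rw [h1, card_empty]
    push_cast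
    positivity
  obtain ⟨H, hH⟩ : ∃ H : ℕ, H = (Q - 1) / 2 := ⟨_, rfl⟩
  have hHQ : 2 * H + 1 ≤ Q := by omega
  obtain ⟨c, hc1, hc2⟩ := enum S
  obtain ⟨m, hm⟩ : ∃ m : ℕ → Fin (n * g) → ℕ, m = fun t => nn (2 * H + 1).factorial (c t) := ⟨_, rfl⟩
  have hW := wellN hS hHQ hc1 hc2
  rw [← hm] at hW
  obtain ⟨U, hU⟩ : ∃ U : ℕ → Finset (HeightOneSpectrum (𝓞 K) → ℝ),
      U = fun T => if 2 ≤ T then insert (fun _ => 1) ((range (T ^ B)).image fun j => wt (V j)) else ∅ :=
    ⟨_, rfl⟩
  have hUc : ∀ T, (U T).card ≤ T ^ (B + 1) := by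
    intro T
    rw [hU]
    simp only
    split_ifs with h2
    · refine (card_insert_le _ _).trans ?_
      have h3 : ((range (T ^ B)).image fun j => wt (V j)).card ≤ T ^ B := by
        refine card_image_le.trans ?_
        rw [card_range]
      have h4 : 1 ≤ T ^ B := Nat.one_le_pow _ _ (by omega)
      calc _ ≤ T ^ B + T ^ B := by omega
        _ = T ^ B * 2 := by ring
        _ ≤ T ^ B * T := Nat.mul_le_mul_left _ h2
        _ = T ^ (B + 1) := by rw [pow_succ]
    · rw [card_empty]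
      exact Nat.zero_le _
  have hU1 : ∀ T, ∀ u ∈ U T, ∀ v, |u v| ≤ 1 := by
    intro T u hu v
    rw [hU] at hu
    simp only at hu
    split_ifs at hu with h2
    · rw [mem_insert, mem_image] at hu
      rcases hu with rfl | ⟨j, _, rfl⟩
      · simp
      · exact wt_abs _ _
    · exact absurd hu (notMem_empty _)
  have hfin := hlaw (range S.card) m H y hW (by omega) U hUc hU1
    ((range S.card).filter fun t => ¬ Invariant ω δ B V (M₀ + 2) Q y (c t)) (filter_subset _ _)
    (fun t ht => by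
      by_contra hno
      apply (mem_filter.1 ht).2
      -- the law for all weights
      have hkey : ∀ T : ℕ, y ≤ T → T ^ (M₀ + 2) ≤ Q → ∀ u : HeightOneSpectrum (𝓞 K) → ℝ,
          ((∃ j < T ^ B, u = wt (V j)) ∨ u = fun _ => 1) → ∀ o : Option (Fin n → Fin n),
          |SS T (fun p _ φ => u (hv φ) * (TF o p (fun i => φ (ac ω (c t) i)) * Real.log p)) -
            SS T (fun p _ φ => u (hv φ) * (av p (TF o p) * Real.log p))| ≤ (T : ℝ) ^ (1 / 2 + δ / 2) := by
        intro T hyT hTE u hu o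
        have hTH : T ^ M₀ ≤ 2 * H + 1 ∧ T ≤ 2 * H + 1 := by
          have hT2 : 2 ≤ T := by omega
          have h1 : T ^ (M₀ + 2) = T ^ M₀ * T * T := by ring
          have h2 : 1 ≤ T ^ M₀ := Nat.one_le_pow _ _ (by omega)
          have h3 : T ^ M₀ * T * 2 ≤ Q := (Nat.mul_le_mul_left _ hT2).trans (by rw [← h1]; exact hTE)
          have h4 : T ^ M₀ ≤ T ^ M₀ * T := Nat.le_mul_of_pos_right _ (by omega)
          have h5 : T ≤ T ^ M₀ * T := Nat.le_mul_of_pos_left _ (by omega)
          constructor <;> omega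
        by_contra hbig
        rw [not_le] at hbig
        refine hno ⟨T, hyT, hTH.1, u, ?_, o, ?_⟩
        · rw [hU]
          simp only
          rw [if_pos (by omega), mem_insert, mem_image]
          rcases hu with ⟨j, hj, rfl⟩ | rfl
          · exact Or.inr ⟨j, mem_range.2 hj, rfl⟩
          · exact Or.inl rfl
        · refine lt_of_lt_of_eq hbig ?_
          congr 2
          show SS T (fun p _ φ => u (hv φ) * (TF o p (fun i => φ (ac ω (c t) i)) * Real.log p)) =
            SS T (fun p _ φ => u (hv φ) * (TF o p (fun i => φ (cf ω (m t) i)) * Real.log p))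
          refine SS_congr T fun p hp φ hpT => ?_
          have h1 : (fun i => φ (ac ω (c t) i)) = fun i => φ (cf ω (m t) i) := by
            funext i
            unfold ac cf
            rw [map_sum, map_sum]
            refine sum_congr rfl fun j' _ => ?_
            rw [map_mul, map_mul, map_intCast, map_natCast, hm]
            congr 1
            exact (nn_zmod (Nat.factorial_pos _)
              (Nat.dvd_factorial hp.out.pos (hpT.trans hTH.2)) (c t) i j').symm
          rw [h1]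
      intro hyE
      have hs : IsSymmetric (mp (ac ω (c t))) :=
        hT₁ (ac ω (c t)) y (by omega) fun o => hkey y le_rfl hyE (fun _ => 1) (Or.inr rfl) o
      refine ⟨hs, fun T hyT hTE j hj M _ hM => ?_⟩
      rw [poly_eq] at hM
      refine hT₀ (ac ω (c t)) hs T (by omega) (V j) (fun u hu o => ?_) M hM
      refine hkey T hyT hTE u ?_ o
      rcases hu with rfl | rfl
      · exact Or.inl ⟨j, hj, rfl⟩
      · exact Or.inr rfl)
  rw [card_enum hc1 hc2]
  refine hfin.trans (le_of_eq ?_)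
  rw [card_range, Real.rpow_neg (Nat.cast_nonneg _), Real.rpow_natCast, one_div]

/-- **The theorem.** -/
theorem main (ω : Fin g → 𝓞 K) (hω : (1 : 𝓞 K) ∈ Submodule.span ℤ (Set.range ω)) (δ : ℝ) (hδ : 0 < δ)
    (A B : ℕ) : ∃ E y₀ : ℕ, ∀ (V : ℕ → VarietyData K) (Q y : ℕ), y₀ ≤ y →
    ∀ S : Finset (Fin n → Fin g → ℤ), WellDistributed Q S →
      open Classical in
      ((S.filter fun c => ¬ Invariant ω δ B V E Q y c).card : ℝ) ≤ 1 / (y : ℝ) ^ A * S.card := by
  classical
  obtain ⟨E, y₀, h0, h⟩ := main0 (n := n) ω hω (min δ (1 / 2)) (by positivity) (min_le_right _ _) A B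
  refine ⟨E, y₀, fun V Q y hy S hS => ?_⟩
  refine le_trans ?_ (h V Q y hy S hS)
  have h1 : (S.filter fun c => ¬ Invariant ω δ B V E Q y c) ⊆
      (S.filter fun c => ¬ Invariant ω (min δ (1 / 2)) B V E Q y c) := by
    intro c hc
    rw [mem_filter] at hc ⊢
    exact ⟨hc.1, fun h2 => hc.2 (h2.mono (h0.trans hy) (min_le_left _ _))⟩
  exact_mod_cast card_le_card h1

end

end Pool.Agent.H40SY
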