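import Mathlib

/-! Monic polynomials of degree `n` over finite fields: the number of the factorizations into factors of
given degrees, and the polynomials which are not separable. -/

set_option autoImplicit false

namespace Pool.Agent.H40SY

open Polynomial Finset

/-- the monic polynomial of degree `n` with the other coefficients `u` -/
noncomputable def mp {R : Type*} [CommRing R] {n : ℕ} (u : Fin n → R) : R[X] :=
  X ^ n + ∑ i : Fin n, C (u i) * X ^ (i : ℕ)

section
variable {R : Type*} [CommRing R] {n : ℕ}

theorem mp_monic (u : Fin n → R) : (mp u).Monic := monic_X_pow_add (degree_sum_fin_lt u)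

theorem mp_natDegree [Nontrivial R] (u : Fin n → R) : (mp u).natDegree = n := by
  unfold mp
  rw [natDegree_add_eq_left_of_degree_lt, natDegree_X_pow]
  rw [degree_X_pow]
  exact degree_sum_fin_lt u

theorem mp_coeff (u : Fin n → R) (i : Fin n) : (mp u).coeff i = u i := by
  unfold mp
  rw [coeff_add, coeff_X_pow, if_neg (by have := i.2; omega), zero_add, finsetSum_coeff,
    Finset.sum_eq_single i]
  · rw [coeff_C_mul, coeff_X_pow, if_pos rfl, mul_one]
  · intro j _ hj
    rw [coeff_C_mul, coeff_X_pow, if_neg (fun h => hj (Fin.ext h.symm)), mul_zero]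
  · intro h
    exact absurd (Finset.mem_univ i) h

theorem mp_injective : Function.Injective (mp : (Fin n → R) → R[X]) := by
  intro u w h
  funext i
  rw [← mp_coeff u i, h, mp_coeff]

theorem eq_mp {f : R[X]} (hf : f.Monic) (hn : f.natDegree = n) :
    f = mp (fun i : Fin n => f.coeff i) := by
  conv_lhs => rw [hf.as_sum]
  unfold mp
  rw [hn, Finset.sum_range]

theorem mp_map {S : Type*} [CommRing S] (φ : R →+* S) (u : Fin n → R) :
    (mp u).map φ = mp (fun i => φ (u i)) := by
  unfold mp
  rw [Polynomial.map_add, Polynomial.map_pow, map_X, Polynomial.map_sum]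
  congr 1
  refine Finset.sum_congr rfl fun i _ => ?_
  rw [Polynomial.map_mul, map_C, Polynomial.map_pow, map_X]

end

section
variable {κ : Type*} [Field κ] {r n : ℕ}

/-- number of the factorizations of `mp u` into monic polynomials of the degrees `lam a` -/
noncomputable def G (lam : Fin r → ℕ) (u : Fin n → κ) : ℕ :=
  Nat.card {x : (a : Fin r) → Fin (lam a) → κ // ∏ a, mp (x a) = mp u}

theorem prod_mp (lam : Fin r → ℕ) (hl : ∑ a, lam a = n) (x : (a : Fin r) → Fin (lam a) → κ) :
    ∏ a, mp (x a) = mp (fun i : Fin n => (∏ a, mp (x a)).coeff i) := by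
  refine eq_mp (monic_prod_of_monic _ _ fun a _ => mp_monic _) ?_
  rw [natDegree_prod_of_monic _ _ fun a _ => mp_monic _]
  rw [← hl]
  exact Finset.sum_congr rfl fun a _ => mp_natDegree _

/-- the mean number of factorizations is one -/
theorem sum_G [Fintype κ] (lam : Fin r → ℕ) (hl : ∑ a, lam a = n) :
    ∑ u : Fin n → κ, G lam u = Fintype.card κ ^ n := by
  classical
  have h1 : ∀ u : Fin n → κ, G lam u =
      ((Finset.univ : Finset ((a : Fin r) → Fin (lam a) → κ)).filter
        (fun x => (fun i : Fin n => (∏ a, mp (x a)).coeff i) = u)).card := by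
    intro u
    unfold G
    rw [Nat.card_eq_fintype_card, Fintype.card_subtype]
    congr 1
    refine Finset.filter_congr fun x _ => ?_
    constructor
    · intro h
      rw [h]
      funext i
      exact mp_coeff u i
    · intro h
      rw [prod_mp lam hl x, h]
  rw [Finset.sum_congr rfl fun u _ => h1 u, ← Finset.card_eq_sum_card_fiberwise (fun x _ => Finset.mem_univ _),
    Finset.card_univ, Fintype.card_pi]
  simp only [Fintype.card_fun, Fintype.card_fin]
  rw [Finset.prod_pow_eq_pow_sum, hl]

theorem G_le (lam : Fin r → ℕ) (u : Fin n → κ) [Finite κ] : G lam u ≤ (2 ^ n) ^ r := by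
  classical
  let _ : Fintype κ := Fintype.ofFinite κ
  set A := AlgebraicClosure κ
  have hF0 : (mp u).map (algebraMap κ A) ≠ 0 := ((mp_monic u).map _).ne_zero
  set s : Multiset A := ((mp u).map (algebraMap κ A)).roots with hs
  have hscard : s.card ≤ n := by
    refine (card_roots' _).trans ?_
    rw [natDegree_map, mp_natDegree]
  set P : Finset (Multiset A) := s.powerset.toFinset with hP
  have hPcard : P.card ≤ 2 ^ n := by
    refine (Multiset.toFinset_card_le _).trans ?_
    rw [Multiset.card_powerset]
    exact Nat.pow_le_pow_right (by norm_num) hscard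
  have hspl : ∀ f : κ[X], f.Monic → f.map (algebraMap κ A) =
      ((f.map (algebraMap κ A)).roots.map fun a => X - C a).prod := fun f hf =>
    (IsAlgClosed.splits (f.map (algebraMap κ A))).eq_prod_roots_of_monic (hf.map _)
  have hcard : G lam u ≤ Fintype.card (Fin r → P) := by
    unfold G
    rw [← Nat.card_eq_fintype_card]
    refine Nat.card_le_card_of_injective (fun x a => ⟨((mp (x.1 a)).map (algebraMap κ A)).roots, ?_⟩) ?_
    · rw [hP, Multiset.mem_toFinset, Multiset.mem_powerset, hs]
      refine roots.le_of_dvd hF0 ?_
      have h2 : mp (x.1 a) ∣ ∏ a, mp (x.1 a) := Finset.dvd_prod_of_mem _ (Finset.mem_univ a)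
      rw [x.2] at h2
      exact Polynomial.map_dvd _ h2
    · intro x y h
      apply Subtype.ext
      funext a
      have h1 := congrArg Subtype.val (congrFun h a)
      simp only at h1
      apply mp_injective
      apply Polynomial.map_injective _ (algebraMap κ A).injective
      rw [hspl _ (mp_monic _), h1, ← hspl _ (mp_monic _)]
  refine hcard.trans ?_
  rw [Fintype.card_fun, Fintype.card_fin, Fintype.card_coe]
  exact Nat.pow_le_pow_left hPcard r

/-- the polynomials with given coefficients except the constant one are separable with few exceptions -/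
theorem nonsep_line {p : ℕ} [hp : Fact p.Prime] {n : ℕ} (hn : n + 1 < p) (w : Fin n → ZMod p) :
    Nat.card {t : ZMod p // ¬ (mp (Fin.cons t w : Fin (n + 1) → ZMod p)).Separable} ≤ n := by
  classical
  set A := AlgebraicClosure (ZMod p)
  set F : (ZMod p)[X] := mp (Fin.cons 0 w : Fin (n + 1) → ZMod p) with hF
  have hcons : ∀ t : ZMod p, mp (Fin.cons t w : Fin (n + 1) → ZMod p) = F + C t := by
    intro t
    rw [hF]
    unfold mp
    rw [Fin.sum_univ_succ, Fin.sum_univ_succ]
    simp only [Fin.cons_zero, Fin.cons_succ, Fin.val_zero, pow_zero, mul_one, map_zero, zero_add]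
    ring
  have hder : derivative F ≠ 0 := by
    intro h
    have h1 : (derivative F).coeff n = 0 := by rw [h, coeff_zero]
    rw [coeff_derivative] at h1
    have h2 : F.coeff (n + 1) = 1 := by
      have := (mp_monic (Fin.cons 0 w : Fin (n + 1) → ZMod p)).coeff_natDegree
      rwa [mp_natDegree] at this
    rw [h2, one_mul] at h1
    have h3 : ((n + 1 : ℕ) : ZMod p) = 0 := by exact_mod_cast h1
    rw [ZMod.natCast_eq_zero_iff] at h3
    exact absurd (Nat.le_of_dvd (by omega) h3) (by omega)
  set s : Finset A := ((derivative F).map (algebraMap (ZMod p) A)).roots.toFinset with hs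
  have hscard : s.card ≤ n := by
    refine (Multiset.toFinset_card_le _).trans ((card_roots' _).trans ?_)
    rw [natDegree_map]
    refine (natDegree_derivative_le _).trans ?_
    rw [hF, mp_natDegree]
    omega
  have hex : ∀ t : {t : ZMod p // ¬ (mp (Fin.cons t w : Fin (n + 1) → ZMod p)).Separable},
      ∃ ξ : s, algebraMap (ZMod p) A t.1 = - (F.map (algebraMap (ZMod p) A)).eval (ξ : A) := by
    rintro ⟨t, ht⟩
    rw [hcons] at ht
    have h1 : ¬ IsCoprime ((F + C t).map (algebraMap (ZMod p) A))
        ((derivative (F + C t)).map (algebraMap (ZMod p) A)) := by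
      rw [isCoprime_map]
      exact ht
    have h2 : ∃ ξ : A, ((F + C t).map (algebraMap (ZMod p) A)).eval ξ = 0 ∧
        ((derivative (F + C t)).map (algebraMap (ZMod p) A)).eval ξ = 0 := by
      by_contra hcon
      push Not at hcon
      apply h1
      apply isCoprime_of_dvd
      · rintro ⟨h3, _⟩
        have hm : ((F + C t).map (algebraMap (ZMod p) A)).Monic := by
          rw [← hcons]
          exact (mp_monic _).map _
        exact hm.ne_zero h3
      · intro q hq hq0 hq1 hq2
        obtain ⟨ξ, hξ⟩ := IsAlgClosed.exists_root q (fun hd => hq (by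
          rw [isUnit_iff_degree_eq_zero]
          exact hd))
        refine hcon ξ ?_ ?_
        · exact eval_eq_zero_of_dvd_of_eval_eq_zero hq1 hξ
        · exact eval_eq_zero_of_dvd_of_eval_eq_zero hq2 hξ
    obtain ⟨ξ, hξ1, hξ2⟩ := h2
    rw [derivative_add, derivative_C, add_zero] at hξ2
    refine ⟨⟨ξ, ?_⟩, ?_⟩
    · rw [hs, Multiset.mem_toFinset, mem_roots (by
        rw [Ne, Polynomial.map_eq_zero_iff (algebraMap (ZMod p) A).injective]
        exact hder)]
      exact hξ2
    · rw [Polynomial.map_add, map_C, eval_add, eval_C] at hξ1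
      exact (neg_eq_of_add_eq_zero_right hξ1).symm
  choose g hg using hex
  have hinj : Function.Injective g := by
    intro t t' h
    apply Subtype.ext
    apply (algebraMap (ZMod p) A).injective
    rw [hg t, hg t', h]
  refine (Nat.card_le_card_of_injective g hinj).trans ?_
  rw [Nat.card_eq_fintype_card, Fintype.card_coe]
  exact hscard

/-- the number of the polynomials which are not separable -/
theorem nonsep_card {p : ℕ} [hp : Fact p.Prime] (n : ℕ) :
    (Nat.card {u : Fin n → ZMod p // ¬ (mp u).Separable} : ℝ) ≤ n * (p : ℝ) ^ n / p := by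
  classical
  have hp0 : (0 : ℝ) < p := by exact_mod_cast hp.out.pos
  rcases n with _ | n
  · have h : IsEmpty {u : Fin 0 → ZMod p // ¬ (mp u).Separable} := by
      refine ⟨fun x => ?_⟩
      obtain ⟨u, hu⟩ := x
      apply hu
      have h1 : mp u = 1 := by
        unfold mp
        rw [pow_zero, Finset.univ_eq_empty, Finset.sum_empty, add_zero]
      rw [h1]
      exact separable_one
    rw [Nat.card_of_isEmpty]
    simp
  · by_cases hn : n + 1 < p
    · have h1 : Nat.card {u : Fin (n + 1) → ZMod p // ¬ (mp u).Separable} ≤ p ^ n * n := by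
        have e : {u : Fin (n + 1) → ZMod p // ¬ (mp u).Separable} ≃
            (Σ w : Fin n → ZMod p, {t : ZMod p // ¬ (mp (Fin.cons t w : Fin (n + 1) → ZMod p)).Separable}) := by
          refine Equiv.trans (Equiv.subtypeEquiv
            (q := fun x : (Fin n → ZMod p) × ZMod p => ¬ (mp (Fin.cons x.2 x.1 : Fin (n + 1) → ZMod p)).Separable)
            { toFun := fun u => (Fin.tail u, u 0)
              invFun := fun x => Fin.cons x.2 x.1
              left_inv := fun u => Fin.cons_self_tail u
              right_inv := fun x => by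
                rcases x with ⟨w, t⟩
                simp } fun u => ?_)
            (Equiv.subtypeProdEquivSigmaSubtype fun w t => ¬ (mp (Fin.cons t w : Fin (n + 1) → ZMod p)).Separable)
          show ¬ (mp u).Separable ↔ ¬ (mp (Fin.cons (u 0) (Fin.tail u) : Fin (n + 1) → ZMod p)).Separable
          rw [Fin.cons_self_tail]
        rw [Nat.card_congr e, Nat.card_sigma]
        refine (Finset.sum_le_sum fun w _ => nonsep_line hn w).trans ?_
        rw [Finset.sum_const, Finset.card_univ, Fintype.card_fun, Fintype.card_fin, ZMod.card, smul_eq_mul]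
      have h2 : (Nat.card {u : Fin (n + 1) → ZMod p // ¬ (mp u).Separable} : ℝ) ≤ (p : ℝ) ^ n * n := by
        exact_mod_cast h1
      refine h2.trans ?_
      rw [le_div_iff₀ hp0, pow_succ]
      push_cast
      have : (0 : ℝ) ≤ (p : ℝ) ^ n * p := by positivity
      nlinarith
    · have h1 : Nat.card {u : Fin (n + 1) → ZMod p // ¬ (mp u).Separable} ≤ p ^ (n + 1) := by
        refine (Nat.card_le_card_of_injective Subtype.val Subtype.val_injective).trans ?_
        rw [Nat.card_eq_fintype_card, Fintype.card_fun, Fintype.card_fin, ZMod.card]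
      have h2 : (Nat.card {u : Fin (n + 1) → ZMod p // ¬ (mp u).Separable} : ℝ) ≤ (p : ℝ) ^ (n + 1) := by
        exact_mod_cast h1
      refine h2.trans ?_
      rw [le_div_iff₀ hp0, mul_comm]
      apply mul_le_mul_of_nonneg_right _ (by positivity)
      push Not at hn
      exact_mod_cast hn

end

end Pool.Agent.H40SY
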