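import Pool.Agent.H40SY.Defs

/-!
# Tauberian averages of Weil restrictions: definitions

`K` is a number field, `X` a smooth projective variety over `K`, and `f` a monic irreducible polynomial over
`𝓞_K`.  The Weil restriction `W` of `X` from the field `L = K[x] / (f)` to `K` is a smooth projective
variety over `K`, and over the algebraic closure it is the product of the copies of `X` for the embeddings of
`L`, that is, for the roots of `f`.  By the formula of Künneth `H^2(W)` is the sum of the exterior square of
`H^1(X) ⊗ P` and of `(H^2(X) - Λ^2 H^1(X)) ⊗ P`, where `P` is the permutation representation of the Galois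
group given by the roots of `f`.
-/

set_option autoImplicit false

namespace Pool.Agent.H40SY

open Polynomial NumberField IsDedekindDomain
open Pool.Agent.W353.SP (average)
open Pool.Agent.W353.EF (IsFrobenius)
open Pool.Agent.W353.AT (IsFrobeniusElement)

section
variable {K : Type} [Field K] [NumberField K] {n g : ℕ}

variable (K) in
/-- A projective variety over `K`, with the traces of the geometric Frobenius elements at the primes of `K`
outside a finite set `R`. -/
structure TraceData where
  /-- the number of the homogeneous coordinates -/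
  l : ℕ
  /-- the homogeneous polynomials which define the variety -/
  X : Set (MvPolynomial (Fin l) (𝓞 K))
  /-- the dimension -/
  d : ℕ
  /-- the first Betti number -/
  N₁ : ℕ
  /-- the second Betti number -/
  N₂ : ℕ
  /-- a finite set of primes, which contains the primes of bad reduction -/
  R : Finset (HeightOneSpectrum (𝓞 K))
  /-- the trace of the Frobenius on `H^1(X)` -/
  s₁ : HeightOneSpectrum (𝓞 K) → ℂ
  /-- the trace of the square of the Frobenius on `H^1(X)` -/
  s₂ : HeightOneSpectrum (𝓞 K) → ℂ
  /-- the trace of the Frobenius on `H^2(X)` -/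
  t : HeightOneSpectrum (𝓞 K) → ℂ
  trace : ∀ v, v ∉ R → ∃ (α : Fin N₁ → ℂ) (β : Fin N₂ → ℂ), IsFrobenius X d 1 v α ∧
    IsFrobenius X d 2 v β ∧ s₁ v = ∑ j, α j ∧ s₂ v = ∑ j, α j ^ 2 ∧ t v = ∑ j, β j

/-- The trace of the Frobenius at `v` on the exterior square of `H^1(X)`, the second cohomology group of the
Albanese variety of `X`. -/
noncomputable def albanese (D : TraceData K) (v : HeightOneSpectrum (𝓞 K)) : ℂ :=
  (D.s₁ v ^ 2 - D.s₂ v) / 2

/-- The number of the roots of `f` fixed by `σ`. -/
noncomputable def fixedRoots (f : (𝓞 K)[X]) (σ : Gal(AlgebraicClosure K/K)) : ℕ :=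
  Nat.card {x : rootsOf f // σ (x : AlgebraicClosure K) = x}

/-- At all primes `v` outside `R'`, `b v` is the trace of the Frobenius on the second cohomology group of the
Weil restriction of `X` from `K[x] / (f)` to `K`: the sum of the traces on the exterior square of
`H^1(X) ⊗ P` and on `(H^2(X) - Λ^2 H^1(X)) ⊗ P`. -/
def IsRestrictionTrace (D : TraceData K) (f : (𝓞 K)[X]) (R' : Finset (HeightOneSpectrum (𝓞 K)))
    (b : HeightOneSpectrum (𝓞 K) → ℂ) : Prop :=
  ∀ v, v ∉ R' → ∀ σ, IsFrobeniusElement v σ →
    b v = (D.s₁ v ^ 2 * fixedRoots f σ ^ 2 - D.s₂ v * fixedRoots f (σ ^ 2)) / 2 +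
      (D.t v - albanese D v) * fixedRoots f σ

/-- The Tauberian average up to `T` for the Weil restriction of `X` from `K[x] / (f)` to `K` differs from the
sum of those for `X` and for its Albanese variety by at most `(N₁ ^ 2 + N₂) ε`, where `N₁` and `N₂` are
the Betti numbers of `X`.  (`R'` is the set of the primes in `R` and of the primes modulo which `f` is not
separable.) -/
def RestrictionClose (D : TraceData K) (f : (𝓞 K)[X]) (T : ℕ) (ε : ℝ) : Prop :=
  ∀ (R' : Finset (HeightOneSpectrum (𝓞 K))) (b : HeightOneSpectrum (𝓞 K) → ℂ),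
    (∀ v, v ∈ R' ↔ v ∈ D.R ∨ ¬ (f.map (Ideal.Quotient.mk v.asIdeal)).Separable) →
    IsRestrictionTrace D f R' b →
    |average 1 R' b T - (average 1 D.R D.t T + average 1 D.R (albanese D) T)| ≤
      (D.N₁ ^ 2 + D.N₂) * ε

/-- (If `y ^ E ≤ Q`.)  The Galois group of the polynomial `f = poly ω c` over `K` is the symmetric group,
and for all `T ≥ y` with `T ^ E ≤ Q` and for the first `T ^ B` of the varieties `V j` the average up to `T`
for the Weil restriction of `V j` from `K[x] / (f)` to `K` is the sum of those for `V j` and its Albanese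
variety, up to `(N₁ ^ 2 + N₂) T ^ (-1/2 + δ)`. -/
def RestrictionLaw (ω : Fin g → 𝓞 K) (δ : ℝ) (B : ℕ) (V : ℕ → TraceData K) (E Q y : ℕ)
    (c : Fin n → Fin g → ℤ) : Prop :=
  y ^ E ≤ Q → IsSymmetric (poly ω c) ∧ ∀ T : ℕ, y ≤ T → T ^ E ≤ Q → ∀ j : ℕ, j < T ^ B →
    RestrictionClose (V j) (poly ω c) T ((T : ℝ) ^ (-(1 / 2) + δ))

end

end Pool.Agent.H40SY
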