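import Pool.Agent.H40SY.Engine
import Pool.Agent.H40SY.Fx
import Pool.Agent.H40SY.WDefs

/-! Tauberian averages of Weil restrictions. -/

set_option autoImplicit false

namespace Pool.Agent.H40SY

open NumberField IsDedekindDomain Finset Filter Polynomial
open Pool.Agent.N842.HS (hv absNorm_hv hv_inj hv_surj VT mem_VT hom_finite cf)
open Pool.Agent.W353.SP (average)
open Pool.Agent.W353.EF (IsFrobenius)
open Pool.Agent.W353.AT (IsFrobeniusElement)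
open Pool.Agent.W401.Cheb (GK IsFrob)
open Pool.Agent.W353.NF (absNorm_ker)

section
variable {K : Type} [Field K] [NumberField K] {n g : ℕ}

/-- the Frobenius element at a prime modulo which the polynomial is separable -/
theorem frob_perm' {a : Fin n → 𝓞 K} {θ : Fin n → 𝓞 (AlgebraicClosure K)} (h : Roots a θ) {p : ℕ}
    [Fact p.Prime] (φ : 𝓞 K →+* ZMod p) (hsep : (mp (fun i => φ (a i))).Separable) :
    ∃ (σ : GK K) (π : Equiv.Perm (Fin n)), IsFrobeniusElement (hv φ) σ ∧ (∀ i, σ • θ i = θ (π i)) ∧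
      ∀ (r : ℕ) (lam : Fin r → ℕ), ∑ b, lam b = n → G lam (fun i => φ (a i)) = Z lam π := by
  have hφ : RingHom.ker φ = (hv φ).asIdeal := rfl
  obtain ⟨σ, hσ⟩ := Pool.Agent.W401.Frob.exists_frob (hv φ)
  obtain ⟨Q, hQm, hQv, hQ⟩ := id hσ
  obtain ⟨ι, h1, h2⟩ := roots_mod h φ hφ hsep Q hQm hQv
  have hinj : Function.Injective θ := fun i j hij => h2 (congrArg (Ideal.Quotient.mk Q) hij)
  obtain ⟨π, hπ⟩ := h.perm hinj σ
  refine ⟨σ, π, hσ, hπ, fun r lam hl => ?_⟩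
  let _ : Field (𝓞 (AlgebraicClosure K) ⧸ Q) := Ideal.Quotient.field Q
  refine G_eq_Z ι (fun i => φ (a i)) (fun i => Ideal.Quotient.mk Q (θ i)) h2 h1 π (fun i => ?_) lam hl
  have h3 := hQ (θ i)
  rw [absNorm_ker φ hφ, hπ] at h3
  have h4 := (Ideal.Quotient.mk_eq_mk_iff_sub_mem _ _).2 h3
  rw [h4, map_pow]

omit [NumberField K] in
/-- the number of the fixed roots -/
theorem fixedRoots_eq {a : Fin n → 𝓞 K} {θ : Fin n → 𝓞 (AlgebraicClosure K)} (h : Roots a θ)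
    (hinj : Function.Injective θ) {σ : GK K} {π : Equiv.Perm (Fin n)} (hσ : ∀ i, σ • θ i = θ (π i)) :
    fixedRoots (mp a) σ = fx π := by
  classical
  let e : Fin n → rootsOf (mp a) := fun i => ⟨θ i, (mem_rootsOf h _).2 ⟨i, rfl⟩⟩
  have hbij : Function.Bijective e := by
    constructor
    · intro i j hij
      have h1 : (e i : AlgebraicClosure K) = e j := by rw [hij]
      exact hinj (RingOfIntegers.ext h1)
    · rintro ⟨x, hx⟩
      obtain ⟨i, hi⟩ := (mem_rootsOf h x).1 hx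
      exact ⟨i, Subtype.ext hi⟩
  let e' : Fin n ≃ rootsOf (mp a) := Equiv.ofBijective e hbij
  unfold fixedRoots fx
  refine (Nat.card_congr (Equiv.subtypeEquiv e' fun i => ?_)).symm
  have h1 : σ (θ i : AlgebraicClosure K) = (θ (π i) : AlgebraicClosure K) :=
    congrArg (fun z : 𝓞 (AlgebraicClosure K) => (z : AlgebraicClosure K)) (hσ i)
  show π i = i ↔ σ (θ i : AlgebraicClosure K) = (θ i : AlgebraicClosure K)
  rw [h1]
  constructor
  · intro h2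
    rw [h2]
  · intro h2
    exact hinj (RingOfIntegers.ext h2)

omit [NumberField K] in
theorem smul_sq {θ : Fin n → 𝓞 (AlgebraicClosure K)} {σ : GK K} {π : Equiv.Perm (Fin n)}
    (hσ : ∀ i, σ • θ i = θ (π i)) (i : Fin n) : (σ ^ 2) • θ i = θ ((π ^ 2) i) := by
  rw [pow_two, pow_two, mul_smul, hσ, hσ]
  rfl

theorem fixedRoots_le {a : Fin n → 𝓞 K} (σ : GK K) : fixedRoots (mp a) σ ≤ n := by
  classical
  obtain ⟨θ, hθ⟩ := exists_roots a
  let e : Fin n → rootsOf (mp a) := fun i => ⟨θ i, (mem_rootsOf hθ _).2 ⟨i, rfl⟩⟩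
  have hsurj : Function.Surjective e := by
    rintro ⟨x, hx⟩
    obtain ⟨i, hi⟩ := (mem_rootsOf hθ x).1 hx
    exact ⟨i, Subtype.ext hi⟩
  have hfin : Finite (rootsOf (mp a)) := Finite.of_surjective e hsurj
  unfold fixedRoots
  refine (Finite.card_subtype_le _).trans ?_
  refine (Nat.card_le_card_of_surjective e hsurj).trans ?_
  rw [Nat.card_fin]

/-- separability -/
theorem sep_iff (a : Fin n → 𝓞 K) (p : ℕ) [hp : Fact p.Prime] (φ : 𝓞 K →+* ZMod p) :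
    ((mp a).map (Ideal.Quotient.mk (hv φ).asIdeal)).Separable ↔ (mp (fun i => φ (a i))).Separable := by
  have : (hv φ).asIdeal.IsMaximal := (hv φ).isMaximal
  let _ : Field (𝓞 K ⧸ (hv φ).asIdeal) := Ideal.Quotient.field _
  let ψ : 𝓞 K ⧸ (hv φ).asIdeal →+* ZMod p := Ideal.Quotient.lift (hv φ).asIdeal φ fun x hx => hx
  have h1 : (mp (fun i => φ (a i))) = ((mp a).map (Ideal.Quotient.mk (hv φ).asIdeal)).map ψ := by
    rw [Polynomial.map_map, ← mp_map]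
    congr 1
  rw [h1]
  exact (separable_map ψ).symm

/-- the bounds for the traces -/
theorem TraceData.bounds (D : TraceData K) (v : HeightOneSpectrum (𝓞 K)) (hv' : v ∉ D.R) :
    ‖D.s₁ v ^ 2‖ ≤ (D.N₁ ^ 2 + D.N₂) * (Ideal.absNorm v.asIdeal : ℝ) ∧
    ‖D.s₂ v‖ ≤ (D.N₁ ^ 2 + D.N₂) * (Ideal.absNorm v.asIdeal : ℝ) ∧
    ‖D.t v‖ ≤ (D.N₁ ^ 2 + D.N₂) * (Ideal.absNorm v.asIdeal : ℝ) := by
  obtain ⟨α, β, ⟨b1, h1, h2, _⟩, ⟨b2, h4, h5, _⟩, hs1, hs2, ht⟩ := D.trace v hv'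
  set q : ℝ := (Ideal.absNorm v.asIdeal : ℝ) with hq
  have hq0 : 0 ≤ q := Nat.cast_nonneg _
  have hα : ∀ j, ‖α j‖ ^ 2 = q := by
    intro j
    have h3 : α j ∈ b1 1 := by
      rw [h1]
      exact Multiset.mem_map_of_mem α (Finset.mem_univ_val j)
    rw [h2 1 (α j) h3, ← Real.rpow_natCast, ← Real.rpow_mul hq0]
    norm_num
  have hβ : ∀ j, ‖β j‖ = q := by
    intro j
    have h3 : β j ∈ b2 2 := by
      rw [h4]
      exact Multiset.mem_map_of_mem β (Finset.mem_univ_val j)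
    rw [h5 2 (β j) h3]
    norm_num
  have hN1 : (0 : ℝ) ≤ D.N₁ := Nat.cast_nonneg _
  have hN2 : (0 : ℝ) ≤ D.N₂ := Nat.cast_nonneg _
  have hα' : ∀ j, ‖α j‖ = Real.sqrt q := by
    intro j
    rw [← hα j, Real.sqrt_sq (norm_nonneg _)]
  have hb1 : ‖D.s₁ v‖ ≤ D.N₁ * Real.sqrt q := by
    rw [hs1]
    refine (norm_sum_le _ _).trans ?_
    rw [sum_congr rfl fun j _ => hα' j, sum_const, card_univ, Fintype.card_fin, nsmul_eq_mul]
  have hb2 : ‖D.s₂ v‖ ≤ D.N₁ * q := by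
    rw [hs2]
    refine (norm_sum_le _ _).trans ?_
    have : ∀ j ∈ (univ : Finset (Fin D.N₁)), ‖α j ^ 2‖ = q := fun j _ => by rw [norm_pow, hα]
    rw [sum_congr rfl this, sum_const, card_univ, Fintype.card_fin, nsmul_eq_mul]
  have hb3 : ‖D.t v‖ ≤ D.N₂ * q := by
    rw [ht]
    refine (norm_sum_le _ _).trans ?_
    rw [sum_congr rfl fun j _ => hβ j, sum_const, card_univ, Fintype.card_fin, nsmul_eq_mul]
  have hN12 : (D.N₁ : ℝ) ≤ D.N₁ ^ 2 := by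
    have : D.N₁ ≤ D.N₁ ^ 2 := Nat.le_self_pow (by norm_num) _
    exact_mod_cast this
  refine ⟨?_, ?_, ?_⟩
  · rw [norm_pow]
    calc ‖D.s₁ v‖ ^ 2 ≤ (D.N₁ * Real.sqrt q) ^ 2 := pow_le_pow_left₀ (norm_nonneg _) hb1 2
      _ = D.N₁ ^ 2 * q := by rw [mul_pow, Real.sq_sqrt hq0]
      _ ≤ _ := mul_le_mul_of_nonneg_right (by linarith) hq0
  · exact hb2.trans (mul_le_mul_of_nonneg_right (by linarith) hq0)
  · refine hb3.trans (mul_le_mul_of_nonneg_right ?_ hq0)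
    have : (0 : ℝ) ≤ (D.N₁ : ℝ) ^ 2 := by positivity
    linarith

/-- the normalised real part outside `R` -/
noncomputable def nr (D : TraceData K) (s : HeightOneSpectrum (𝓞 K) → ℂ) (v : HeightOneSpectrum (𝓞 K)) : ℝ :=
  tn 1 D.R s v

theorem nr_abs (D : TraceData K) {s : HeightOneSpectrum (𝓞 K) → ℂ}
    (hs : ∀ v, v ∉ D.R → ‖s v‖ ≤ (D.N₁ ^ 2 + D.N₂) * (Ideal.absNorm v.asIdeal : ℝ))
    (v : HeightOneSpectrum (𝓞 K)) : |nr D s v| ≤ D.N₁ ^ 2 + D.N₂ := by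
  unfold nr tn
  by_cases h : v ∈ D.R
  · rw [if_pos h, abs_zero]
    positivity
  · have hq : (1 : ℝ) < (Ideal.absNorm v.asIdeal : ℝ) := Pool.Agent.W353.PV.one_lt_norm v
    rw [if_neg h, pow_one, abs_div, Nat.abs_cast, div_le_iff₀ (by linarith)]
    exact (Complex.abs_re_le_norm _).trans (hs v h)

/-- the weights of a variety -/
noncomputable def w₁ (D : TraceData K) (v : HeightOneSpectrum (𝓞 K)) : ℝ :=
  nr D (fun v => D.s₁ v ^ 2) v / (D.N₁ ^ 2 + D.N₂)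

/-- the weights of a variety -/
noncomputable def w₂ (D : TraceData K) (v : HeightOneSpectrum (𝓞 K)) : ℝ :=
  nr D D.s₂ v / (D.N₁ ^ 2 + D.N₂)

/-- the weights of a variety -/
noncomputable def w₃ (D : TraceData K) (v : HeightOneSpectrum (𝓞 K)) : ℝ :=
  nr D D.t v / (D.N₁ ^ 2 + D.N₂)

theorem wt_aux {x N : ℝ} (hN : 0 ≤ N) (hx : |x| ≤ N) : |x / N| ≤ 1 ∧ N * (x / N) = x := by
  constructor
  · rw [abs_div, abs_of_nonneg hN]
    exact div_le_one_of_le₀ hx hN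
  · by_cases h : N = 0
    · rw [h] at hx
      rw [h, zero_mul, abs_nonpos_iff.1 hx]
    · field_simp

theorem w₁_spec (D : TraceData K) (v : HeightOneSpectrum (𝓞 K)) : |w₁ D v| ≤ 1 ∧
    (D.N₁ ^ 2 + D.N₂) * w₁ D v = nr D (fun v => D.s₁ v ^ 2) v :=
  wt_aux (by positivity) (nr_abs D (fun v h => (D.bounds v h).1) v)

theorem w₂_spec (D : TraceData K) (v : HeightOneSpectrum (𝓞 K)) : |w₂ D v| ≤ 1 ∧
    (D.N₁ ^ 2 + D.N₂) * w₂ D v = nr D D.s₂ v :=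
  wt_aux (by positivity) (nr_abs D (fun v h => (D.bounds v h).2.1) v)

theorem w₃_spec (D : TraceData K) (v : HeightOneSpectrum (𝓞 K)) : |w₃ D v| ≤ 1 ∧
    (D.N₁ ^ 2 + D.N₂) * w₃ D v = nr D D.t v :=
  wt_aux (by positivity) (nr_abs D (fun v h => (D.bounds v h).2.2) v)

/-- the trace for the Albanese variety -/
theorem nr_alb (D : TraceData K) (v : HeightOneSpectrum (𝓞 K)) :
    tn 1 D.R (albanese D) v = (nr D (fun v => D.s₁ v ^ 2) v - nr D D.s₂ v) / 2 := by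
  unfold nr tn albanese
  by_cases h : v ∈ D.R
  · rw [if_pos h, if_pos h, if_pos h]
    norm_num
  · rw [if_neg h, if_neg h, if_neg h]
    have h1 : ((D.s₁ v ^ 2 - D.s₂ v) / 2 : ℂ).re = ((D.s₁ v ^ 2).re - (D.s₂ v).re) / 2 := by
      rw [show ((D.s₁ v ^ 2 - D.s₂ v) / 2 : ℂ) = (D.s₁ v ^ 2 - D.s₂ v) / ((2 : ℝ) : ℂ) by norm_num,
        Complex.div_ofReal_re, Complex.sub_re]
    rw [h1]
    ring

/-- the trace for the Weil restriction, at primes outside `R'` -/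
theorem tn_restr {D : TraceData K} {f : (𝓞 K)[X]} {R' : Finset (HeightOneSpectrum (𝓞 K))}
    {b : HeightOneSpectrum (𝓞 K) → ℂ} (hR : ∀ v, v ∉ R' → v ∉ D.R) (hb : IsRestrictionTrace D f R' b)
    (v : HeightOneSpectrum (𝓞 K)) (hv' : v ∉ R') (σ : GK K) (hσ : IsFrobeniusElement v σ) :
    tn 1 R' b v = (nr D (fun v => D.s₁ v ^ 2) v * fixedRoots f σ ^ 2 -
      nr D D.s₂ v * fixedRoots f (σ ^ 2)) / 2 +
      (nr D D.t v - (nr D (fun v => D.s₁ v ^ 2) v - nr D D.s₂ v) / 2) * fixedRoots f σ := by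
  have h1 := hb v hv' σ hσ
  have h2 := hR v hv'
  obtain ⟨F, hF⟩ : ∃ F : ℝ, F = fixedRoots f σ := ⟨_, rfl⟩
  obtain ⟨F₂, hF₂⟩ : ∃ F₂ : ℝ, F₂ = fixedRoots f (σ ^ 2) := ⟨_, rfl⟩
  have h3 : (b v).re = ((D.s₁ v ^ 2).re * F ^ 2 - (D.s₂ v).re * F₂) / 2 +
      ((D.t v).re - ((D.s₁ v ^ 2).re - (D.s₂ v).re) / 2) * F := by
    rw [h1]
    unfold albanese
    have e1 : ((D.s₁ v ^ 2 * (fixedRoots f σ : ℂ) ^ 2 - D.s₂ v * (fixedRoots f (σ ^ 2) : ℂ)) / 2 +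
        (D.t v - (D.s₁ v ^ 2 - D.s₂ v) / 2) * (fixedRoots f σ : ℂ) : ℂ) =
        D.s₁ v ^ 2 * ((F ^ 2 / 2 : ℝ) : ℂ) - D.s₂ v * ((F₂ / 2 : ℝ) : ℂ) +
        (D.t v * ((F : ℝ) : ℂ) - (D.s₁ v ^ 2 * ((F / 2 : ℝ) : ℂ) - D.s₂ v * ((F / 2 : ℝ) : ℂ))) := by
      rw [hF, hF₂]
      push_cast
      ring
    rw [e1]
    simp only [Complex.add_re, Complex.sub_re, Complex.re_mul_ofReal]
    ring
  unfold nr tn
  rw [if_neg hv', if_neg h2, if_neg h2, if_neg h2, h3, ← hF, ← hF₂]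
  have hq : (1 : ℝ) < (Ideal.absNorm v.asIdeal : ℝ) := Pool.Agent.W353.PV.one_lt_norm v
  have hq0 : (Ideal.absNorm v.asIdeal : ℝ) ^ 1 ≠ 0 := by
    rw [pow_one]
    linarith
  field_simp

end

end Pool.Agent.H40SY
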