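import Pool.Agent.H40SY.WR
import Pool.Agent.H40SY.BoxWD

/-! Tauberian averages of Weil restrictions: the theorem. -/

set_option autoImplicit false

namespace Pool.Agent.H40SY

open NumberField IsDedekindDomain Finset Filter Polynomial
open Pool.Agent.N842.HS (hv absNorm_hv hv_inj hv_surj VT mem_VT hom_finite cf)
open Pool.Agent.W353.SP (average)
open Pool.Agent.W353.EF (IsFrobenius)
open Pool.Agent.W353.AT (IsFrobeniusElement)
open Pool.Agent.W401.Cheb (GK IsFrob)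

section
variable {K : Type} [Field K] [NumberField K] {n g : ℕ}

theorem restr_close (hn : 2 ≤ n) (δ : ℝ) (hδ : 0 < δ) : ∃ T₀ : ℕ, ∀ (a : Fin n → 𝓞 K)
    (U : ℕ → Finset (HeightOneSpectrum (𝓞 K) → ℝ)), (∀ T, ∀ u ∈ U T, ∀ v, |u v| ≤ 1) →
    ∀ (E Q y : ℕ), Law a δ U E Q y → ∀ T : ℕ, T₀ ≤ T → y ≤ T → T ^ E ≤ Q →
    ∀ D : TraceData K, w₁ D ∈ U T → w₂ D ∈ U T → w₃ D ∈ U T →
      RestrictionClose D (mp a) T ((T : ℝ) ^ (-(1 / 2) + δ)) := by
  classical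
  obtain ⟨C, T₁, hC0, hC⟩ := class_law (K := K) (n := n) δ hδ (n ^ 2)
  obtain ⟨d, hd⟩ : ∃ d : ℝ, d = Module.finrank ℚ K := ⟨_, rfl⟩
  have hd0 : 0 ≤ d := by rw [hd]; positivity
  obtain ⟨T₂, hT₂⟩ := eventually_atTop.1 (ev_absorb ((3 * (n : ℝ) ^ 2 + 2) * d + 3 * (C * C)) δ hδ)
  refine ⟨T₁ + T₂ + 3, fun a U hU1 E Q y hlaw T hT hyT hTE D hw1 hw2 hw3 R' b hR' hb => ?_⟩
  have hyQ : y ^ E ≤ Q := (Nat.pow_le_pow_left hyT E).trans hTE
  have hs := (hlaw hyQ).1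
  obtain ⟨θ, hθ, hinj, -, -⟩ := sym_data hs
  have hT0 : (0 : ℝ) < T := by exact_mod_cast (by omega : 0 < T)
  have hT1' : (1 : ℝ) ≤ T := by exact_mod_cast (by omega : 1 ≤ T)
  -- the Frobenius elements
  have hch : ∀ (p : ℕ) (hp : Fact p.Prime) (φ : 𝓞 K →+* ZMod p), ∃ σ : GK K,
      (mp (fun i => φ (a i))).Separable → IsFrobeniusElement (hv φ) σ ∧
        ∃ π : Equiv.Perm (Fin n), (∀ i, σ • θ i = θ (π i)) ∧
          ∀ (r : ℕ) (lam : Fin r → ℕ), ∑ b, lam b = n → G lam (fun i => φ (a i)) = Z lam π := by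
    intro p hp φ
    by_cases h : (mp (fun i => φ (a i))).Separable
    · obtain ⟨σ, π, h1, h2, h3⟩ := frob_perm' hθ φ h
      exact ⟨σ, fun _ => ⟨h1, π, h2, h3⟩⟩
    · exact ⟨1, fun h' => absurd h' h⟩
  choose σ₀ hσ₀ using hch
  obtain ⟨g₁, hg₁⟩ : ∃ g₁ : ∀ (p : ℕ) [Fact p.Prime], (𝓞 K →+* ZMod p) → ℝ, g₁ = fun p hp φ =>
      if (mp (fun i => φ (a i))).Separable then (fixedRoots (mp a) (σ₀ p hp φ) : ℝ) ^ 2 else 0 := ⟨_, rfl⟩
  obtain ⟨g₂, hg₂⟩ : ∃ g₂ : ∀ (p : ℕ) [Fact p.Prime], (𝓞 K →+* ZMod p) → ℝ, g₂ = fun p hp φ =>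
      if (mp (fun i => φ (a i))).Separable then (fixedRoots (mp a) (σ₀ p hp φ ^ 2) : ℝ) else 0 := ⟨_, rfl⟩
  obtain ⟨g₃, hg₃⟩ : ∃ g₃ : ∀ (p : ℕ) [Fact p.Prime], (𝓞 K →+* ZMod p) → ℝ, g₃ = fun p hp φ =>
      if (mp (fun i => φ (a i))).Separable then (fixedRoots (mp a) (σ₀ p hp φ) : ℝ) else 0 := ⟨_, rfl⟩
  obtain ⟨ε, hε⟩ : ∃ ε : ℝ, ε = (C + 0) * (C * ((T : ℝ) ^ (1 / 2 + δ / 2) * Real.log T)) := ⟨_, rfl⟩
  have hf0 : (n.factorial : ℝ) ≠ 0 := by exact_mod_cast n.factorial_ne_zero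
  have hnn : n ≤ n ^ 2 := Nat.le_self_pow (by norm_num) _
  have key1 : ∀ u ∈ U T, |SS T (fun p _ φ => u (hv φ) * (g₁ p φ * Real.log p)) -
      2 * SS T (fun p _ φ => u (hv φ) * Real.log p)| ≤ ε := by
    intro u hu
    have h1 := hC a U hU1 E Q y hlaw T (by omega) hyT hTE (fun π => fx π ^ 2)
      (fun π => Nat.pow_le_pow_left (fx_le π) 2) (fun π u => by rw [fx_conj]) g₁ 0 le_rfl
      (fun p hp φ hsep => by
        obtain ⟨_, π, h2, h3⟩ := hσ₀ p hp φ hsep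
        refine ⟨π, h3, ?_⟩
        rw [hg₁]
        simp only
        rw [if_pos hsep, fixedRoots_eq hθ hinj h2]
        push_cast
        rfl)
      (fun p hp φ hsep => by
        rw [hg₁]
        simp only
        rw [if_neg hsep, abs_zero]) u hu
    have h2 : (∑ π : Equiv.Perm (Fin n), ((fx π ^ 2 : ℕ) : ℝ)) / n.factorial = 2 := by
      rw [mean_fx_sq hn]
      field_simp
    rw [h2, ← hε] at h1
    exact h1
  have key2 : ∀ u ∈ U T, |SS T (fun p _ φ => u (hv φ) * (g₂ p φ * Real.log p)) -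
      2 * SS T (fun p _ φ => u (hv φ) * Real.log p)| ≤ ε := by
    intro u hu
    have h1 := hC a U hU1 E Q y hlaw T (by omega) hyT hTE (fun π => fx (π ^ 2))
      (fun π => (fx_le _).trans hnn) (fun π u => by rw [fx_sq_conj]) g₂ 0 le_rfl
      (fun p hp φ hsep => by
        obtain ⟨_, π, h2, h3⟩ := hσ₀ p hp φ hsep
        refine ⟨π, h3, ?_⟩
        rw [hg₂]
        simp only
        rw [if_pos hsep, fixedRoots_eq hθ hinj (smul_sq h2)])
      (fun p hp φ hsep => by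
        rw [hg₂]
        simp only
        rw [if_neg hsep, abs_zero]) u hu
    have h2 : (∑ π : Equiv.Perm (Fin n), (fx (π ^ 2) : ℝ)) / n.factorial = 2 := by
      rw [mean_fx_two hn]
      field_simp
    rw [h2, ← hε] at h1
    exact h1
  have key3 : ∀ u ∈ U T, |SS T (fun p _ φ => u (hv φ) * (g₃ p φ * Real.log p)) -
      SS T (fun p _ φ => u (hv φ) * Real.log p)| ≤ ε := by
    intro u hu
    have h1 := hC a U hU1 E Q y hlaw T (by omega) hyT hTE (fun π => fx π)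
      (fun π => (fx_le _).trans hnn) (fun π u => by rw [fx_conj]) g₃ 0 le_rfl
      (fun p hp φ hsep => by
        obtain ⟨_, π, h2, h3⟩ := hσ₀ p hp φ hsep
        refine ⟨π, h3, ?_⟩
        rw [hg₃]
        simp only
        rw [if_pos hsep, fixedRoots_eq hθ hinj h2])
      (fun p hp φ hsep => by
        rw [hg₃]
        simp only
        rw [if_neg hsep, abs_zero]) u hu
    have h2 : (∑ π : Equiv.Perm (Fin n), (fx π : ℝ)) / n.factorial = 1 := by
      rw [mean_fx (by omega)]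
      field_simp
    rw [h2, one_mul, ← hε] at h1
    exact h1
  obtain ⟨N, hN⟩ : ∃ N : ℝ, N = (D.N₁ : ℝ) ^ 2 + D.N₂ := ⟨_, rfl⟩
  have hN0 : 0 ≤ N := by rw [hN]; positivity
  have hRR : ∀ v, v ∉ R' → v ∉ D.R := fun v h1 h2 => h1 ((hR' v).2 (Or.inl h2))
  -- the bounds
  have hnR : (1 : ℝ) ≤ n := by exact_mod_cast (by omega : 1 ≤ n)
  have hb1 : ∀ v, |tn 1 R' b v| ≤ 3 * (n : ℝ) ^ 2 * N := by
    intro v
    by_cases h : v ∈ R'
    · unfold tn
      rw [if_pos h, abs_zero]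
      positivity
    · obtain ⟨σ, hσ⟩ := Pool.Agent.W401.Frob.exists_frob v
      rw [tn_restr hRR hb v h σ hσ]
      have e1 := nr_abs D (fun v h => (D.bounds v h).1) v
      have e2 := nr_abs D (fun v h => (D.bounds v h).2.1) v
      have e3 := nr_abs D (fun v h => (D.bounds v h).2.2) v
      rw [← hN] at e1 e2 e3
      have f1 : (fixedRoots (mp a) σ : ℝ) ≤ n := by exact_mod_cast fixedRoots_le σ
      have f2 : (fixedRoots (mp a) (σ ^ 2) : ℝ) ≤ n := by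
        exact_mod_cast fixedRoots_le (a := a) (σ ^ (2 : ℕ))
      have f3 : (0 : ℝ) ≤ (fixedRoots (mp a) σ : ℝ) := Nat.cast_nonneg _
      have f4 : (0 : ℝ) ≤ (fixedRoots (mp a) (σ ^ 2) : ℝ) := Nat.cast_nonneg _
      have g1 : |nr D (fun v => D.s₁ v ^ 2) v * (fixedRoots (mp a) σ : ℝ) ^ 2| ≤ N * n ^ 2 := by
        rw [abs_mul, abs_of_nonneg (by positivity : (0 : ℝ) ≤ (fixedRoots (mp a) σ : ℝ) ^ 2)]
        exact mul_le_mul e1 (pow_le_pow_left₀ f3 f1 2) (by positivity) hN0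
      have g2 : |nr D D.s₂ v * (fixedRoots (mp a) (σ ^ 2) : ℝ)| ≤ N * n := by
        rw [abs_mul, abs_of_nonneg f4]
        exact mul_le_mul e2 f2 f4 hN0
      have g3 : |(nr D D.t v - (nr D (fun v => D.s₁ v ^ 2) v - nr D D.s₂ v) / 2) *
          (fixedRoots (mp a) σ : ℝ)| ≤ (2 * N) * n := by
        rw [abs_mul, abs_of_nonneg f3]
        refine mul_le_mul ?_ f1 f3 (by positivity)
        have h1 := abs_le.1 e1
        have h2 := abs_le.1 e2
        have h3 := abs_le.1 e3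
        rw [abs_le]
        constructor <;> linarith
      have h1 := abs_le.1 g1
      have h2 := abs_le.1 g2
      have h3 := abs_le.1 g3
      have h4 : N * n ≤ N * n ^ 2 := mul_le_mul_of_nonneg_left (by nlinarith) hN0
      rw [abs_le]
      constructor <;> nlinarith
  have hb2 : ∀ v, |tn 1 D.R D.t v| ≤ N := by
    intro v
    rw [hN]
    exact nr_abs D (fun v h => (D.bounds v h).2.2) v
  have hb3 : ∀ v, |tn 1 D.R (albanese D) v| ≤ N := by
    intro v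
    rw [nr_alb]
    have e1 := nr_abs D (fun v h => (D.bounds v h).1) v
    have e2 := nr_abs D (fun v h => (D.bounds v h).2.1) v
    rw [← hN] at e1 e2
    have h1 := abs_le.1 e1
    have h2 := abs_le.1 e2
    rw [abs_le]
    constructor <;> linarith
  have c1 := average_close (by positivity) hb1 T (by omega)
  have c2 := average_close hN0 hb2 T (by omega)
  have c3 := average_close hN0 hb3 T (by omega)
  rw [← hd] at c1 c2 c3
  -- the sums
  obtain ⟨Y₁, hY₁⟩ : ∃ Y₁ : ℝ, Y₁ = SS T (fun p _ φ => w₁ D (hv φ) * Real.log p) := ⟨_, rfl⟩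
  obtain ⟨Y₂, hY₂⟩ : ∃ Y₂ : ℝ, Y₂ = SS T (fun p _ φ => w₂ D (hv φ) * Real.log p) := ⟨_, rfl⟩
  obtain ⟨Y₃, hY₃⟩ : ∃ Y₃ : ℝ, Y₃ = SS T (fun p _ φ => w₃ D (hv φ) * Real.log p) := ⟨_, rfl⟩
  obtain ⟨X₁₁, hX₁₁⟩ : ∃ X : ℝ, X = SS T (fun p _ φ => w₁ D (hv φ) * (g₁ p φ * Real.log p)) := ⟨_, rfl⟩
  obtain ⟨X₂₂, hX₂₂⟩ : ∃ X : ℝ, X = SS T (fun p _ φ => w₂ D (hv φ) * (g₂ p φ * Real.log p)) := ⟨_, rfl⟩
  obtain ⟨X₃₃, hX₃₃⟩ : ∃ X : ℝ, X = SS T (fun p _ φ => w₃ D (hv φ) * (g₃ p φ * Real.log p)) := ⟨_, rfl⟩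
  obtain ⟨X₁₃, hX₁₃⟩ : ∃ X : ℝ, X = SS T (fun p _ φ => w₁ D (hv φ) * (g₃ p φ * Real.log p)) := ⟨_, rfl⟩
  obtain ⟨X₂₃, hX₂₃⟩ : ∃ X : ℝ, X = SS T (fun p _ φ => w₂ D (hv φ) * (g₃ p φ * Real.log p)) := ⟨_, rfl⟩
  have k11 := key1 _ hw1
  have k22 := key2 _ hw2
  have k33 := key3 _ hw3
  have k13 := key3 _ hw1
  have k23 := key3 _ hw2
  rw [← hX₁₁, ← hY₁] at k11
  rw [← hX₂₂, ← hY₂] at k22
  rw [← hX₃₃, ← hY₃] at k33
  rw [← hX₁₃, ← hY₁] at k13
  rw [← hX₂₃, ← hY₂] at k23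
  have s2 : SS T (fun p _ φ => tn 1 D.R D.t (hv φ) * Real.log p) = N * Y₃ := by
    rw [hY₃, ← SS_smul]
    refine SS_congr T fun p _ φ _ => ?_
    rw [← mul_assoc, hN, (w₃_spec D (hv φ)).2]
    rfl
  have s3 : SS T (fun p _ φ => tn 1 D.R (albanese D) (hv φ) * Real.log p) = N * ((Y₁ - Y₂) / 2) := by
    have e1 : SS T (fun p _ φ => tn 1 D.R (albanese D) (hv φ) * Real.log p) =
        SS T (fun p _ φ => (N / 2) * (w₁ D (hv φ) * Real.log p) + (-(N / 2)) * (w₂ D (hv φ) * Real.log p)) := by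
      refine SS_congr T fun p _ φ _ => ?_
      have e1 := (w₁_spec D (hv φ)).2
      have e2 := (w₂_spec D (hv φ)).2
      rw [← hN] at e1 e2
      rw [nr_alb, ← e1, ← e2]
      ring
    rw [e1, SS_add, SS_smul, SS_smul, ← hY₁, ← hY₂]
    ring
  have s1 : SS T (fun p _ φ => tn 1 R' b (hv φ) * Real.log p) =
      N * ((X₁₁ - X₂₂) / 2 + X₃₃ - (X₁₃ - X₂₃) / 2) := by
    have e1 : SS T (fun p _ φ => tn 1 R' b (hv φ) * Real.log p) =
        SS T (fun p _ φ => (N / 2) * (w₁ D (hv φ) * (g₁ p φ * Real.log p)) +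
          ((-(N / 2)) * (w₂ D (hv φ) * (g₂ p φ * Real.log p)) +
          (N * (w₃ D (hv φ) * (g₃ p φ * Real.log p)) +
          ((-(N / 2)) * (w₁ D (hv φ) * (g₃ p φ * Real.log p)) +
          (N / 2) * (w₂ D (hv φ) * (g₃ p φ * Real.log p)))))) := by
      refine SS_congr T fun p hp φ _ => ?_
      have e1 := (w₁_spec D (hv φ)).2
      have e2 := (w₂_spec D (hv φ)).2
      have e3 := (w₃_spec D (hv φ)).2
      rw [← hN] at e1 e2 e3
      have e4 : tn 1 R' b (hv φ) = (N * w₁ D (hv φ) * g₁ p φ - N * w₂ D (hv φ) * g₂ p φ) / 2 +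
          (N * w₃ D (hv φ) - (N * w₁ D (hv φ) - N * w₂ D (hv φ)) / 2) * g₃ p φ := by
        rw [e1, e2, e3]
        by_cases hsep : (mp (fun i => φ (a i))).Separable
        · rw [hg₁, hg₂, hg₃]
          simp only
          rw [if_pos hsep, if_pos hsep, if_pos hsep]
          by_cases hR : hv φ ∈ D.R
          · have h1 : hv φ ∈ R' := (hR' _).2 (Or.inl hR)
            have z1 : nr D (fun v => D.s₁ v ^ 2) (hv φ) = 0 := by unfold nr tn; rw [if_pos hR]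
            have z2 : nr D D.s₂ (hv φ) = 0 := by unfold nr tn; rw [if_pos hR]
            have z3 : nr D D.t (hv φ) = 0 := by unfold nr tn; rw [if_pos hR]
            rw [z1, z2, z3]
            unfold tn
            rw [if_pos h1]
            ring
          · have h1 : hv φ ∉ R' := by
              rw [hR']
              rintro (h2 | h2)
              · exact hR h2
              · exact h2 ((sep_iff a p φ).2 hsep)
            exact tn_restr hRR hb (hv φ) h1 (σ₀ p hp φ) (hσ₀ p hp φ hsep).1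
        · rw [hg₁, hg₂, hg₃]
          simp only
          rw [if_neg hsep, if_neg hsep, if_neg hsep]
          have h1 : hv φ ∈ R' := (hR' _).2 (Or.inr fun h2 => hsep ((sep_iff a p φ).1 h2))
          unfold tn
          rw [if_pos h1]
          ring
      rw [e4]
      ring
    rw [e1, SS_add, SS_add, SS_add, SS_add, SS_smul, SS_smul, SS_smul, SS_smul, SS_smul,
      ← hX₁₁, ← hX₂₂, ← hX₃₃, ← hX₁₃, ← hX₂₃]
    ring
  rw [s1] at c1
  rw [s2] at c2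
  rw [s3] at c3
  have hlogT : 0 ≤ Real.log T := Real.log_natCast_nonneg T
  have hsq : Real.sqrt T ≤ (T : ℝ) ^ (1 / 2 + δ / 2) := by
    rw [Real.sqrt_eq_rpow]
    exact Real.rpow_le_rpow_of_exponent_le hT1' (by linarith)
  have hsl : Real.sqrt T * Real.log T ≤ (T : ℝ) ^ (1 / 2 + δ / 2) * Real.log T :=
    mul_le_mul_of_nonneg_right hsq hlogT
  obtain ⟨P, hP⟩ : ∃ P : ℝ, P = (T : ℝ) ^ (1 / 2 + δ / 2) * Real.log T := ⟨_, rfl⟩
  rw [← hP] at hsl hε
  have hgrow := hT₂ T (by omega)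
  rw [← hP] at hgrow
  have hsum : |N * ((X₁₁ - X₂₂) / 2 + X₃₃ - (X₁₃ - X₂₃) / 2) - (N * Y₃ + N * ((Y₁ - Y₂) / 2))| ≤
      N * (3 * (C * C) * P) := by
    have e1 : N * ((X₁₁ - X₂₂) / 2 + X₃₃ - (X₁₃ - X₂₃) / 2) - (N * Y₃ + N * ((Y₁ - Y₂) / 2)) =
        N * ((X₁₁ - 2 * Y₁) / 2 - (X₂₂ - 2 * Y₂) / 2 + (X₃₃ - Y₃) - (X₁₃ - Y₁) / 2 + (X₂₃ - Y₂) / 2) := by
      ring
    rw [e1, abs_mul, abs_of_nonneg hN0]
    apply mul_le_mul_of_nonneg_left _ hN0
    have q1 := abs_le.1 k11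
    have q2 := abs_le.1 k22
    have q3 := abs_le.1 k33
    have q4 := abs_le.1 k13
    have q5 := abs_le.1 k23
    have hε2 : ε = C * C * P := by rw [hε]; ring
    have q6 : 3 * (C * C) * P = 3 * ε := by rw [hε2]; ring
    rw [q6, abs_le]
    constructor <;> linarith
  have hmain : |(T : ℝ) * average 1 R' b T - ((T : ℝ) * average 1 D.R D.t T +
      (T : ℝ) * average 1 D.R (albanese D) T)| ≤ N * (T : ℝ) ^ (1 / 2 + δ) := by
    have f1 := abs_le.1 c1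
    have f2 := abs_le.1 c2
    have f3 := abs_le.1 c3
    have f4 := abs_le.1 hsum
    have g1 : 3 * (n : ℝ) ^ 2 * N * (d * (Real.sqrt T * Real.log T)) ≤ 3 * (n : ℝ) ^ 2 * N * (d * P) := by
      apply mul_le_mul_of_nonneg_left _ (by positivity)
      exact mul_le_mul_of_nonneg_left hsl hd0
    have g2 : N * (d * (Real.sqrt T * Real.log T)) ≤ N * (d * P) := by
      apply mul_le_mul_of_nonneg_left _ hN0
      exact mul_le_mul_of_nonneg_left hsl hd0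
    have g3 := mul_le_mul_of_nonneg_left hgrow hN0
    have g4 : 3 * (n : ℝ) ^ 2 * N * (d * P) + 2 * (N * (d * P)) + N * (3 * (C * C) * P) ≤
        N * (T : ℝ) ^ (1 / 2 + δ) := by
      refine le_trans (le_of_eq ?_) g3
      ring
    rw [abs_le]
    constructor <;> linarith
  rw [← hN]
  have hfin : |average 1 R' b T - (average 1 D.R D.t T + average 1 D.R (albanese D) T)| * T ≤
      N * (T : ℝ) ^ (1 / 2 + δ) := by
    rw [← mul_add, ← mul_sub, abs_mul, abs_of_pos hT0] at hmain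
    linarith
  have h9 : N * (T : ℝ) ^ (1 / 2 + δ) = N * (T : ℝ) ^ (-(1 / 2) + δ) * T := by
    have : (T : ℝ) ^ (1 / 2 + δ) = (T : ℝ) ^ (-(1 / 2) + δ) * T := by
      rw [← Real.rpow_add_one hT0.ne']
      congr 1
      ring
    rw [this, mul_assoc]
  rw [h9] at hfin
  exact le_of_mul_le_mul_right hfin hT0

end

end Pool.Agent.H40SY
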