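import Pool.Agent.H40SY.WR2

/-! Tauberian averages of Weil restrictions: the theorem. -/

set_option autoImplicit false

namespace Pool.Agent.H40SY

open NumberField IsDedekindDomain Finset Filter Polynomial

section
variable {K : Type} [Field K] [NumberField K] {n g : ℕ}

theorem RestrictionClose.mono {D : TraceData K} {f : (𝓞 K)[X]} {T : ℕ}
    {ε ε' : ℝ} (h : RestrictionClose D f T ε) (hε : ε ≤ ε') : RestrictionClose D f T ε' :=
  fun R' b' hR hb => (h R' b' hR hb).trans (mul_le_mul_of_nonneg_left hε (by positivity))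

/-- **The theorem.** -/
theorem restr_main (hn : 2 ≤ n) (ω : Fin g → 𝓞 K) (hω : (1 : 𝓞 K) ∈ Submodule.span ℤ (Set.range ω)) (δ : ℝ)
    (hδ : 0 < δ) (A B : ℕ) : ∃ E y₀ : ℕ, ∀ (V : ℕ → TraceData K) (Q y : ℕ), y₀ ≤ y →
    ∀ S : Finset (Fin n → Fin g → ℤ), WellDistributed Q S →
      open Classical in
      ((S.filter fun c => ¬ RestrictionLaw ω δ B V E Q y c).card : ℝ) ≤ 1 / (y : ℝ) ^ A * S.card := by
  classical
  obtain ⟨δ', hδ'⟩ : ∃ δ' : ℝ, δ' = min δ (1 / 2) := ⟨_, rfl⟩
  have hδ0 : 0 < δ' := by rw [hδ']; positivity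
  have hδ1 : δ' ≤ 1 / 2 := by rw [hδ']; exact min_le_right _ _
  have hδ2 : δ' ≤ δ := by rw [hδ']; exact min_le_left _ _
  obtain ⟨E, y₀, h0, h⟩ := engine (n := n) ω hω δ' hδ0 hδ1 A (B + 2)
  obtain ⟨T₀, hT₀⟩ := restr_close (K := K) hn δ' hδ0
  refine ⟨E, y₀ + T₀ + 1, fun V Q y hy S hS => ?_⟩
  obtain ⟨U, hU⟩ : ∃ U : ℕ → Finset (HeightOneSpectrum (𝓞 K) → ℝ), U = fun T =>
      ((range (T ^ B)).image fun j => w₁ (V j)) ∪ (((range (T ^ B)).image fun j => w₂ (V j)) ∪
        ((range (T ^ B)).image fun j => w₃ (V j))) := ⟨_, rfl⟩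
  have hUc : ∀ T, 2 ≤ T → (U T).card ≤ T ^ (B + 2) := by
    intro T hT
    rw [hU]
    simp only
    have e1 : ((range (T ^ B)).image fun j => w₁ (V j)).card ≤ T ^ B := by
      refine card_image_le.trans ?_
      rw [card_range]
    have e2 : ((range (T ^ B)).image fun j => w₂ (V j)).card ≤ T ^ B := by
      refine card_image_le.trans ?_
      rw [card_range]
    have e3 : ((range (T ^ B)).image fun j => w₃ (V j)).card ≤ T ^ B := by
      refine card_image_le.trans ?_
      rw [card_range]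
    have e4 := card_union_le ((range (T ^ B)).image fun j => w₁ (V j))
      (((range (T ^ B)).image fun j => w₂ (V j)) ∪ ((range (T ^ B)).image fun j => w₃ (V j)))
    have e5 := card_union_le ((range (T ^ B)).image fun j => w₂ (V j))
      ((range (T ^ B)).image fun j => w₃ (V j))
    have e6 : T ^ B * 4 ≤ T ^ (B + 2) := by
      rw [pow_add]
      exact Nat.mul_le_mul_left _ (by nlinarith)
    omega
  have hU1 : ∀ T, ∀ u ∈ U T, ∀ v, |u v| ≤ 1 := by
    intro T u hu v
    rw [hU] at hu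
    simp only at hu
    rw [mem_union, mem_union, mem_image, mem_image, mem_image] at hu
    rcases hu with ⟨j, _, rfl⟩ | ⟨j, _, rfl⟩ | ⟨j, _, rfl⟩
    · exact (w₁_spec _ _).1
    · exact (w₂_spec _ _).1
    · exact (w₃_spec _ _).1
  refine le_trans ?_ (h U hUc hU1 Q y (by omega) S hS)
  have h1 : (S.filter fun c => ¬ RestrictionLaw ω δ B V E Q y c) ⊆
      (S.filter fun c => ¬ Law (ac ω c) δ' U E Q y) := by
    intro c hc
    rw [mem_filter] at hc ⊢
    refine ⟨hc.1, fun hlaw => hc.2 fun hyQ => ⟨(hlaw hyQ).1, fun T hyT hTE j hj => ?_⟩⟩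
    have h2 : ∀ w : TraceData K → HeightOneSpectrum (𝓞 K) → ℝ,
        w (V j) ∈ (range (T ^ B)).image fun j => w (V j) := fun w =>
      mem_image.2 ⟨j, mem_range.2 hj, rfl⟩
    have h3 := hT₀ (ac ω c) U hU1 E Q y hlaw T (by omega) hyT hTE (V j)
      (by rw [hU]; exact mem_union_left _ (h2 w₁))
      (by rw [hU]; exact mem_union_right _ (mem_union_left _ (h2 w₂)))
      (by rw [hU]; exact mem_union_right _ (mem_union_right _ (h2 w₃)))
    refine RestrictionClose.mono h3 ?_
    exact Real.rpow_le_rpow_of_exponent_le (by exact_mod_cast (by omega : 1 ≤ T)) (by linarith)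
  exact_mod_cast card_le_card h1

end

end Pool.Agent.H40SY
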