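import Pool.Agent.H40SY.WRMain

/-!
# The Tauberian averages of the Weil restrictions of arbitrary varieties from the fields given by almost all
polynomials

`K` is a number field, `ω_0, ..., ω_(g-1)` are elements of `𝓞_K` such that `1` is in the group generated
by them (for instance an integral basis), and the vector `c` of the integers `c_(i,j)`, `i < n`, `j < g`,
gives the monic polynomial `f_c = x ^ n + ∑_(i < n) (∑_j c_(i,j) ω_j) x ^ i` over `𝓞_K`, and the field
`L_c = K[x] / (f_c)`, if `f_c` is irreducible.

Let `X` be a smooth projective variety over `K` and `W_c` the Weil restriction of `X` from `L_c` to `K`, a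
variety over `K` of dimension `n dim X`.  Its second cohomology group is the sum of
`Λ^2 (H^1(X) ⊗ P)` and `(H^2(X) - Λ^2 H^1(X)) ⊗ P`, where `P` is the permutation representation given by
the roots of `f_c`.  The theorem: if `n ≥ 2`, then for almost all `c` the Galois group of `f_c` is the
symmetric group, and for all `T` up to a power of the size of `c` the average of the question for `W_c`
is the sum of the averages for `X` and for its Albanese variety, up to the error `T ^ (-1/2 + δ)`.

For an elliptic curve `X` over an arbitrary number field the traces on `H^2(X) = Λ^2 H^1(X)` are the norms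
`q_v`, and so the averages for the abelian varieties `W_c` of dimension `n` are
`2 T⁻¹ ∑_(q_v ≤ T) log q_v + O(T ^ (-1/2 + δ))`; the rank of `NS(W_c / K)` is `2` for almost all `c` (if
`X` has no complex multiplication, for all `c` for which the Galois group of `f_c` is the symmetric group).

The definitions are in `Pool.Agent.H40SY.Defs`, `Pool.Agent.H40SY.WDefs`, `Pool.Agent.W353.SP.NDefs`
(`average`), `Pool.Agent.W353.EF.Defs` (`IsFrobenius`) and `Pool.Agent.W353.AT.Defs`
(`IsFrobeniusElement`).

Method: the library of `SymmetricExtensions` (high moments of local functions over the family, engine of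
helper647).  The numbers of the fixed points of a permutation and of its square are class functions,
combinations of permutation characters of Young subgroups; the mean values over `S_n` of the square of the
number of the fixed points of `π` and of the number of the fixed points of `π ^ 2` are both `2`.
-/

set_option autoImplicit false

namespace Pool.Agent.Results.MP_4589ac_nt.WeilRestrictions

open NumberField Pool.Agent.H40SY

open Classical in
/-- **The Tauberian averages of Weil restrictions.**  Let `n ≥ 2`.  For all `δ > 0`, `A`, `B` there are `E`
and `y₀` such that for all sequences `V` of varieties over `K`, all `Q`, all `y ≥ y₀` and all finite sets `S`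
of vectors which are well distributed modulo the numbers `q ≤ Q` (for instance boxes with side at least
`2 n g Q ^ 2`, see `SymmetricExtensions`) the following holds for all `c` in `S` with at most
`|S| / y ^ A` exceptions: if `y ^ E ≤ Q`, then the Galois group of the polynomial `f_c` is the symmetric
group, and for all `T ≥ y` with `T ^ E ≤ Q` and all `j < T ^ B` the average up to `T` for the Weil
restriction of `V j` from `K[x] / (f_c)` to `K` is the sum of the averages for `V j` and for its Albanese
variety, up to `(N₁ ^ 2 + N₂) T ^ (-1/2 + δ)`. -/
theorem result (K : Type) [Field K] [NumberField K] (n g : ℕ) (hn : 2 ≤ n) (ω : Fin g → 𝓞 K)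
    (hω : (1 : 𝓞 K) ∈ Submodule.span ℤ (Set.range ω)) (δ : ℝ) (hδ : 0 < δ) (A B : ℕ) :
    ∃ E y₀ : ℕ, ∀ (V : ℕ → TraceData K) (Q y : ℕ), y₀ ≤ y →
      ∀ S : Finset (Fin n → Fin g → ℤ), WellDistributed Q S →
        ((S.filter fun c => ¬ RestrictionLaw ω δ B V E Q y c).card : ℝ) ≤ 1 / (y : ℝ) ^ A * S.card :=
  restr_main hn ω hω δ hδ A B

end Pool.Agent.Results.MP_4589ac_nt.WeilRestrictions
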